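import Pool.Agent.H.MP_6c077c_gt.Ph.PGen

/-! Outer normals: the index condition survives a small linear perturbation. -/

set_option autoImplicit false

namespace Pool.Schoen

open Filter Set
open scoped Topology RealInnerProductSpace ContDiff

variable {V : Type*} [NormedAddCommGroup V] [InnerProductSpace ℝ V]

theorem lin_fderiv {φ : V → ℝ} (hφ : ContDiff ℝ ∞ φ) (a x : V) :
    fderiv ℝ (fun y => φ y + ⟪a, y⟫) x = fderiv ℝ φ x + innerSL ℝ a := by
  have h1 : HasFDerivAt φ (fderiv ℝ φ x) x := ((hφ.differentiable (by simp)) x).hasFDerivAt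
  have h2 : HasFDerivAt (fun y : V => ⟪a, y⟫) (innerSL ℝ a) x := (innerSL ℝ a).hasFDerivAt
  exact (h1.add h2).fderiv

theorem lin_fderiv_apply {φ : V → ℝ} (hφ : ContDiff ℝ ∞ φ) (a x v : V) :
    fderiv ℝ (fun y => φ y + ⟪a, y⟫) x v = fderiv ℝ φ x v + ⟪a, v⟫ := by
  rw [lin_fderiv hφ]
  rfl

theorem lin_hess {φ : V → ℝ} (hφ : ContDiff ℝ ∞ φ) (a x u w : V) :
    hess (fun y => φ y + ⟪a, y⟫) x u w = hess φ x u w := by
  unfold hess
  have h1 : fderiv ℝ (fun y => φ y + ⟪a, y⟫) = fun x => fderiv ℝ φ x + innerSL ℝ a :=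
    funext fun x => lin_fderiv hφ a x
  rw [h1, fderiv_add_const]

theorem lin_smooth {φ : V → ℝ} (hφ : ContDiff ℝ ∞ φ) (a : V) :
    ContDiff ℝ ∞ fun y => φ y + ⟪a, y⟫ :=
  hφ.add (contDiff_const.inner ℝ contDiff_id)

/-- The second derivative is continuous in all arguments. -/
theorem hess_cont {φ : V → ℝ} (hφ : ContDiff ℝ ∞ φ) :
    Continuous fun q : V × (V × V) => hess φ q.1 q.2.1 q.2.2 := by
  have h1 : Continuous (fderiv ℝ (fderiv ℝ φ)) :=
    (hφ.fderiv_right (m := ∞) (by simp)).continuous_fderiv (by simp)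
  unfold hess
  exact ((h1.comp continuous_fst).clm_apply (continuous_fst.comp continuous_snd)).clm_apply
    (continuous_snd.comp continuous_snd)

theorem fderiv_cont2 {φ : V → ℝ} (hφ : ContDiff ℝ ∞ φ) :
    Continuous fun q : V × V => fderiv ℝ φ q.1 q.2 := by
  have h1 : Continuous (fderiv ℝ φ) := hφ.continuous_fderiv (by simp)
  exact (h1.comp continuous_fst).clm_apply continuous_snd

/-- An orthonormal pair in a plane. -/
theorem exists_pair (U : Submodule ℝ V) (hU : Module.finrank ℝ U = 2) :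
    ∃ u ∈ U, ∃ v ∈ U, ‖u‖ = 1 ∧ ‖v‖ = 1 ∧ ⟪u, v⟫ = 0 := by
  haveI : FiniteDimensional ℝ U := Module.finite_of_finrank_pos (by omega)
  let hb := (stdOrthonormalBasis ℝ U).reindex (finCongr hU)
  exact ⟨hb 0, (hb 0).2, hb 1, (hb 1).2, hb.orthonormal.1 0, hb.orthonormal.1 1,
    hb.orthonormal.2 (show (0 : Fin 2) ≠ 1 by decide)⟩

theorem finrank_pair {u v : V} (hu : ‖u‖ = 1) (hv : ‖v‖ = 1) (huv : ⟪u, v⟫ = 0) :
    Module.finrank ℝ (Submodule.span ℝ ({u, v} : Set V)) = 2 := by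
  have h1 : Orthonormal ℝ ![u, v] := by
    refine ⟨fun i => ?_, fun i j hij => ?_⟩
    · fin_cases i
      · exact hu
      · exact hv
    · fin_cases i <;> fin_cases j
      · exact absurd rfl hij
      · exact huv
      · show ⟪v, u⟫ = 0
        rw [real_inner_comm]
        exact huv
      · exact absurd rfl hij
  have h2 := finrank_span_eq_card h1.linearIndependent
  have h3 : Set.range ![u, v] = {u, v} := by
    simp [Matrix.range_cons, Matrix.range_empty, Set.union_comm, Set.pair_comm]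
  rw [h3] at h2
  simpa using h2

variable [FiniteDimensional ℝ V]

/-- The index condition at the levels at least `c` survives a small linear perturbation of `φ`, with
a margin for the level. -/
theorem pclose_margin {F φ : V → ℝ} (hF : ContDiff ℝ ∞ F) (hφ : ContDiff ℝ ∞ φ)
    (hK : IsCompact {x | F x = 0}) (hreg : ∀ x, F x = 0 → gradient F x ≠ 0) {c : ℝ}
    (hr : ∀ x, F x = 0 → c ≤ φ x → fderiv ℝ φ x ≠ 0)
    (h : ∀ x μ, F x = 0 → c ≤ φ x → InwardP F φ x μ → ¬ ∃ U : Submodule ℝ V,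
      Module.finrank ℝ U = 2 ∧
      ∀ u ∈ U, fderiv ℝ φ x u = 0 ∧ hess F x u u + μ * hess φ x u u ≤ 0) :
    ∃ δ : ℝ, 0 < δ ∧ ∀ a : V, ‖a‖ < δ → ∀ x μ, F x = 0 → c - δ ≤ φ x + ⟪a, x⟫ →
      InwardP F (fun y => φ y + ⟪a, y⟫) x μ → ¬ ∃ U : Submodule ℝ V, Module.finrank ℝ U = 2 ∧
        ∀ u ∈ U, u ≠ 0 → fderiv ℝ (fun y => φ y + ⟪a, y⟫) x u = 0 ∧
          hess F x u u + μ * hess (fun y => φ y + ⟪a, y⟫) x u u < 0 := by
  by_contra hcon
  push Not at hcon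
  have hk : ∀ k : ℕ, (0 : ℝ) < 1 / (k + 1) := fun k => by positivity
  choose a ha x μ hx hc hin U hU2 hU using fun k : ℕ => hcon _ (hk k)
  choose u hu v hv hu1 hv1 huv using fun k => exists_pair (U k) (hU2 k)
  have hS : IsCompact ({x | F x = 0} ×ˢ
      (Metric.sphere (0 : V) 1 ×ˢ Metric.sphere (0 : V) 1)) :=
    hK.prod ((isCompact_sphere _ _).prod (isCompact_sphere _ _))
  obtain ⟨⟨x₀, u₀, v₀⟩, ⟨hx₀, hu₀, hv₀⟩, ψ, hψ, hlim⟩ := hS.tendsto_subseq
    (x := fun k => (x k, u k, v k)) fun k =>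
      ⟨hx k, by simpa using hu1 k, by simpa using hv1 k⟩
  have hxl : Tendsto (fun k => x (ψ k)) atTop (𝓝 x₀) :=
    (continuous_fst.tendsto _).comp hlim
  have hul : Tendsto (fun k => u (ψ k)) atTop (𝓝 u₀) :=
    ((continuous_fst.comp continuous_snd).tendsto _).comp hlim
  have hvl : Tendsto (fun k => v (ψ k)) atTop (𝓝 v₀) :=
    ((continuous_snd.comp continuous_snd).tendsto _).comp hlim
  have hal : Tendsto (fun k => a (ψ k)) atTop (𝓝 0) := by
    rw [tendsto_zero_iff_norm_tendsto_zero]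
    refine squeeze_zero (fun k => norm_nonneg _) (fun k => (ha (ψ k)).le) ?_
    exact tendsto_one_div_add_atTop_nhds_zero_nat.comp hψ.tendsto_atTop
  have hx₀' : F x₀ = 0 := hx₀
  have hc₀ : c ≤ φ x₀ := by
    have h1 : Tendsto (fun k => φ (x (ψ k)) + ⟪a (ψ k), x (ψ k)⟫ + 1 / ((ψ k : ℝ) + 1)) atTop
        (𝓝 (φ x₀ + ⟪(0 : V), x₀⟫ + 0)) :=
      (((hφ.continuous.tendsto _).comp hxl).add (hal.inner hxl)).add
        (tendsto_one_div_add_atTop_nhds_zero_nat.comp hψ.tendsto_atTop)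
    rw [inner_zero_left, add_zero, add_zero] at h1
    exact ge_of_tendsto' h1 fun k => by
      have := hc (ψ k)
      linarith
  have hne := hr x₀ hx₀' hc₀
  have hneF : fderiv ℝ F x₀ ≠ 0 := by
    intro h0
    apply hreg x₀ hx₀'
    rw [gradient, h0, map_zero]
  -- the functionals
  have hFl : Tendsto (fun k => fderiv ℝ F (x (ψ k))) atTop (𝓝 (fderiv ℝ F x₀)) :=
    ((hF.continuous_fderiv (by simp)).tendsto _).comp hxl
  have hGl : Tendsto (fun k => fderiv ℝ φ (x (ψ k)) + innerSL ℝ (a (ψ k))) atTop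
      (𝓝 (fderiv ℝ φ x₀)) := by
    have h1 : Tendsto (fun k => fderiv ℝ φ (x (ψ k)) + innerSL ℝ (a (ψ k))) atTop
        (𝓝 (fderiv ℝ φ x₀ + innerSL ℝ (0 : V))) :=
      (((hφ.continuous_fderiv (by simp)).tendsto _).comp hxl).add
        (((innerSL ℝ).continuous.tendsto _).comp hal)
    rwa [map_zero, add_zero] at h1
  have heq : ∀ k, fderiv ℝ F (x k) = -(μ k) • (fderiv ℝ φ (x k) + innerSL ℝ (a k)) := by
    intro k
    ext w
    rw [(hin k).2 w, lin_fderiv_apply hφ]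
    simp only [_root_.smul_apply, _root_.add_apply, innerSL_apply_apply, smul_eq_mul]
    ring
  have hnorm : ∀ k, ‖fderiv ℝ F (x k)‖ = μ k * ‖fderiv ℝ φ (x k) + innerSL ℝ (a k)‖ := by
    intro k
    rw [heq k, norm_smul, norm_neg, Real.norm_of_nonneg (hin k).1.le]
  obtain ⟨m, hm⟩ : ∃ m : ℝ, m = ‖fderiv ℝ F x₀‖ / ‖fderiv ℝ φ x₀‖ := ⟨_, rfl⟩
  have hm0 : 0 < m := by
    rw [hm]
    exact div_pos (norm_pos_iff.2 hneF) (norm_pos_iff.2 hne)
  have hμl : Tendsto (fun k => μ (ψ k)) atTop (𝓝 m) := by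
    have h1 : Tendsto (fun k => ‖fderiv ℝ F (x (ψ k))‖ /
        ‖fderiv ℝ φ (x (ψ k)) + innerSL ℝ (a (ψ k))‖) atTop (𝓝 m) := by
      rw [hm]
      exact hFl.norm.div hGl.norm (norm_ne_zero_iff.2 hne)
    refine h1.congr' ?_
    have h2 : ∀ᶠ k in atTop, ‖fderiv ℝ φ (x (ψ k)) + innerSL ℝ (a (ψ k))‖ ≠ 0 :=
      hGl.norm.eventually_ne (norm_ne_zero_iff.2 hne)
    filter_upwards [h2] with k hk
    rw [hnorm (ψ k)]
    field_simp
  have hin₀ : InwardP F φ x₀ m := by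
    refine ⟨hm0, fun w => ?_⟩
    have h1 : Tendsto (fun k => fderiv ℝ F (x (ψ k)) w) atTop (𝓝 (fderiv ℝ F x₀ w)) :=
      ((ContinuousLinearMap.apply ℝ ℝ w).continuous.tendsto _).comp hFl
    have h2 : Tendsto (fun k => (fderiv ℝ φ (x (ψ k)) + innerSL ℝ (a (ψ k))) w) atTop
        (𝓝 (fderiv ℝ φ x₀ w)) :=
      ((ContinuousLinearMap.apply ℝ ℝ w).continuous.tendsto _).comp hGl
    have h3 : Tendsto (fun k => -(μ (ψ k) * (fderiv ℝ φ (x (ψ k)) + innerSL ℝ (a (ψ k))) w)) atTop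
        (𝓝 (-(m * fderiv ℝ φ x₀ w))) := (hμl.mul h2).neg
    refine tendsto_nhds_unique h1 (h3.congr fun k => ?_)
    rw [heq (ψ k)]
    simp only [_root_.smul_apply, _root_.add_apply, innerSL_apply_apply, smul_eq_mul]
    ring
  have hu₀' : ‖u₀‖ = 1 := by simpa using hu₀
  have hv₀' : ‖v₀‖ = 1 := by simpa using hv₀
  have huv₀ : ⟪u₀, v₀⟫ = 0 := by
    refine tendsto_nhds_unique (hul.inner hvl) ?_
    simp only [huv]
    exact tendsto_const_nhds
  refine h x₀ m hx₀' hc₀ hin₀ ⟨Submodule.span ℝ {u₀, v₀}, finrank_pair hu₀' hv₀' huv₀, ?_⟩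
  intro w hw
  obtain ⟨α, β, rfl⟩ := Submodule.mem_span_pair.1 hw
  have hwl : Tendsto (fun k => α • u (ψ k) + β • v (ψ k)) atTop (𝓝 (α • u₀ + β • v₀)) :=
    (hul.const_smul α).add (hvl.const_smul β)
  have hwU : ∀ k, α • u k + β • v k ∈ U k := fun k =>
    (U k).add_mem ((U k).smul_mem _ (hu k)) ((U k).smul_mem _ (hv k))
  have hwU' : ∀ k, fderiv ℝ (fun y => φ y + ⟪a k, y⟫) (x k) (α • u k + β • v k) = 0 ∧
      hess F (x k) (α • u k + β • v k) (α • u k + β • v k) +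
        μ k * hess (fun y => φ y + ⟪a k, y⟫) (x k) (α • u k + β • v k)
          (α • u k + β • v k) ≤ 0 := by
    intro k
    by_cases h0 : α • u k + β • v k = 0
    · rw [h0]
      simp [hess]
    · exact ⟨(hU k _ (hwU k) h0).1, (hU k _ (hwU k) h0).2.le⟩
  constructor
  · have h1 : Tendsto (fun k => (fderiv ℝ φ (x (ψ k)) + innerSL ℝ (a (ψ k)))
        (α • u (ψ k) + β • v (ψ k))) atTop (𝓝 (fderiv ℝ φ x₀ (α • u₀ + β • v₀))) := by
      have h3 : Continuous fun q : (V →L[ℝ] ℝ) × V => q.1 q.2 :=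
        continuous_fst.clm_apply continuous_snd
      exact (h3.tendsto _).comp (hGl.prodMk_nhds hwl)
    refine tendsto_nhds_unique h1 ?_
    have h2 : ∀ k, (fderiv ℝ φ (x (ψ k)) + innerSL ℝ (a (ψ k)))
        (α • u (ψ k) + β • v (ψ k)) = 0 := by
      intro k
      rw [← lin_fderiv hφ]
      exact (hwU' (ψ k)).1
    simp only [h2]
    exact tendsto_const_nhds
  · have h1 : Tendsto (fun k => hess F (x (ψ k)) (α • u (ψ k) + β • v (ψ k))
        (α • u (ψ k) + β • v (ψ k)) + μ (ψ k) * hess φ (x (ψ k)) (α • u (ψ k) + β • v (ψ k))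
        (α • u (ψ k) + β • v (ψ k))) atTop (𝓝 (hess F x₀ (α • u₀ + β • v₀) (α • u₀ + β • v₀) +
          m * hess φ x₀ (α • u₀ + β • v₀) (α • u₀ + β • v₀))) := by
      have h2 := hxl.prodMk_nhds (hwl.prodMk_nhds hwl)
      exact (((hess_cont hF).tendsto _).comp h2).add
        (hμl.mul (((hess_cont hφ).tendsto _).comp h2))
    refine le_of_tendsto' h1 fun k => ?_
    have h2 := (hwU' (ψ k)).2
    rw [lin_hess hφ] at h2
    exact h2

theorem pclose {F φ : V → ℝ} (hF : ContDiff ℝ ∞ F) (hφ : ContDiff ℝ ∞ φ)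
    (hK : IsCompact {x | F x = 0}) (hreg : ∀ x, F x = 0 → gradient F x ≠ 0) {c : ℝ}
    (hr : ∀ x, F x = 0 → c ≤ φ x → fderiv ℝ φ x ≠ 0)
    (h : ∀ x μ, F x = 0 → c ≤ φ x → InwardP F φ x μ → ¬ ∃ U : Submodule ℝ V,
      Module.finrank ℝ U = 2 ∧
      ∀ u ∈ U, fderiv ℝ φ x u = 0 ∧ hess F x u u + μ * hess φ x u u ≤ 0) :
    ∃ δ : ℝ, 0 < δ ∧ ∀ a : V, ‖a‖ < δ → ∀ x μ, F x = 0 → c ≤ φ x + ⟪a, x⟫ →
      InwardP F (fun y => φ y + ⟪a, y⟫) x μ → ¬ ∃ U : Submodule ℝ V, Module.finrank ℝ U = 2 ∧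
        ∀ u ∈ U, u ≠ 0 → fderiv ℝ (fun y => φ y + ⟪a, y⟫) x u = 0 ∧
          hess F x u u + μ * hess (fun y => φ y + ⟪a, y⟫) x u u < 0 := by
  obtain ⟨δ, hδ, h1⟩ := pclose_margin hF hφ hK hreg hr h
  exact ⟨δ, hδ, fun a ha x μ hx hc hin => h1 a ha x μ hx (by linarith) hin⟩

end Pool.Schoen
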