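import Pool.Agent.H.MP_6c077c_gt.Ph.PBasic
import Pool.Agent.H.MP_6c077c_gt.IxB.Basic

/-! Outer normals: relative critical points, index at most one, finiteness. -/

set_option autoImplicit false

namespace Pool.Schoen

open Filter Set
open scoped Topology RealInnerProductSpace ContDiff

section form

variable {K : Type*} [NormedAddCommGroup K] [InnerProductSpace ℝ K] [FiniteDimensional ℝ K]

/-- A nondegenerate symmetric form without a negative definite plane. -/
theorem PIdx_form (B : K →L[ℝ] K →L[ℝ] ℝ) (hs : ∀ x y, B x y = B y x)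
    (hnd : ∀ x, (∀ y, B x y = 0) → x = 0)
    (h2 : ¬ ∃ U : Submodule ℝ K, Module.finrank ℝ U = 2 ∧ ∀ u ∈ U, u ≠ 0 → B u u < 0) :
    (∀ w, w ≠ 0 → 0 < B w w) ∨ ∃ u, ‖u‖ = 1 ∧ B u u < 0 ∧ (∀ w, ⟪u, w⟫ = 0 → B u w = 0) ∧
      ∀ w, ⟪u, w⟫ = 0 → w ≠ 0 → 0 < B w w := by
  classical
  obtain ⟨T, hT⟩ : ∃ T : K →ₗ[ℝ] K, T = (((InnerProductSpace.toDual ℝ
    K).symm.toContinuousLinearEquiv.toContinuousLinearMap.comp B : K →L[ℝ] K) : K →ₗ[ℝ] K) :=
    ⟨_, rfl⟩
  have hTi : ∀ a b : K, ⟪T a, b⟫ = B a b := by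
    intro a b
    have h1 : T a = (InnerProductSpace.toDual ℝ K).symm (B a) := by
      rw [hT]
      rfl
    rw [h1, InnerProductSpace.toDual_symm_apply]
  have hTs : T.IsSymmetric := by
    intro a b
    rw [hTi, real_inner_comm, hTi, hs]
  obtain ⟨n, hn⟩ : ∃ n, Module.finrank ℝ K = n := ⟨_, rfl⟩
  obtain ⟨b, hb⟩ : ∃ b, b = hTs.eigenvectorBasis hn := ⟨_, rfl⟩
  obtain ⟨κ, hκ⟩ : ∃ κ, κ = hTs.eigenvalues hn := ⟨_, rfl⟩
  have hTb : ∀ i, T (b i) = κ i • b i := by
    intro i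
    rw [hb, hκ]
    exact hTs.apply_eigenvectorBasis hn i
  have hBb : ∀ i w, B (b i) w = κ i * ⟪b i, w⟫ := by
    intro i w
    rw [← hTi, hTb, real_inner_smul_left]
  have hb0 : ∀ i, b i ≠ 0 := by
    intro i hi
    have h8 := b.orthonormal.1 i
    rw [hi, norm_zero] at h8
    exact zero_ne_one h8
  have hκ0 : ∀ i, κ i ≠ 0 := by
    intro i hi
    exact hb0 i (hnd _ fun y => by rw [hBb, hi, zero_mul])
  have hquad : ∀ a : K, B a a = ∑ i, κ i * (⟪b i, a⟫ * ⟪b i, a⟫) := by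
    intro a
    rw [← hTi]
    conv_lhs => rw [← b.sum_repr' a]
    rw [map_sum, sum_inner]
    refine Finset.sum_congr rfl fun i _ => ?_
    rw [map_smul, hTb, real_inner_smul_left, real_inner_smul_left]
    have h1 : ⟪b i, ∑ j, ⟪b j, a⟫ • b j⟫ = ⟪b i, a⟫ := by rw [b.sum_repr' a]
    rw [h1]
    ring
  have hne : ∀ a : K, a ≠ 0 → ∃ i, ⟪b i, a⟫ ≠ 0 := by
    intro a ha
    by_contra hc
    push Not at hc
    apply ha
    rw [← b.sum_repr' a]
    exact Finset.sum_eq_zero fun i _ => by rw [hc i, zero_smul]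
  have horth : ∀ i j, i ≠ j → ⟪b i, b j⟫ = 0 := fun i j hij => b.orthonormal.2 hij
  have hone : ∀ i, ⟪b i, b i⟫ = (1 : ℝ) := fun i => by
    rw [real_inner_self_eq_norm_sq, b.orthonormal.1 i, one_pow]
  by_cases hneg : ∃ i, κ i < 0
  · obtain ⟨i, hi⟩ := hneg
    right
    have hrest : ∀ j, j ≠ i → 0 < κ j := by
      intro j hj
      by_contra hj0
      have hj1 : κ j < 0 := lt_of_le_of_ne (not_lt.1 hj0) (hκ0 j)
      apply h2
      refine ⟨Submodule.span ℝ {b i, b j}, ?_, ?_⟩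
      · have h3 : LinearIndependent ℝ ![b i, b j] := by
          rw [LinearIndependent.pair_iff]
          intro s t hst
          constructor
          · have h4 : ⟪b i, s • b i + t • b j⟫ = 0 := by rw [hst, inner_zero_right]
            rw [inner_add_right, real_inner_smul_right, real_inner_smul_right, hone,
              horth i j hj.symm] at h4
            linarith
          · have h4 : ⟪b j, s • b i + t • b j⟫ = 0 := by rw [hst, inner_zero_right]
            rw [inner_add_right, real_inner_smul_right, real_inner_smul_right, hone,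
              horth j i hj] at h4
            linarith
        have h4 := finrank_span_eq_card h3
        rw [Matrix.range_cons, Matrix.range_cons, Matrix.range_empty, Set.union_empty,
          Fintype.card_fin] at h4
        exact h4
      · intro u hu hu0
        obtain ⟨s, t, rfl⟩ := Submodule.mem_span_pair.1 hu
        have e1 : B (s • b i + t • b j) (s • b i + t • b j) = κ i * s ^ 2 + κ j * t ^ 2 := by
          have e0 : B (s • b i + t • b j) = s • B (b i) + t • B (b j) := by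
            rw [map_add, map_smul, map_smul]
          rw [e0, _root_.add_apply, _root_.smul_apply,
            _root_.smul_apply, hBb, hBb, inner_add_right, inner_add_right, real_inner_smul_right,
            real_inner_smul_right, real_inner_smul_right, real_inner_smul_right, hone, hone,
            horth i j hj.symm, horth j i hj]
          simp only [smul_eq_mul]
          ring
        rw [e1]
        by_cases hs0 : s = 0
        · have ht0 : t ≠ 0 := by
            rintro rfl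
            apply hu0
            rw [hs0, zero_smul, zero_smul, add_zero]
          have h5 : κ j * t ^ 2 < 0 := mul_neg_of_neg_of_pos hj1 (by positivity)
          rw [hs0]
          simp only [ne_eq, OfNat.ofNat_ne_zero, not_false_eq_true, zero_pow, mul_zero, zero_add]
          exact h5
        · have h5 : κ i * s ^ 2 < 0 := mul_neg_of_neg_of_pos hi (by positivity)
          have h6 : κ j * t ^ 2 ≤ 0 := mul_nonpos_of_nonpos_of_nonneg hj1.le (sq_nonneg t)
          linarith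
    refine ⟨b i, b.orthonormal.1 i, ?_, ?_, ?_⟩
    · rw [hBb, hone, mul_one]
      exact hi
    · intro w hw
      rw [hBb, hw, mul_zero]
    · intro w hw hw0
      obtain ⟨j, hj⟩ := hne w hw0
      have hji : j ≠ i := by
        rintro rfl
        exact hj hw
      rw [hquad]
      refine Finset.sum_pos' (fun k _ => ?_) ⟨j, Finset.mem_univ j, ?_⟩
      · by_cases hk : k = i
        · rw [hk, hw, mul_zero, mul_zero]
        · exact mul_nonneg (hrest k hk).le (mul_self_nonneg _)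
      · exact mul_pos (hrest j hji) (mul_self_pos.2 hj)
  · push Not at hneg
    left
    intro w hw0
    obtain ⟨j, hj⟩ := hne w hw0
    rw [hquad]
    refine Finset.sum_pos' (fun k _ => mul_nonneg (hneg k) (mul_self_nonneg _))
      ⟨j, Finset.mem_univ j, mul_pos (lt_of_le_of_ne (hneg j) (hκ0 j).symm) (mul_self_pos.2 hj)⟩

end form

variable {V : Type*} [NormedAddCommGroup V] [InnerProductSpace ℝ V]

/-- The hypersurface `F = 0` and the level of `φ` through `x` have opposite normals at `x`. -/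
def RelCrit (F φ : V → ℝ) (μ : ℝ) (x : V) : Prop :=
  F x = 0 ∧ 0 < μ ∧ ∀ v, fderiv ℝ F x v = -(μ * fderiv ℝ φ x v)

/-- A zero which is not relatively critical has a common direction of decrease. -/
theorem free_or_rel [CompleteSpace V] {F φ : V → ℝ} {x : V} (hx : F x = 0)
    (hF0 : fderiv ℝ F x ≠ 0) (hφ0 : fderiv ℝ φ x ≠ 0) :
    (∃ v, fderiv ℝ F x v < 0 ∧ fderiv ℝ φ x v < 0) ∨ ∃ μ, RelCrit F φ μ x := by
  obtain ⟨g, hg⟩ : ∃ g, g = (InnerProductSpace.toDual ℝ V).symm (fderiv ℝ F x) := ⟨_, rfl⟩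
  obtain ⟨k, hk⟩ : ∃ k, k = (InnerProductSpace.toDual ℝ V).symm (fderiv ℝ φ x) := ⟨_, rfl⟩
  have eg : ∀ v, fderiv ℝ F x v = ⟪g, v⟫ := fun v => by
    rw [hg, InnerProductSpace.toDual_symm_apply]
  have ek : ∀ v, fderiv ℝ φ x v = ⟪k, v⟫ := fun v => by
    rw [hk, InnerProductSpace.toDual_symm_apply]
  have hg0 : g ≠ 0 := by
    rintro rfl
    apply hF0
    ext v
    rw [eg, inner_zero_left]
    rfl
  have hk0 : k ≠ 0 := by
    rintro rfl
    apply hφ0
    ext v
    rw [ek, inner_zero_left]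
    rfl
  have hgn : 0 < ‖g‖ := norm_pos_iff.2 hg0
  have hkn : 0 < ‖k‖ := norm_pos_iff.2 hk0
  by_cases h : ‖k‖ • g = -(‖g‖ • k)
  · right
    refine ⟨‖g‖ / ‖k‖, hx, by positivity, fun v => ?_⟩
    rw [eg, ek]
    have h1 : ‖k‖ * ⟪g, v⟫ = -(‖g‖ * ⟪k, v⟫) := by
      rw [← real_inner_smul_left, h, inner_neg_left, real_inner_smul_left]
    field_simp
    linarith
  · left
    have hpos : 0 < ‖g‖ * ‖k‖ + ⟪g, k⟫ := by
      have h1 : 0 < ‖‖k‖ • g + ‖g‖ • k‖ ^ 2 := by
        have : ‖k‖ • g + ‖g‖ • k ≠ 0 := fun h0 => h (eq_neg_of_add_eq_zero_left h0)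
        positivity
      have h2 : ‖‖k‖ • g + ‖g‖ • k‖ ^ 2 = 2 * (‖g‖ * ‖k‖) * (‖g‖ * ‖k‖ + ⟪g, k⟫) := by
        rw [norm_add_sq_real, norm_smul, norm_smul, real_inner_smul_left, real_inner_smul_right,
          norm_norm, norm_norm]
        ring
      rw [h2] at h1
      by_contra hle
      have h3 := mul_nonneg (by positivity : 0 ≤ 2 * (‖g‖ * ‖k‖)) (neg_nonneg.2 (not_lt.1 hle))
      linarith
    refine ⟨-(‖k‖ • g + ‖g‖ • k), ?_, ?_⟩
    · rw [eg, inner_neg_right, inner_add_right, real_inner_smul_right, real_inner_smul_right,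
        real_inner_self_eq_norm_sq]
      have h3 := mul_pos hgn hpos
      nlinarith
    · rw [ek, inner_neg_right, inner_add_right, real_inner_smul_right, real_inner_smul_right,
        real_inner_self_eq_norm_sq, real_inner_comm]
      have h3 := mul_pos hkn hpos
      nlinarith

/-- A zero which is not relatively critical is free. -/
theorem freeP_or [CompleteSpace V] {F φ : V → ℝ} (hF : ContDiff ℝ ∞ F) {x : V} (hx : F x = 0)
    (hF0 : fderiv ℝ F x ≠ 0) (hφ0 : fderiv ℝ φ x ≠ 0) :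
    FreeP F φ x ∨ ∃ μ, RelCrit F φ μ x := by
  rcases free_or_rel hx hF0 hφ0 with ⟨v, h1, h2⟩ | h
  · exact Or.inl ⟨v, desc1_smooth (hF.contDiffAt.of_le (by norm_cast)) h1, h2⟩
  · exact Or.inr h

variable [FiniteDimensional ℝ V]

private theorem PIdx_symm {F : V → ℝ} (hF : ContDiff ℝ ∞ F) (x a b : V) :
    hess F x a b = hess F x b a := ixHess_symm hF x a b

/-- A nondegenerate relative critical point without a negative definite plane. -/
theorem inwP_of_rel {F φ : V → ℝ} (hF : ContDiff ℝ ∞ F) (hφ : ContDiff ℝ ∞ φ) {μ : ℝ} {x : V}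
    (h : RelCrit F φ μ x) (hφ0 : fderiv ℝ φ x ≠ 0)
    (hnd : ∀ w, fderiv ℝ φ x w = 0 →
      (∀ w', fderiv ℝ φ x w' = 0 → hess F x w w' + μ * hess φ x w w' = 0) → w = 0)
    (htwo : ¬ ∃ U : Submodule ℝ V, Module.finrank ℝ U = 2 ∧ ∀ u ∈ U, u ≠ 0 →
      fderiv ℝ φ x u = 0 ∧ hess F x u u + μ * hess φ x u u < 0) : InwP F φ x := by
  obtain ⟨hx, hμ, hg⟩ := h
  refine ⟨hF.contDiffAt.of_le (by norm_cast), hx, hφ0, μ, hμ, hg, ?_⟩
  obtain ⟨K, hK⟩ : ∃ K : Submodule ℝ V, K = LinearMap.ker (fderiv ℝ φ x : V →ₗ[ℝ] ℝ) := ⟨_, rfl⟩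
  have hKm : ∀ w, w ∈ K ↔ fderiv ℝ φ x w = 0 := fun w => by
    rw [hK]
    exact LinearMap.mem_ker
  obtain ⟨B, hB⟩ : ∃ B : K →L[ℝ] K →L[ℝ] ℝ,
      B = (fderiv ℝ (fderiv ℝ F) x + μ • fderiv ℝ (fderiv ℝ φ) x).bilinearComp
        K.subtypeL K.subtypeL := ⟨_, rfl⟩
  have hBa : ∀ a b : K, B a b = hess F x a b + μ * hess φ x a b := by
    intro a b
    rw [hB]
    rfl
  rcases PIdx_form B (fun a b => by rw [hBa, hBa, PIdx_symm hF, PIdx_symm hφ])
    (fun a ha => Subtype.ext (hnd a ((hKm _).1 a.2) fun w' hw' => by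
      have := ha ⟨w', (hKm _).2 hw'⟩
      rwa [hBa] at this))
    (by
      rintro ⟨U, hU, hneg⟩
      apply htwo
      refine ⟨U.map K.subtype, ?_, ?_⟩
      · rw [Submodule.finrank_map_subtype_eq, hU]
      · rintro _ ⟨u, hu, rfl⟩ hu0
        refine ⟨(hKm _).1 u.2, ?_⟩
        have := hneg u hu (fun h0 => hu0 (by rw [h0, map_zero]))
        rwa [hBa] at this) with h1 | ⟨u, hu, h1, h2, h3⟩
  · left
    intro w hw hw0
    have := h1 ⟨w, (hKm _).2 hw⟩ (fun h0 => hw0 (congrArg Subtype.val h0))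
    rwa [hBa] at this
  · right
    refine ⟨u, hu, (hKm _).1 u.2, ?_, ?_, ?_⟩
    · rwa [hBa] at h1
    · intro w hw huw
      have := h2 ⟨w, (hKm _).2 hw⟩ huw
      rwa [hBa] at this
    · intro w hw huw hw0
      have := h3 ⟨w, (hKm _).2 hw⟩ huw (fun h0 => hw0 (congrArg Subtype.val h0))
      rwa [hBa] at this

/-- Nondegenerate relative critical points are isolated. -/
theorem relCrit_isolated {F φ : V → ℝ} (hF : ContDiff ℝ ∞ F) (hφ : ContDiff ℝ ∞ φ) {μ : ℝ} {x : V}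
    (h : RelCrit F φ μ x) (hφ0 : fderiv ℝ φ x ≠ 0)
    (hnd : ∀ w, fderiv ℝ φ x w = 0 →
      (∀ w', fderiv ℝ φ x w' = 0 → hess F x w w' + μ * hess φ x w w' = 0) → w = 0) :
    ∀ᶠ y in 𝓝[≠] x, ¬ ∃ ν, RelCrit F φ ν y := by
  obtain ⟨hx, hμ, hg⟩ := h
  have hF1 : Differentiable ℝ F := hF.differentiable (by norm_num)
  have hF2 : Differentiable ℝ (fderiv ℝ F) :=
    (hF.fderiv_right (m := 1) (by norm_cast)).differentiable (by norm_num)
  have hφ2 : Differentiable ℝ (fderiv ℝ φ) :=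
    (hφ.fderiv_right (m := 1) (by norm_cast)).differentiable (by norm_num)
  obtain ⟨G, hG⟩ : ∃ G : V × ℝ → ℝ × (V →L[ℝ] ℝ),
      G = fun z => (F z.1, fderiv ℝ F z.1 + z.2 • fderiv ℝ φ z.1) := ⟨_, rfl⟩
  have hfst : HasFDerivAt (Prod.fst : V × ℝ → V) (ContinuousLinearMap.fst ℝ V ℝ) (x, μ) :=
    hasFDerivAt_fst
  have hsnd : HasFDerivAt (Prod.snd : V × ℝ → ℝ) (ContinuousLinearMap.snd ℝ V ℝ) (x, μ) :=
    hasFDerivAt_snd
  have e1 : HasFDerivAt (fun z : V × ℝ => F z.1)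
      ((fderiv ℝ F x).comp (ContinuousLinearMap.fst ℝ V ℝ)) (x, μ) :=
    (hF1 x).hasFDerivAt.comp (x, μ) hfst
  have e2 : HasFDerivAt (fun z : V × ℝ => fderiv ℝ F z.1)
      ((fderiv ℝ (fderiv ℝ F) x).comp (ContinuousLinearMap.fst ℝ V ℝ)) (x, μ) :=
    (hF2 x).hasFDerivAt.comp (x, μ) hfst
  have e3 : HasFDerivAt (fun z : V × ℝ => fderiv ℝ φ z.1)
      ((fderiv ℝ (fderiv ℝ φ) x).comp (ContinuousLinearMap.fst ℝ V ℝ)) (x, μ) :=
    (hφ2 x).hasFDerivAt.comp (x, μ) hfst
  have e4 := e1.prodMk (e2.add (hsnd.smul e3))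
  obtain ⟨D, hD⟩ : ∃ D, D = ((fderiv ℝ F x).comp (ContinuousLinearMap.fst ℝ V ℝ)).prod
    ((fderiv ℝ (fderiv ℝ F) x).comp (ContinuousLinearMap.fst ℝ V ℝ) +
      (μ • (fderiv ℝ (fderiv ℝ φ) x).comp (ContinuousLinearMap.fst ℝ V ℝ) +
        (ContinuousLinearMap.snd ℝ V ℝ).smulRight (fderiv ℝ φ x))) := ⟨_, rfl⟩
  have e5 : HasFDerivAt G D (x, μ) := by
    rw [hG, hD]
    exact e4
  have hker : LinearMap.ker (D : V × ℝ →ₗ[ℝ] ℝ × (V →L[ℝ] ℝ)) = ⊥ := by
    rw [LinearMap.ker_eq_bot']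
    rintro ⟨w, m⟩ hw
    have hw' : D (w, m) = 0 := hw
    rw [hD] at hw'
    have h1 : fderiv ℝ F x w = 0 := congrArg Prod.fst hw'
    have h2 : fderiv ℝ (fderiv ℝ F) x w + (μ • fderiv ℝ (fderiv ℝ φ) x w + m • fderiv ℝ φ x) = 0 :=
      congrArg Prod.snd hw'
    have h3 : fderiv ℝ φ x w = 0 := by
      rw [hg w] at h1
      rcases mul_eq_zero.1 (neg_eq_zero.1 h1) with h4 | h4
      · exact absurd h4 hμ.ne'
      · exact h4
    have h4 : w = 0 := by
      refine hnd w h3 fun w' hw' => ?_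
      have h5 := congrArg (fun A : V →L[ℝ] ℝ => A w') h2
      have h6 : fderiv ℝ (fderiv ℝ F) x w w' + (μ * fderiv ℝ (fderiv ℝ φ) x w w' +
          m * fderiv ℝ φ x w') = 0 := h5
      rw [hw', mul_zero, add_zero] at h6
      exact h6
    rw [h4, map_zero, map_zero, smul_zero, zero_add, zero_add, smul_eq_zero] at h2
    rcases h2 with h5 | h5
    · rw [h4, h5]
      rfl
    · exact absurd h5 hφ0
  obtain ⟨C, -, hC⟩ := LinearMap.exists_antilipschitzWith _ hker
  have hne : ∀ᶠ z in 𝓝[≠] (x, μ), G z ≠ 0 := e5.eventually_ne ⟨C, hC⟩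
  obtain ⟨v, hv⟩ := exists_down hφ0
  -- the multiplier depends continuously on the point
  have hcF : Continuous fun y => fderiv ℝ F y v := hF2.continuous.clm_apply continuous_const
  have hcφ : Continuous fun y => fderiv ℝ φ y v := hφ2.continuous.clm_apply continuous_const
  have hm : ContinuousAt (fun y => -(fderiv ℝ F y v) / fderiv ℝ φ y v) x :=
    hcF.neg.continuousAt.div hcφ.continuousAt hv.ne
  have hmx : -(fderiv ℝ F x v) / fderiv ℝ φ x v = μ := by
    rw [hg v, neg_neg, mul_div_assoc, div_self hv.ne, mul_one]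
  have hz : Tendsto (fun y => (y, -(fderiv ℝ F y v) / fderiv ℝ φ y v)) (𝓝[≠] x)
      (𝓝[≠] (x, μ)) := by
    refine tendsto_nhdsWithin_iff.2 ⟨?_, ?_⟩
    · have h1 : ContinuousAt (fun y => (y, -(fderiv ℝ F y v) / fderiv ℝ φ y v)) x :=
        continuousAt_id.prodMk hm
      have h2 := h1.tendsto.mono_left (nhdsWithin_le_nhds (s := {x}ᶜ))
      rwa [hmx] at h2
    · filter_upwards [self_mem_nhdsWithin] with y hy h0
      exact hy (congrArg Prod.fst h0)
  have hvev : ∀ᶠ y in 𝓝[≠] x, fderiv ℝ φ y v ≠ 0 :=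
    nhdsWithin_le_nhds ((hcφ.continuousAt.eventually_lt_const hv).mono fun y hy => ne_of_lt hy)
  filter_upwards [hz.eventually hne, hvev] with y hy hyv
  rintro ⟨ν, hy0, hν, hgy⟩
  apply hy
  have h1 : -(fderiv ℝ F y v) / fderiv ℝ φ y v = ν := by
    rw [hgy v, neg_neg, mul_div_assoc, div_self hyv, mul_one]
  rw [h1, hG]
  show (F y, fderiv ℝ F y + ν • fderiv ℝ φ y) = 0
  refine Prod.ext hy0 ?_
  ext w
  show fderiv ℝ F y w + ν * fderiv ℝ φ y w = 0
  rw [hgy w]
  ring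

/-- The relative class from nondegeneracy and the absence of negative definite planes at the
relative critical points. -/
theorem pclass_of_nondeg {F φ : V → ℝ} (hF : ContDiff ℝ ∞ F) (hφ : ContDiff ℝ ∞ φ)
    (hb : Bornology.IsBounded {x | F x ≤ 0}) (hreg : ∀ x, F x = 0 → gradient F x ≠ 0) (c : ℝ)
    (hφr : ∀ x, F x ≤ 0 → c ≤ φ x → fderiv ℝ φ x ≠ 0)
    (hnd : ∀ x μ, RelCrit F φ μ x → c ≤ φ x → ∀ w, fderiv ℝ φ x w = 0 →
      (∀ w', fderiv ℝ φ x w' = 0 → hess F x w w' + μ * hess φ x w w' = 0) → w = 0)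
    (htwo : ∀ x μ, RelCrit F φ μ x → c ≤ φ x →
      ¬ ∃ U : Submodule ℝ V, Module.finrank ℝ U = 2 ∧ ∀ u ∈ U, u ≠ 0 →
        fderiv ℝ φ x u = 0 ∧ hess F x u u + μ * hess φ x u u < 0)
    (hc : ∀ x μ, RelCrit F φ μ x → φ x ≠ c) : ∃ P : Finset V, PClass F φ c P := by
  have hfd : ∀ x, F x = 0 → fderiv ℝ F x ≠ 0 := fun x hx h0 => hreg x hx (by
    rw [gradient, h0, map_zero])
  have hF2 : Continuous (fderiv ℝ F) := (hF.fderiv_right (m := 1) (by norm_cast)).continuous
  have hφ2 : Continuous (fderiv ℝ φ) := (hφ.fderiv_right (m := 1) (by norm_cast)).continuous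
  obtain ⟨Z, hZ⟩ : ∃ Z : Set V, Z = {x | F x = 0 ∧ c ≤ φ x ∧ ∃ μ, RelCrit F φ μ x} := ⟨_, rfl⟩
  have hfin : Z.Finite := by
    by_contra hinf
    have hcpt : IsCompact {x | F x ≤ 0} :=
      Metric.isCompact_of_isClosed_isBounded (isClosed_le hF.continuous continuous_const) hb
    obtain ⟨x, -, hacc⟩ := Set.Infinite.exists_accPt_of_subset_isCompact hinf hcpt fun y hy => by
      rw [hZ] at hy
      exact le_of_eq hy.1
    have hfr := accPt_iff_frequently_nhdsNE.1 hacc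
    have hcl : IsClosed {y | F y = 0 ∧ c ≤ φ y} :=
      (isClosed_eq hF.continuous continuous_const).inter (isClosed_le continuous_const hφ.continuous)
    have hx : F x = 0 ∧ c ≤ φ x := by
      have h1 : x ∈ closure Z := by
        rw [mem_closure_iff_frequently]
        exact (hfr.filter_mono nhdsWithin_le_nhds)
      have h2 : Z ⊆ {y | F y = 0 ∧ c ≤ φ y} := fun y hy => by
        rw [hZ] at hy
        exact ⟨hy.1, hy.2.1⟩
      exact closure_minimal h2 hcl h1
    have hφ0 := hφr x hx.1.le hx.2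
    rcases free_or_rel (φ := φ) hx.1 (hfd x hx.1) hφ0 with ⟨v, h1, h2⟩ | ⟨μ, hμ⟩
    · have e1 : ∀ᶠ y in 𝓝 x, fderiv ℝ F y v < 0 :=
        (hF2.clm_apply continuous_const).continuousAt.eventually_lt_const h1
      have e2 : ∀ᶠ y in 𝓝 x, fderiv ℝ φ y v < 0 :=
        (hφ2.clm_apply continuous_const).continuousAt.eventually_lt_const h2
      obtain ⟨y, hyZ, hy1, hy2⟩ := (hfr.and_eventually
        (nhdsWithin_le_nhds (e1.and e2))).exists
      rw [hZ] at hyZ
      obtain ⟨-, -, ν, -, hν, hgy⟩ := hyZ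
      rw [hgy v] at hy1
      have := mul_pos_of_neg_of_neg (neg_neg_of_pos hν) hy2
      linarith
    · have h1 := relCrit_isolated hF hφ hμ hφ0 (hnd x μ hμ hx.2)
      obtain ⟨y, hyZ, hy1⟩ := (hfr.and_eventually h1).exists
      rw [hZ] at hyZ
      exact hy1 hyZ.2.2
  refine ⟨hfin.toFinset, hφ, hb, good_of_regular hF (hb.subset fun x hx => le_of_eq hx) hfd,
    ?_, ?_, ?_, hφr⟩
  · intro p hp
    have hp' := hfin.mem_toFinset.1 hp
    rw [hZ] at hp'
    obtain ⟨h0, h1, μ, hμ⟩ := hp'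
    exact inwP_of_rel hF hφ hμ (hφr p h0.le h1) (hnd p μ hμ h1) (htwo p μ hμ h1)
  · intro p hp
    have hp' := hfin.mem_toFinset.1 hp
    rw [hZ] at hp'
    obtain ⟨h0, h1, μ, hμ⟩ := hp'
    exact lt_of_le_of_ne h1 (hc p μ hμ).symm
  · intro x hx hcx hxP
    rcases freeP_or (φ := φ) hF hx (hfd x hx) (hφr x hx.le hcx) with h | h
    · exact h
    · exfalso
      apply hxP
      rw [hfin.mem_toFinset, hZ]
      exact ⟨hx, hcx, h⟩

end Pool.Schoen
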