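import Pool.Agent.H.MP_6c077c_gt.Al.Main
import Pool.Agent.H.MP_6c077c_gt.Al.HomTop
import Pool.Agent.H.MP_6c077c_gt.Hx.SmoothG

/-! Concentric facing pairs: Alexander's theorem for good functions. -/

set_option autoImplicit false

namespace Pool.Schoen

open Filter Set
open scoped Topology RealInnerProductSpace ContDiff

variable {V : Type*} [NormedAddCommGroup V] [InnerProductSpace ℝ V] [FiniteDimensional ℝ V]

/-- PROOF. `good_smooth` gives a smooth regular `G` with `Hom h G`; `Hom.bdd`, `Hom.isConnected`, `Hom.liftS` give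
`Dom G`; `{0 ≤ h}` is connected (nonempty as `{h ≤ 0}` is bounded), so `{0 ≤ G}` is (`Hom.nonneg_conn`), so
`{0 < G}` is preconnected (collar: see the end of `ray_core` in Hx/Core.lean or `part_out` in Gd/PartOut.lean);
`alexander`. -/
theorem alexander_good (hV : Module.finrank ℝ V = 3) {h : V → ℝ} (hh : Good h)
    (hb : Bornology.IsBounded {x | h x ≤ 0}) (hc : IsConnected {x | h x ≤ 0})
    (hl : LiftS {x | h x ≤ 0}) (ho : IsPreconnected {x | 0 ≤ h x}) : IsBall h := by
  haveI : Nontrivial V := Module.nontrivial_of_finrank_pos (R := ℝ) (by omega)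
  obtain ⟨G, hG, hgG, hGreg⟩ := good_smooth h hh
  have hGD : Dom G := ⟨hG, hgG.bdd hb, hGreg, hgG.isConnected hb hc, hgG.liftS hb hl⟩
  have hne : {x | 0 ≤ h x}.Nonempty := by
    by_contra hcon
    rw [Set.not_nonempty_iff_eq_empty] at hcon
    have huniv : {x | h x ≤ 0} = univ := by
      refine eq_univ_of_forall fun x => ?_
      by_contra hx
      have hx' : 0 ≤ h x := (lt_of_not_ge hx).le
      have hx2 : x ∈ {x | 0 ≤ h x} := hx'
      rw [hcon] at hx2
      exact hx2
    rw [huniv] at hb
    exact NormedSpace.unbounded_univ ℝ V hb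
  have h1 : IsConnected {x | 0 ≤ G x} := hgG.nonneg_conn (by omega) ⟨hne, ho⟩
  exact hgG.trans (alexander hV G hGD (hgG.good_right.open_compl h1.isPreconnected))

end Pool.Schoen
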