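import Pool.Agent.H.MP_6c077c_gt.Ph.QDefs

/-! Concentric facing pairs: a ray which misses the body in a thin shell. -/

set_option autoImplicit false

namespace Pool.Schoen

open Filter Set
open scoped Topology RealInnerProductSpace ContDiff

variable {V : Type*} [NormedAddCommGroup V] [InnerProductSpace ℝ V] [FiniteDimensional ℝ V]

/-- PROOF. Choose `t` between `t₁` and `t₂`. `{0 ≤ K}` is connected (`hs.out`), contains `o` (as
`‖o - o‖ ^ 2 = 0 < t₁`, `hK.sub`) and points far away (`finrank ≥ 1`), so there is `y` with `0 ≤ K y`,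
`‖y - o‖ ^ 2 = t` (intermediate value of the continuous function `‖x - o‖ ^ 2`). If `K y = 0`, replace `y` by
`y - s • v` with a descent direction `v` (`hK.good.desc`, `Desc1`: `K (y - s • v) > 0` for small `s > 0`).
So there is `y` with `0 < K y`, `t₁ < ‖y - o‖ ^ 2 < t₂`; `z = ‖y - o‖⁻¹ • (y - o)`, continuity of
`r ↦ K (o + r • z)` at `r = ‖y - o‖`. -/
theorem shell_ray (hdim : 1 ≤ Module.finrank ℝ V) {K : V → ℝ} {o : V} {t₁ t₂ : ℝ} (h0 : 0 < t₁)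
    (h12 : t₁ < t₂) (hK : Shell K o t₁ t₂) (hs : PSides K) :
    ∃ (z : V) (s₁ s₂ : ℝ), ‖z‖ = 1 ∧ t₁ < s₁ ∧ s₁ < s₂ ∧ s₂ < t₂ ∧
      ∀ r : ℝ, 0 < r → s₁ ≤ r ^ 2 → r ^ 2 ≤ s₂ → 0 < K (o + r • z) := by
  have hgc : Continuous fun x : V => ‖x - o‖ ^ 2 := by fun_prop
  have hpos : ∀ x, ¬ (t₁ ≤ ‖x - o‖ ^ 2 ∧ ‖x - o‖ ^ 2 ≤ t₂) → 0 < K x := by
    intro x hx
    by_contra hcon
    exact hx (hK.sub x (not_lt.mp hcon))
  have ho : 0 < K o := hpos o (by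
    rintro ⟨h1, -⟩
    simp at h1
    linarith)
  -- a far point
  obtain ⟨z0, hz0⟩ : ∃ z0 : V, ‖z0‖ = 1 := by
    have : Nontrivial V := Module.nontrivial_of_finrank_pos (R := ℝ) (by omega)
    obtain ⟨w, hw⟩ := exists_ne (0 : V)
    refine ⟨‖w‖⁻¹ • w, ?_⟩
    rw [norm_smul, norm_inv, norm_norm]
    exact inv_mul_cancel₀ (norm_ne_zero_iff.mpr hw)
  have hg1 : ‖o + (t₂ + 1) • z0 - o‖ ^ 2 = (t₂ + 1) ^ 2 := by
    rw [add_sub_cancel_left, norm_smul, hz0, mul_one, Real.norm_eq_abs, sq_abs]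
  have h2pos : 0 < t₂ := h0.trans h12
  have hbig : t₂ < (t₂ + 1) ^ 2 := by nlinarith
  have hy1 : 0 < K (o + (t₂ + 1) • z0) := hpos _ (by
    rintro ⟨-, h1⟩
    rw [hg1] at h1
    linarith)
  obtain ⟨y, hyS, hyt⟩ := hs.out.isPreconnected.intermediate_value (a := o)
    (b := o + (t₂ + 1) • z0) ho.le hy1.le hgc.continuousOn
    (show (t₁ + t₂) / 2 ∈ Icc (‖o - o‖ ^ 2) (‖o + (t₂ + 1) • z0 - o‖ ^ 2) by
      rw [hg1, sub_self, norm_zero]
      constructor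
      · simp only [ne_eq, OfNat.ofNat_ne_zero, not_false_eq_true, zero_pow]
        linarith
      · linarith)
  have hyt' : ‖y - o‖ ^ 2 = (t₁ + t₂) / 2 := hyt
  obtain ⟨y', hy'K, hy'1, hy'2⟩ : ∃ y', 0 < K y' ∧ t₁ < ‖y' - o‖ ^ 2 ∧ ‖y' - o‖ ^ 2 < t₂ := by
    rcases (show 0 ≤ K y from hyS).lt_or_eq with h | h
    · exact ⟨y, h, by rw [hyt']; linarith, by rw [hyt']; linarith⟩
    · obtain ⟨v, hv⟩ := hK.good.desc y h.symm
      have h1 : ∀ᶠ x in 𝓝 y, t₁ < ‖x - o‖ ^ 2 ∧ ‖x - o‖ ^ 2 < t₂ :=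
        (hgc.continuousAt.eventually (lt_mem_nhds (by simp only [hyt']; linarith))).and
          (hgc.continuousAt.eventually (gt_mem_nhds (by simp only [hyt']; linarith)))
      obtain ⟨x, hx1, hx2⟩ := (hv.frequently.1.and_eventually h1).exists
      exact ⟨x, by rw [h]; exact hx1, hx2⟩
  have hr0 : 0 < ‖y' - o‖ := by
    rcases (norm_nonneg (y' - o)).lt_or_eq with h | h
    · exact h
    · rw [← h] at hy'1
      norm_num at hy'1
      linarith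
  obtain ⟨r0, hr0e⟩ : ∃ r0, r0 = ‖y' - o‖ := ⟨_, rfl⟩
  rw [← hr0e] at hr0 hy'1 hy'2
  have hz : o + r0 • (r0⁻¹ • (y' - o)) = y' := by
    rw [smul_smul, mul_inv_cancel₀ hr0.ne', one_smul]
    abel
  obtain ⟨z, hze⟩ : ∃ z, z = r0⁻¹ • (y' - o) := ⟨_, rfl⟩
  rw [← hze] at hz
  have hz1 : ‖z‖ = 1 := by
    rw [hze, norm_smul, norm_inv, Real.norm_eq_abs, abs_of_pos hr0, ← hr0e]
    exact inv_mul_cancel₀ hr0.ne'
  have hc : ContinuousAt (fun s : ℝ => K (o + Real.sqrt s • z)) (r0 ^ 2) :=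
    (hK.good.cont.comp (continuous_const.add
      (Real.continuous_sqrt.smul continuous_const))).continuousAt
  have hval : 0 < K (o + Real.sqrt (r0 ^ 2) • z) := by
    rw [Real.sqrt_sq hr0.le, hz]
    exact hy'K
  have hev : ∀ᶠ s in 𝓝 (r0 ^ 2), 0 < K (o + Real.sqrt s • z) ∧ t₁ < s ∧ s < t₂ :=
    (hc.eventually (lt_mem_nhds hval)).and ((lt_mem_nhds hy'1).and (gt_mem_nhds hy'2))
  obtain ⟨l, u, hlu, hsub⟩ := mem_nhds_iff_exists_Ioo_subset.mp hev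
  have hl := hlu.1
  have hu := hlu.2
  refine ⟨z, (l + r0 ^ 2) / 2, (r0 ^ 2 + u) / 2, hz1, ?_, by linarith, ?_, ?_⟩
  · exact (hsub (show (l + r0 ^ 2) / 2 ∈ Ioo l u from ⟨by linarith, by linarith⟩)).2.1
  · exact (hsub (show (r0 ^ 2 + u) / 2 ∈ Ioo l u from ⟨by linarith, by linarith⟩)).2.2
  · intro r hr h1 h2
    have h3 := (hsub (show r ^ 2 ∈ Ioo l u from ⟨by linarith, by linarith⟩)).1
    rwa [Real.sqrt_sq hr.le] at h3

end Pool.Schoen
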