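import Pool.Agent.H.MP_6c077c_gt.Ph.QDefs

/-! Concentric facing pairs: the polar-stereographic chart. -/

set_option autoImplicit false

namespace Pool.Schoen

open Filter Set
open scoped Topology RealInnerProductSpace ContDiff

variable {V : Type*} [NormedAddCommGroup V] [InnerProductSpace ℝ V] [FiniteDimensional ℝ V]

omit [InnerProductSpace ℝ V] [FiniteDimensional ℝ V] in
private theorem qc_pos (y : V) : 0 < ‖y‖ ^ 2 + 1 := by positivity

omit [FiniteDimensional ℝ V] in
private theorem qc_orth_add (z x y : V) : orth z (x + y) = orth z x + orth z y := by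
  unfold orth
  rw [inner_add_right, add_smul]
  abel

omit [FiniteDimensional ℝ V] in
private theorem qc_orth_smul (z : V) (c : ℝ) (x : V) : orth z (c • x) = c • orth z x := by
  unfold orth
  rw [real_inner_smul_right, smul_sub, smul_smul]

omit [FiniteDimensional ℝ V] in
private theorem qc_orth_self {z : V} (hz : ‖z‖ = 1) : orth z z = 0 := by
  unfold orth
  rw [real_inner_self_eq_norm_sq, hz, one_pow, one_smul, sub_self]

omit [FiniteDimensional ℝ V] in
private theorem qc_orth_orth {z : V} (hz : ‖z‖ = 1) (x : V) : orth z (orth z x) = orth z x := by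
  show orth z x - ⟪z, orth z x⟫ • z = orth z x
  rw [inner_orth hz x, zero_smul, sub_zero]

omit [FiniteDimensional ℝ V] in
/-- The inverse of the stereographic projection has norm one. -/
private theorem qc_sig {z : V} (hz : ‖z‖ = 1) {y : V} (hy : ⟪z, y⟫ = 0) :
    ‖(‖y‖ ^ 2 + 1)⁻¹ • ((2 : ℝ) • y + (‖y‖ ^ 2 - 1) • z)‖ = 1 := by
  have hp := qc_pos y
  have h1 : ‖(2 : ℝ) • y + (‖y‖ ^ 2 - 1) • z‖ ^ 2 = (‖y‖ ^ 2 + 1) ^ 2 := by
    rw [norm_add_sq_real, real_inner_smul_left, real_inner_smul_right, real_inner_comm, hy,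
      norm_smul, norm_smul, hz, mul_one, Real.norm_eq_abs, Real.norm_eq_abs, mul_pow, sq_abs,
      sq_abs]
    ring
  have h2 : ‖(2 : ℝ) • y + (‖y‖ ^ 2 - 1) • z‖ = ‖y‖ ^ 2 + 1 := by
    have := congrArg Real.sqrt h1
    rwa [Real.sqrt_sq (norm_nonneg _), Real.sqrt_sq hp.le] at this
  rw [norm_smul, h2, Real.norm_eq_abs, abs_of_pos (inv_pos.2 hp), inv_mul_cancel₀ hp.ne']

theorem polTh_norm {z : V} (hz : ‖z‖ = 1) (o x : V) : ‖polTh z o x - o‖ = Real.exp ⟪z, x⟫ := by
  unfold polTh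
  rw [add_sub_cancel_left, norm_smul, qc_sig hz (inner_orth hz x), mul_one, Real.norm_eq_abs,
    Real.abs_exp]

omit [FiniteDimensional ℝ V] in
private theorem qc_inner {z : V} (hz : ‖z‖ = 1) (o x : V) : ⟪z, polTh z o x - o⟫ =
    Real.exp ⟪z, x⟫ * ((‖orth z x‖ ^ 2 + 1)⁻¹ * (‖orth z x‖ ^ 2 - 1)) := by
  unfold polTh
  rw [add_sub_cancel_left, real_inner_smul_right, real_inner_smul_right, inner_add_right,
    real_inner_smul_right, real_inner_smul_right, inner_orth hz x, real_inner_self_eq_norm_sq, hz]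
  ring

private theorem qc_diff {z : V} (hz : ‖z‖ = 1) (o x : V) :
    ‖polTh z o x - o‖ - ⟪z, polTh z o x - o⟫ =
      2 * Real.exp ⟪z, x⟫ * (‖orth z x‖ ^ 2 + 1)⁻¹ := by
  have hp := qc_pos (orth z x)
  rw [polTh_norm hz, qc_inner hz]
  field_simp
  ring

omit [FiniteDimensional ℝ V] in
private theorem qc_orthTh {z : V} (hz : ‖z‖ = 1) (o x : V) : orth z (polTh z o x - o) =
    (2 * Real.exp ⟪z, x⟫ * (‖orth z x‖ ^ 2 + 1)⁻¹) • orth z x := by
  unfold polTh
  rw [add_sub_cancel_left, qc_orth_smul, qc_orth_smul, qc_orth_add, qc_orth_smul, qc_orth_smul,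
    qc_orth_self hz, smul_zero, add_zero, qc_orth_orth hz, smul_smul, smul_smul]
  congr 1
  ring

theorem polTh_contDiff (z o : V) : ContDiff ℝ ∞ (polTh z o) := by
  have ho : ContDiff ℝ ∞ (orth z : V → V) := (contDiff_orth z).of_le le_top
  have hi : ContDiff ℝ ∞ (fun x : V => ⟪z, x⟫) := contDiff_const.inner ℝ contDiff_id
  have hs : ContDiff ℝ ∞ (fun x : V => ‖orth z x‖ ^ 2) := ho.norm_sq ℝ
  unfold polTh
  refine contDiff_const.add ((Real.contDiff_exp.comp hi).smul
    (((hs.add contDiff_const).inv fun x => (qc_pos _).ne').smul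
      ((contDiff_const.smul ho).add ((hs.sub contDiff_const).smul contDiff_const))))

/-- The first formula: `‖Th - o‖ - ⟪z, Th - o⟫ = 2 e^t / (‖y‖ ^ 2 + 1)`, `y = orth z x`. -/
theorem polPs_polTh {z : V} (hz : ‖z‖ = 1) (o x : V) : polPs z o (polTh z o x) = x := by
  have hp := qc_pos (orth z x)
  have he := Real.exp_pos ⟪z, x⟫
  unfold polPs
  rw [qc_diff hz, qc_orthTh hz, polTh_norm hz, Real.log_exp, smul_smul, inv_mul_cancel₀, one_smul]
  · unfold orth
    rw [sub_add_cancel]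
  · positivity

omit [FiniteDimensional ℝ V] in
private theorem qc_ne {z o x : V} (hx : ⟪z, x - o⟫ < ‖x - o‖) : x - o ≠ 0 := by
  intro h
  rw [h, inner_zero_right, norm_zero] at hx
  exact lt_irrefl _ hx

theorem polTh_polPs {z : V} (hz : ‖z‖ = 1) {o x : V} (hx : ⟪z, x - o⟫ < ‖x - o‖) :
    polTh z o (polPs z o x) = x := by
  have hr : 0 < ‖x - o‖ := norm_pos_iff.2 (qc_ne hx)
  have hn := norm_sq_orth hz (x - o)
  have hxo : x - o = orth z (x - o) + ⟪z, x - o⟫ • z := by
    unfold orth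
    rw [sub_add_cancel]
  set r := ‖x - o‖ with hrd
  set c := ⟪z, x - o⟫ with hcd
  set y := orth z (x - o) with hyd
  have hrc : 0 < r - c := sub_pos.2 hx
  have hyz : ⟪z, y⟫ = 0 := inner_orth hz (x - o)
  have h1 : ⟪z, polPs z o x⟫ = Real.log r := by
    unfold polPs
    rw [inner_add_right, real_inner_smul_right, real_inner_smul_right, ← hyd, hyz,
      real_inner_self_eq_norm_sq, hz]
    ring
  have h2 : orth z (polPs z o x) = (r - c)⁻¹ • y := by
    unfold polPs
    rw [qc_orth_add, qc_orth_smul, qc_orth_smul, qc_orth_self hz, smul_zero, add_zero,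
      qc_orth_orth hz]
  have h3 : ‖(r - c)⁻¹ • y‖ ^ 2 = (r + c) / (r - c) := by
    rw [norm_smul, mul_pow, Real.norm_eq_abs, sq_abs]
    have h4 : ‖y‖ ^ 2 = (r + c) * (r - c) := by linarith
    rw [h4]
    field_simp
  unfold polTh
  rw [h1, h2, h3, Real.exp_log hr]
  have h5 : (r + c) / (r - c) + 1 = 2 * r / (r - c) := by
    field_simp
    ring
  have h6 : (r + c) / (r - c) - 1 = 2 * c / (r - c) := by
    field_simp
    ring
  rw [h5, h6, smul_add, smul_add, smul_smul, smul_smul, smul_smul, smul_smul, smul_smul]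
  have h7 : r * (2 * r / (r - c))⁻¹ * 2 * (r - c)⁻¹ = 1 := by
    field_simp
  have h8 : r * (2 * r / (r - c))⁻¹ * (2 * c / (r - c)) = c := by
    field_simp
  rw [h7, h8, one_smul, ← hxo, add_sub_cancel]

/-- The image is the complement of the closed ray. -/
theorem range_polTh {z : V} (hz : ‖z‖ = 1) (o : V) :
    range (polTh z o) = {x | ⟪z, x - o⟫ < ‖x - o‖} := by
  ext x
  constructor
  · rintro ⟨u, rfl⟩
    have hp := qc_pos (orth z u)
    have he := Real.exp_pos ⟪z, u⟫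
    have h := qc_diff hz o u
    have h' : 0 < 2 * Real.exp ⟪z, u⟫ * (‖orth z u‖ ^ 2 + 1)⁻¹ := by positivity
    show ⟪z, polTh z o u - o⟫ < ‖polTh z o u - o‖
    linarith
  · intro hx
    exact ⟨polPs z o x, polTh_polPs hz hx⟩

/-- Points outside of the image. -/
theorem not_range_polTh {z : V} (hz : ‖z‖ = 1) {o x : V} (hx : x ∉ range (polTh z o)) :
    ∃ r : ℝ, 0 ≤ r ∧ x = o + r • z := by
  rw [range_polTh hz] at hx
  have h1 : ‖x - o‖ ≤ ⟪z, x - o⟫ := not_lt.1 hx
  have h2 : ⟪z, x - o⟫ ≤ ‖x - o‖ := by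
    have := real_inner_le_norm z (x - o)
    rwa [hz, one_mul] at this
  have hn := norm_sq_orth hz (x - o)
  have h3 : ‖orth z (x - o)‖ = 0 := by
    have h4 : ‖x - o‖ = ⟪z, x - o⟫ := le_antisymm h1 h2
    rw [h4] at hn
    have h5 : ‖orth z (x - o)‖ ^ 2 = 0 := by linarith
    exact pow_eq_zero_iff (two_ne_zero) |>.1 h5
  refine ⟨⟪z, x - o⟫, (norm_nonneg _).trans h1, ?_⟩
  have h6 : orth z (x - o) = 0 := norm_eq_zero.1 h3
  unfold orth at h6
  rw [← sub_eq_zero.1 h6, add_sub_cancel]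

theorem isOpen_range_polTh {z : V} (hz : ‖z‖ = 1) (o : V) : IsOpen (range (polTh z o)) := by
  rw [range_polTh hz]
  exact isOpen_lt (by fun_prop) (by fun_prop)

theorem polPs_contDiffOn {z : V} (hz : ‖z‖ = 1) (o : V) :
    ContDiffOn ℝ ∞ (polPs z o) (range (polTh z o)) := by
  rw [range_polTh hz]
  have hsub : ContDiff ℝ ∞ (fun x : V => x - o) := contDiff_id.sub contDiff_const
  have hnorm : ContDiffOn ℝ ∞ (fun x : V => ‖x - o‖) {x | ⟪z, x - o⟫ < ‖x - o‖} :=
    hsub.contDiffOn.norm ℝ fun x hx => qc_ne hx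
  have hi : ContDiff ℝ ∞ (fun x : V => ⟪z, x - o⟫) := contDiff_const.inner ℝ hsub
  have ho : ContDiff ℝ ∞ (fun x : V => orth z (x - o)) :=
    ((contDiff_orth z).of_le le_top).comp hsub
  unfold polPs
  refine ContDiffOn.add ?_ ?_
  · refine ContDiffOn.smul ((hnorm.sub hi.contDiffOn).inv fun x hx => ?_) ho.contDiffOn
    exact (sub_pos.2 hx).ne'
  · exact (hnorm.log fun x hx => (norm_pos_iff.2 (qc_ne hx)).ne').smul contDiffOn_const

end Pool.Schoen
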