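import Pool.Agent.H.MP_6c077c_gt.Ph.QShell
import Pool.Agent.H.MP_6c077c_gt.Ph.QChart
import Pool.Agent.H.MP_6c077c_gt.Gd.BaseDef

/-! Concentric facing pairs: the outer side of a slice in the chart. -/

set_option autoImplicit false

namespace Pool.Schoen

open Filter Set
open scoped Topology RealInnerProductSpace ContDiff

variable {V : Type*} [NormedAddCommGroup V] [InnerProductSpace ℝ V] [FiniteDimensional ℝ V]

/-- The outside of a ball about the origin is preconnected. -/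
private theorem QSlice_far {E : Type*} [NormedAddCommGroup E] [NormedSpace ℝ E]
    (hrank : 1 < Module.rank ℝ E) {Y : ℝ} (hY : 0 ≤ Y) : IsPreconnected {y : E | Y < ‖y‖} := by
  have h1 := ((isPreconnected_sphere hrank (0 : E) 1).prod
    (isPreconnected_Ioi (a := Y))).image (fun p : E × ℝ => p.2 • p.1) (by fun_prop)
  have h2 : {y : E | Y < ‖y‖} =
      (fun p : E × ℝ => p.2 • p.1) '' (Metric.sphere (0 : E) 1 ×ˢ Ioi Y) := by
    ext x
    constructor
    · intro hx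
      have hx' : Y < ‖x‖ := hx
      have h4 : 0 < ‖x‖ := hY.trans_lt hx'
      refine ⟨(‖x‖⁻¹ • x, ‖x‖), ⟨?_, hx'⟩, ?_⟩
      · rw [mem_sphere_zero_iff_norm, norm_smul, norm_inv, norm_norm, inv_mul_cancel₀ h4.ne']
      · show ‖x‖ • ‖x‖⁻¹ • x = x
        rw [smul_smul, mul_inv_cancel₀ h4.ne', one_smul]
    · rintro ⟨⟨w, r⟩, ⟨hw, hr⟩, rfl⟩
      have hw' : ‖w‖ = 1 := mem_sphere_zero_iff_norm.1 hw
      have hr' : Y < r := hr
      show Y < ‖r • w‖
      rw [norm_smul, hw', mul_one, Real.norm_eq_abs]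
      exact hr'.trans_le (le_abs_self r)
  rw [h2]
  exact h1

omit [FiniteDimensional ℝ V] in
private theorem QSlice_orth {z : V} (hz : ‖z‖ = 1) (c : ℝ) (y : (ℝ ∙ z)ᗮ) :
    orth z ((y : V) + c • z) = (y : V) := by
  unfold orth
  rw [inner_hpr hz y c, add_sub_cancel_right]

omit [FiniteDimensional ℝ V] in
private theorem QSlice_inner {z : V} (hz : ‖z‖ = 1) (o : V) (c : ℝ) (y : (ℝ ∙ z)ᗮ) :
    ⟪z, polTh z o ((y : V) + c • z) - o⟫ =
      Real.exp c * ((‖y‖ ^ 2 + 1)⁻¹ * (‖y‖ ^ 2 - 1)) := by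
  unfold polTh
  rw [add_sub_cancel_left, QSlice_orth hz, inner_hpr hz, real_inner_smul_right,
    real_inner_smul_right, inner_add_right, real_inner_smul_right, real_inner_smul_right,
    BaseDef_inner, real_inner_self_eq_norm_sq, hz, Submodule.coe_norm]
  ring

private theorem QSlice_norm {z : V} (hz : ‖z‖ = 1) (o : V) (c : ℝ) (y : (ℝ ∙ z)ᗮ) :
    ‖polTh z o ((y : V) + c • z) - o‖ = Real.exp c := by
  rw [polTh_norm hz, inner_hpr hz]

private theorem QSlice_dist {z : V} (hz : ‖z‖ = 1) (o : V) (c : ℝ) (y : (ℝ ∙ z)ᗮ) :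
    ‖polTh z o ((y : V) + c • z) - (o + Real.exp c • z)‖ ^ 2 * (‖y‖ ^ 2 + 1) =
      4 * Real.exp c ^ 2 := by
  have h1 : polTh z o ((y : V) + c • z) - (o + Real.exp c • z) =
      (polTh z o ((y : V) + c • z) - o) - Real.exp c • z := by abel
  have hp : 0 < ‖y‖ ^ 2 + 1 := by positivity
  rw [h1, norm_sub_sq_real, QSlice_norm hz, real_inner_smul_right, real_inner_comm,
    QSlice_inner hz, norm_smul, hz, mul_one, Real.norm_eq_abs, sq_abs]
  field_simp
  ring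

private theorem QSlice_chart {z : V} (hz : ‖z‖ = 1) {o x : V} {c : ℝ}
    (hx : x ∈ range (polTh z o)) (hn : ‖x - o‖ = Real.exp c) :
    polTh z o (((hpr z (polPs z o x) : (ℝ ∙ z)ᗮ) : V) + c • z) = x := by
  obtain ⟨u, rfl⟩ := hx
  rw [polTh_norm hz] at hn
  have h1 : ⟪z, u⟫ = c := Real.exp_injective hn
  rw [polPs_polTh hz, ← h1, hpr_add hz]

/-- PROOF. `X = {x | 0 ≤ K x ∧ ‖x - o‖ ^ 2 = exp (2 c)}` is preconnected (`shell_level_out`) and compact. The
chart gives `j : (ℝ ∙ z)ᗮ → X` partially: `j y = polTh z o (y + c • z)`, a homeomorphism of `(ℝ ∙ z)ᗮ` onto the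
sphere minus the point `p = o + exp c • z`, and `0 < K p`. For large `Y` all `y` with `Y ≤ ‖y` have
`0 < K (j y)` (`j y → p`). Let `A_Y = {y | 0 ≤ slc _ z c y, ‖y‖ ≤ Y}`. It is preconnected: if it is the
disjoint union of closed `A₁`, `A₂`, then the sphere `‖y‖ = Y` (connected, `finrank (ℝ ∙ z)ᗮ = 3`) is in one of
them, say `A₁`, and `X` is the disjoint union of the closed sets `j(A₁) ∪ j{‖y‖ ≥ Y} ∪ {p}` and `j(A₂)`, so
`A₂` is empty. The set in question is the increasing union of the `A_Y` (`isPreconnected_sUnion` with a common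
point of norm `Y`). -/
theorem shell_slice_out (hdim : 3 ≤ Module.finrank ℝ V) {K : V → ℝ} {o z : V} {t₁ t₂ c : ℝ}
    (hz : ‖z‖ = 1) (h0 : 0 < t₁) (hK : Shell K o t₁ t₂) (hs : PSides K)
    (hray : ∀ r : ℝ, 0 ≤ r → 0 < K (o + r • z)) (h1 : t₁ < Real.exp (2 * c))
    (h2 : Real.exp (2 * c) < t₂) :
    IsPreconnected {y : (ℝ ∙ z)ᗮ | 0 ≤ slc (fun u => K (polTh z o u)) z c y} := by
  have hexp : Real.exp (2 * c) = Real.exp c ^ 2 := by rw [two_mul, Real.exp_add, sq]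
  have hec : 0 < Real.exp c := Real.exp_pos c
  have hX := shell_level_out (by omega : 2 ≤ Module.finrank ℝ V) h0 hK hs h1 h2
  rw [hexp] at hX
  have hz0 : z ≠ 0 := by
    intro h
    rw [h, norm_zero] at hz
    exact zero_ne_one hz
  have hrank : 1 < Module.rank ℝ (ℝ ∙ z)ᗮ := by
    have h3 : Module.finrank ℝ (ℝ ∙ z) + Module.finrank ℝ (ℝ ∙ z)ᗮ = Module.finrank ℝ V :=
      (ℝ ∙ z).finrank_add_finrank_orthogonal
    rw [finrank_span_singleton hz0] at h3
    rw [← Module.finrank_eq_rank]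
    have h4 : 1 < Module.finrank ℝ (ℝ ∙ z)ᗮ := by omega
    exact_mod_cast h4
  -- the point which is not in the chart
  have hpK : 0 < K (o + Real.exp c • z) := hray _ hec.le
  have hpn : ‖o + Real.exp c • z - o‖ = Real.exp c := by
    rw [add_sub_cancel_left, norm_smul, hz, mul_one, Real.norm_eq_abs, abs_of_pos hec]
  have hpr' : o + Real.exp c • z ∉ range (polTh z o) := by
    rw [range_polTh hz]
    intro h
    have h3 : ⟪z, o + Real.exp c • z - o⟫ < ‖o + Real.exp c • z - o‖ := h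
    rw [hpn, add_sub_cancel_left, real_inner_smul_right, real_inner_self_eq_norm_sq, hz] at h3
    linarith
  obtain ⟨δ, hδ, hnear⟩ := Metric.eventually_nhds_iff.1
    ((hK.good.cont.tendsto (o + Real.exp c • z)).eventually (eventually_gt_nhds hpK))
  obtain ⟨Y, hYd⟩ : ∃ Y : ℝ, Y = 2 * Real.exp c / δ + 1 := ⟨_, rfl⟩
  have hq0 : 0 < 2 * Real.exp c / δ := by positivity
  have hY0 : 0 ≤ Y := by rw [hYd]; linarith
  have hfar : ∀ y : (ℝ ∙ z)ᗮ, Y < ‖y‖ → 0 < K (polTh z o ((y : V) + c • z)) := by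
    intro y hy
    refine hnear ?_
    rw [dist_eq_norm]
    have h3 := QSlice_dist hz o c y
    have h4 : 2 * Real.exp c / δ < ‖y‖ := by linarith
    have h5 : 2 * Real.exp c < ‖y‖ * δ := (div_lt_iff₀ hδ).1 h4
    by_contra hcon
    have h6 := not_lt.1 hcon
    have h7 : δ ^ 2 ≤ ‖polTh z o ((y : V) + c • z) - (o + Real.exp c • z)‖ ^ 2 :=
      pow_le_pow_left₀ hδ.le h6 2
    have h8 : (2 * Real.exp c) ^ 2 < (‖y‖ * δ) ^ 2 :=
      pow_lt_pow_left₀ h5 (by positivity) two_ne_zero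
    have h9 : δ ^ 2 * (‖y‖ ^ 2 + 1) ≤ 4 * Real.exp c ^ 2 := by
      rw [← h3]
      exact mul_le_mul_of_nonneg_right h7 (by positivity)
    nlinarith [sq_nonneg δ]
  have hZ := QSlice_far hrank hY0
  have hZS : {y : (ℝ ∙ z)ᗮ | Y < ‖y‖} ⊆
      {y : (ℝ ∙ z)ᗮ | 0 ≤ slc (fun u => K (polTh z o u)) z c y} := fun y hy => (hfar y hy).le
  have hq : ContinuousOn (fun x => hpr z (polPs z o x)) (range (polTh z o)) :=
    (hprL z).continuous.comp_continuousOn (polPs_contDiffOn hz o).continuousOn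
  have key : ∀ u v : Set (ℝ ∙ z)ᗮ, IsOpen u → IsOpen v →
      {y : (ℝ ∙ z)ᗮ | 0 ≤ slc (fun u => K (polTh z o u)) z c y} ⊆ u ∪ v →
      {y : (ℝ ∙ z)ᗮ | 0 ≤ slc (fun u => K (polTh z o u)) z c y} ∩ (u ∩ v) = ∅ →
      {y : (ℝ ∙ z)ᗮ | Y < ‖y‖} ⊆ u →
      {y : (ℝ ∙ z)ᗮ | 0 ≤ slc (fun u => K (polTh z o u)) z c y} ⊆ u := by
    intro u v hu hv hS hd hZu
    obtain ⟨θ, hθ⟩ : ∃ θ : ℝ, θ = Real.exp c * ((Y ^ 2 + 1)⁻¹ * (Y ^ 2 - 1)) := ⟨_, rfl⟩
    have hYp : 0 < Y ^ 2 + 1 := by positivity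
    have hθc : θ < Real.exp c := by
      have h3 : (Y ^ 2 + 1)⁻¹ * (Y ^ 2 - 1) < 1 := by
        rw [inv_mul_lt_iff₀ hYp]
        linarith
      rw [hθ]
      nlinarith
    have hθy : ∀ y : (ℝ ∙ z)ᗮ, θ < ⟪z, polTh z o ((y : V) + c • z) - o⟫ → Y < ‖y‖ := by
      intro y hy
      rw [QSlice_inner hz, hθ] at hy
      have h3 := lt_of_mul_lt_mul_left hy hec.le
      have hyp : 0 < ‖y‖ ^ 2 + 1 := by positivity
      rw [inv_mul_lt_iff₀ hYp, ← mul_assoc, mul_comm (Y ^ 2 + 1), mul_assoc,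
        lt_inv_mul_iff₀ hyp] at h3
      have h4 : Y ^ 2 < ‖y‖ ^ 2 := by nlinarith
      exact lt_of_pow_lt_pow_left₀ 2 (norm_nonneg y) h4
    have hW : IsOpen {x : V | θ < ⟪z, x - o⟫} := isOpen_lt continuous_const (by fun_prop)
    have hU' : IsOpen ((range (polTh z o) ∩ (fun x => hpr z (polPs z o x)) ⁻¹' u) ∪
        {x : V | θ < ⟪z, x - o⟫}) :=
      (hq.isOpen_inter_preimage (isOpen_range_polTh hz o) hu).union hW
    have hV' : IsOpen (range (polTh z o) ∩ (fun x => hpr z (polPs z o x)) ⁻¹' v) :=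
      hq.isOpen_inter_preimage (isOpen_range_polTh hz o) hv
    have hpW : θ < ⟪z, o + Real.exp c • z - o⟫ := by
      rw [add_sub_cancel_left, real_inner_smul_right, real_inner_self_eq_norm_sq, hz]
      linarith
    have hrt : ∀ x : V, ‖x - o‖ ^ 2 = Real.exp c ^ 2 → ‖x - o‖ = Real.exp c := fun x hx =>
      (pow_left_inj₀ (norm_nonneg _) hec.le two_ne_zero).1 hx
    have hmem : ∀ x : V, 0 ≤ K x → ‖x - o‖ = Real.exp c → x ∈ range (polTh z o) →
        hpr z (polPs z o x) ∈ {y : (ℝ ∙ z)ᗮ | 0 ≤ slc (fun u => K (polTh z o u)) z c y} := by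
      intro x hx hn hr
      show 0 ≤ K (polTh z o (((hpr z (polPs z o x) : (ℝ ∙ z)ᗮ) : V) + c • z))
      rw [QSlice_chart hz hr hn]
      exact hx
    have hcov : {x | 0 ≤ K x ∧ ‖x - o‖ ^ 2 = Real.exp c ^ 2} ⊆
        ((range (polTh z o) ∩ (fun x => hpr z (polPs z o x)) ⁻¹' u) ∪
          {x : V | θ < ⟪z, x - o⟫}) ∪
        (range (polTh z o) ∩ (fun x => hpr z (polPs z o x)) ⁻¹' v) := by
      rintro x ⟨hx, hn⟩
      have hn' := hrt x hn
      by_cases hr : x ∈ range (polTh z o)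
      · rcases hS (hmem x hx hn' hr) with h3 | h3
        · exact Or.inl (Or.inl ⟨hr, h3⟩)
        · exact Or.inr ⟨hr, h3⟩
      · obtain ⟨r, hr0, rfl⟩ := not_range_polTh hz hr
        rw [add_sub_cancel_left, norm_smul, hz, mul_one, Real.norm_eq_abs, abs_of_nonneg hr0]
          at hn'
        rw [hn']
        exact Or.inl (Or.inr hpW)
    have hdis : {x | 0 ≤ K x ∧ ‖x - o‖ ^ 2 = Real.exp c ^ 2} ∩
        (((range (polTh z o) ∩ (fun x => hpr z (polPs z o x)) ⁻¹' u) ∪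
          {x : V | θ < ⟪z, x - o⟫}) ∩
        (range (polTh z o) ∩ (fun x => hpr z (polPs z o x)) ⁻¹' v)) = ∅ := by
      rw [eq_empty_iff_forall_notMem]
      rintro x ⟨⟨hx, hn⟩, h3, hr, hxv⟩
      have hn' := hrt x hn
      have hxS := hmem x hx hn' hr
      have hxu : hpr z (polPs z o x) ∈ u := by
        rcases h3 with h3 | h3
        · exact h3.2
        · refine hZu (hθy _ ?_)
          rw [QSlice_chart hz hr hn']
          exact h3
      have h4 : hpr z (polPs z o x) ∈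
          {y : (ℝ ∙ z)ᗮ | 0 ≤ slc (fun u => K (polTh z o u)) z c y} ∩ (u ∩ v) :=
        ⟨hxS, hxu, hxv⟩
      rw [hd] at h4
      exact h4
    have hsub : {x | 0 ≤ K x ∧ ‖x - o‖ ^ 2 = Real.exp c ^ 2} ⊆
        ((range (polTh z o) ∩ (fun x => hpr z (polPs z o x)) ⁻¹' u) ∪
          {x : V | θ < ⟪z, x - o⟫}) := by
      rcases isPreconnected_iff_subset_of_disjoint.1 hX _ _ hU' hV' hcov hdis with h3 | h3
      · exact h3
      · have h4 : o + Real.exp c • z ∈ {x | 0 ≤ K x ∧ ‖x - o‖ ^ 2 = Real.exp c ^ 2} :=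
          ⟨hpK.le, by rw [hpn]⟩
        exact absurd (h3 h4).1 hpr'
    intro y hy
    have hy' : 0 ≤ K (polTh z o ((y : V) + c • z)) := hy
    have h3 : polTh z o ((y : V) + c • z) ∈ {x | 0 ≤ K x ∧ ‖x - o‖ ^ 2 = Real.exp c ^ 2} :=
      ⟨hy', by rw [QSlice_norm hz]⟩
    rcases hsub h3 with h4 | h4
    · have h5 : hpr z (polPs z o (polTh z o ((y : V) + c • z))) ∈ u := h4.2
      rw [polPs_polTh hz, BaseDef_add] at h5
      exact h5
    · exact hZu (hθy y h4)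
  rw [isPreconnected_iff_subset_of_disjoint]
  intro u v hu hv hS hd
  have hZd : {y : (ℝ ∙ z)ᗮ | Y < ‖y‖} ∩ (u ∩ v) = ∅ := by
    rw [eq_empty_iff_forall_notMem]
    intro y hy
    have h3 : y ∈ {y : (ℝ ∙ z)ᗮ | 0 ≤ slc (fun u => K (polTh z o u)) z c y} ∩ (u ∩ v) :=
      ⟨hZS hy.1, hy.2⟩
    rw [hd] at h3
    exact h3
  rcases isPreconnected_iff_subset_of_disjoint.1 hZ u v hu hv (hZS.trans hS) hZd with h3 | h3
  · exact Or.inl (key u v hu hv hS hd h3)
  · refine Or.inr (key v u hv hu (by rwa [union_comm]) (by rwa [inter_comm v u]) h3)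

end Pool.Schoen
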