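import Pool.Agent.H.MP_6c077c_gt.Ph.QDefs

/-! Concentric facing pairs: truncation to a shell. -/

set_option autoImplicit false

namespace Pool.Schoen

open Filter Set
open scoped Topology RealInnerProductSpace ContDiff

variable {V : Type*} [NormedAddCommGroup V] [InnerProductSpace ℝ V] [FiniteDimensional ℝ V]

omit [FiniteDimensional ℝ V] in
private theorem QTrunc_up {f φ : V → ℝ} {a b : ℝ} (hf : PTwo f φ a b ∅ ∅) :
    PClass f φ a ∅ :=
  ⟨hf.sm, hf.bdd, hf.good, by simp, by simp, fun x hx hxa hxP => hf.freeP x hx hxa hxP,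
    fun x hx _ => hf.reg x hx⟩

omit [FiniteDimensional ℝ V] in
private theorem QTrunc_neg_ne {φ : V → ℝ} {x : V} (h : fderiv ℝ φ x ≠ 0) :
    fderiv ℝ (fun y => -φ y) x ≠ 0 := by
  have h1 : fderiv ℝ (fun y => -φ y) x = -fderiv ℝ φ x := fderiv_fun_neg
  rw [h1]
  exact neg_ne_zero.2 h

omit [FiniteDimensional ℝ V] in
private theorem QTrunc_dn {f φ : V → ℝ} {a b : ℝ} (hf : PTwo f φ a b ∅ ∅) :
    PClass f (fun x => -φ x) (-b) ∅ :=
  ⟨hf.sm.neg, hf.bdd, hf.good, by simp, by simp,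
    fun x hx hxb hxP => hf.freeQ x hx (by linarith) hxP,
    fun x hx _ => QTrunc_neg_ne (hf.reg x hx)⟩

/-- PROOF. `PClass f φ a ∅` gives `Hom f (ptrunc f φ 1 t₂)` (`ptrunc_hom`, `s = t₂`); this function is in
`PClass _ (-φ) (-t₁) ∅` (a zero of it with `φ ≤ t₁ < t₂` is germwise a zero of `f`, `ptrunc_low` with
`c = t₁`), so `ptrunc_hom` again with `s = -t₁`; `pshell f φ t₁ t₂ x = max (ptrunc f φ 1 t₂ x) (t₁ - φ x)`. -/
theorem ptwo_shell_hom {f φ : V → ℝ} {a b t₁ t₂ : ℝ} (h1 : a ≤ t₁) (h12 : t₁ < t₂) (h2 : t₂ ≤ b)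
    (hf : PTwo f φ a b ∅ ∅) : Hom f (pshell f φ t₁ t₂) := by
  have hA : Hom f (ptrunc f φ 1 t₂) :=
    ptrunc_hom (QTrunc_up hf) one_pos (h1.trans h12.le) (by simp)
  have hle : ∀ x, ptrunc f φ 1 t₂ x ≤ 0 → f x ≤ 0 := fun x hx => (le_max_left _ _).trans hx
  have hlow := ptrunc_low (κ := 1) hf.good.cont hf.sm one_pos h12
  have hB : PClass (ptrunc f φ 1 t₂) (fun x => -φ x) (-t₁) ∅ := by
    refine ⟨hf.sm.neg, hf.bdd.subset fun x hx => hle x hx, hA.good_right, by simp, by simp, ?_, ?_⟩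
    · intro x hx hxt _
      have h3 : φ x ≤ t₁ := by linarith
      obtain ⟨-, -, h5⟩ := hlow.2 x h3
      have h6 := h5 hx
      have h7 : f x = 0 := by rw [← h6.self_of_nhds, hx]
      exact (hf.freeQ x h7 (h3.trans (h12.le.trans h2)) (by simp)).congr h6.symm
        EventuallyEq.rfl
    · intro x hx _
      exact QTrunc_neg_ne (hf.reg x (hle x hx))
  have hC : Hom (ptrunc f φ 1 t₂) (ptrunc (ptrunc f φ 1 t₂) (fun x => -φ x) 1 (-t₁)) :=
    ptrunc_hom hB one_pos le_rfl (by simp)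
  have hE : ptrunc (ptrunc f φ 1 t₂) (fun x => -φ x) 1 (-t₁) = pshell f φ t₁ t₂ := by
    funext x
    unfold ptrunc pshell
    rw [one_mul, one_mul]
    congr 1
    ring
  rw [hE] at hC
  exact hA.trans hC

/-- PROOF. A point with `pshell f φ t₁ t₂ x ≤ 0` has `t₁ ≤ φ x ≤ t₂`, so by `PMid` `φ` is `‖· - o‖ ^ 2` near
`x`. `down`: `t₁ < φ x`: near `x` the function is `max (f) (φ - t₂)`; if `f x = 0` use the direction of
`hf.freeP` (`desc1_max`), if `f x < 0` then `φ x = t₂`, `exists_down` from `hf.reg`. `up`: the same with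
`hf.freeQ`. -/
theorem ptwo_shell {f φ F : V → ℝ} {o : V} {a b t₁ t₂ : ℝ} (h1 : a ≤ t₁) (h12 : t₁ < t₂)
    (h2 : t₂ ≤ b) (hf : PTwo f φ a b ∅ ∅) (hm : PMid f φ F (fun x => ‖x - o‖ ^ 2) a b) :
    Shell (pshell f φ t₁ t₂) o t₁ t₂ := by
  have hφc : Continuous φ := hf.sm.continuous
  have hK : ∀ x, pshell f φ t₁ t₂ x ≤ 0 →
      t₁ ≤ φ x ∧ φ x ≤ t₂ ∧ φ =ᶠ[𝓝 x] fun y => ‖y - o‖ ^ 2 := by
    intro x hx
    have h3 : max (max (f x) (φ x - t₂)) (t₁ - φ x) ≤ 0 := hx
    have h4 := (max_le_iff.1 h3).2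
    have h5 := (max_le_iff.1 (max_le_iff.1 h3).1).2
    have h6 : t₁ ≤ φ x := by linarith
    have h7 : φ x ≤ t₂ := by linarith
    obtain ⟨h8, h9⟩ := (hm.1 x).1 ⟨h1.trans h6, h7.trans h2⟩
    exact ⟨h6, h7, (hm.2 x h8 h9).1⟩
  refine ⟨(ptwo_shell_hom h1 h12 h2 hf).good_right, ?_, ?_, ?_⟩
  · intro x hx
    obtain ⟨h3, h4, h5⟩ := hK x hx
    rw [h5.self_of_nhds] at h3 h4
    exact ⟨h3, h4⟩
  · intro x hx hxt
    obtain ⟨-, -, h5⟩ := hK x hx.le
    have h6 : t₁ < φ x := by rw [h5.self_of_nhds]; exact hxt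
    have h7 : max (max (f x) (φ x - t₂)) (t₁ - φ x) = 0 := hx
    have h8 : max (f x) (φ x - t₂) = 0 := by
      rcases max_choice (max (f x) (φ x - t₂)) (t₁ - φ x) with h | h
      · rw [← h]
        exact h7
      · rw [h] at h7
        linarith
    have h9 : (ptrunc f φ 1 t₂) =ᶠ[𝓝 x] pshell f φ t₁ t₂ := by
      have c1 : Continuous fun y => t₁ - φ y := continuous_const.sub hφc
      have c2 : Continuous fun y => max (f y) (φ y - t₂) :=
        hf.good.cont.max (hφc.sub continuous_const)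
      have c3 : t₁ - φ x < max (f x) (φ x - t₂) := by
        rw [h8]
        linarith
      filter_upwards [c1.continuousAt.eventually_lt c2.continuousAt c3] with y hy
      unfold ptrunc pshell
      rw [one_mul]
      exact (max_eq_left hy.le).symm
    have h10 : ptrunc f φ 1 t₂ x = 0 := by rw [h9.self_of_nhds, hx]
    have h11 : PClass (ptrunc f φ 1 t₂) φ a ∅ :=
      ptrunc_class (QTrunc_up hf) one_pos (h1.trans h12.le) (by simp)
    exact (h11.free x h10 (h1.trans h6.le) (by simp)).congr h9 h5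
  · intro x hx hxt
    obtain ⟨-, -, h5⟩ := hK x hx.le
    have h6 : φ x < t₂ := by rw [h5.self_of_nhds]; exact hxt
    have h9 : (ptrunc f (fun y => -φ y) 1 (-t₁)) =ᶠ[𝓝 x] pshell f φ t₁ t₂ := by
      have c1 : Continuous fun y => φ y - t₂ := hφc.sub continuous_const
      have c2 : Continuous fun y => max (f y) (t₁ - φ y) :=
        hf.good.cont.max (continuous_const.sub hφc)
      have c3 : φ x - t₂ < max (f x) (t₁ - φ x) := by
        have h7 : max (max (f x) (φ x - t₂)) (t₁ - φ x) = 0 := hx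
        by_contra hcon
        rw [not_lt] at hcon
        have c4 : f x ≤ φ x - t₂ := (le_max_left _ _).trans hcon
        have c5 : t₁ - φ x ≤ φ x - t₂ := (le_max_right _ _).trans hcon
        rw [max_eq_right c4, max_eq_left c5] at h7
        linarith
      filter_upwards [c1.continuousAt.eventually_lt c2.continuousAt c3] with y hy
      unfold ptrunc pshell
      rw [one_mul, max_right_comm, max_eq_left hy.le]
      congr 1
      ring
    have h10 : ptrunc f (fun y => -φ y) 1 (-t₁) x = 0 := by rw [h9.self_of_nhds, hx]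
    have h11 : PClass (ptrunc f (fun y => -φ y) 1 (-t₁)) (fun y => -φ y) (-b) ∅ :=
      ptrunc_class (QTrunc_dn hf) one_pos (by linarith) (by simp)
    have h12 : (fun y => -φ y) =ᶠ[𝓝 x] fun y => -‖y - o‖ ^ 2 := h5.mono fun y hy => by
      show -φ y = -‖y - o‖ ^ 2
      rw [hy]
    exact (h11.free x h10 (by linarith) (by simp)).congr h9 h12

end Pool.Schoen
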