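import Pool.Agent.H.MP_6c077c_gt.Ph.QChart
import Pool.Agent.H.MP_6c077c_gt.Hx.OpenE

/-! Concentric facing pairs: the shell in the chart. -/

set_option autoImplicit false

namespace Pool.Schoen

open Filter Set
open scoped Topology RealInnerProductSpace ContDiff

variable {V : Type*} [NormedAddCommGroup V] [InnerProductSpace ℝ V] [FiniteDimensional ℝ V]

/-- PROOF. `G u = K (polTh z o u)`. `{K ≤ 0}` is compact and in the open range of the chart (otherwise
`not_range_polTh`, `hray`), so `{G ≤ 0}` is its image under the continuous `polPs z o`: bounded, connected, and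
`LiftS` (compose with the chart). Descent directions: if `Desc1 K (polTh z o u) w` then `Desc1 G u v` with
`v = D(polPs) w` (derivative at the image point), `D(polTh) v = w` (see Al/Diffeo `desc_comp_quot` and
`OpenEmb` in Hx/OpenE.lean). `‖polTh z o u - o‖ ^ 2 = exp (2 ⟪z, u⟫)` (`polTh_norm`), so `D(‖· - o‖ ^ 2) w < 0` iff
`⟪z, v⟫ < 0`. A zero `u` of `G` with `α ≤ ⟪z, u⟫` has `t₁ < ‖polTh z o u - o‖ ^ 2`: `hK.down`; with
`⟪z, u⟫ ≤ β`: `hK.up` (`FreeAt G (-z) u`). `mid`: a positive combination of the two directions is horizontal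
(`Desc1.add_dir`, `Desc1.smul_dir`). -/
theorem shell_two {K : V → ℝ} {o z : V} {t₁ t₂ α β : ℝ} (hz : ‖z‖ = 1) (h0 : 0 < t₁)
    (hK : Shell K o t₁ t₂) (hc : IsConnected {x | K x ≤ 0}) (hl : LiftS {x | K x ≤ 0})
    (hray : ∀ r : ℝ, 0 ≤ r → 0 < K (o + r • z)) (h1 : t₁ < Real.exp (2 * α)) (hαβ : α < β)
    (h2 : Real.exp (2 * β) < t₂) :
    Two (fun u => K (polTh z o u)) z α β ∅ ∅ ∧ IsConnected {u | K (polTh z o u) ≤ 0} ∧
      LiftS {u | K (polTh z o u) ≤ 0} := by
  have hE : OpenEmb (polTh z o) (polPs z o) :=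
    ⟨polTh_contDiff z o, polPs_polTh hz o, isOpen_range_polTh hz o, polPs_contDiffOn hz o⟩
  have hR : ∀ x, K x ≤ 0 → x ∈ range (polTh z o) := by
    intro x hx
    by_contra h
    obtain ⟨r, hr, rfl⟩ := not_range_polTh hz h
    exact absurd (hray r hr) (not_lt.2 hx)
  have hcP : ContinuousOn (polPs z o) {x | K x ≤ 0} := fun x hx =>
    (hE.contAt (hR x hx)).continuousWithinAt
  have hset : {u | K (polTh z o u) ≤ 0} = polPs z o '' {x | K x ≤ 0} := by
    ext u
    constructor
    · intro hu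
      exact ⟨polTh z o u, hu, polPs_polTh hz o u⟩
    · rintro ⟨x, hx, rfl⟩
      show K (polTh z o (polPs z o x)) ≤ 0
      rw [hE.right (hR x hx)]
      exact hx
  have hbd : Bornology.IsBounded {x | K x ≤ 0} := by
    refine (Metric.isBounded_closedBall (x := o) (r := t₂ + 1)).subset ?_
    intro x hx
    have h := (hK.sub x hx).2
    rw [Metric.mem_closedBall, dist_eq_norm]
    nlinarith [norm_nonneg (x - o), sq_nonneg (‖x - o‖ - 1)]
  have hcomp : IsCompact {x | K x ≤ 0} :=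
    Metric.isCompact_of_isClosed_isBounded (isClosed_le hK.good.cont continuous_const) hbd
  have hbdG : Bornology.IsBounded {u | K (polTh z o u) ≤ 0} := by
    rw [hset]
    exact (hcomp.image_of_continuousOn hcP).isBounded
  have hinv : ∀ u w, fderiv ℝ (polTh z o) u (fderiv ℝ (polPs z o) (polTh z o u) w) = w := by
    intro u w
    have h1 : HasFDerivAt (polPs z o) (fderiv ℝ (polPs z o) (polTh z o u)) (polTh z o u) :=
      (hE.strict ⟨u, rfl⟩).hasFDerivAt
    have h2 : HasFDerivAt (polTh z o) (fderiv ℝ (polTh z o) u) (polPs z o (polTh z o u)) := by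
      rw [hE.left]
      exact (hE.smooth.differentiable (by simp) u).hasFDerivAt
    have h3 := h2.comp (polTh z o u) h1
    have h4 : (fun x : V => x) =ᶠ[𝓝 (polTh z o u)] (polTh z o ∘ polPs z o) := by
      filter_upwards [hE.opn.mem_nhds ⟨u, rfl⟩] with x hx
      exact (hE.right hx).symm
    have h5 := (h3.congr_of_eventuallyEq h4).unique (hasFDerivAt_id _)
    have h6 := congrArg (fun A : V →L[ℝ] V => A w) h5
    simpa using h6
  have htr : ∀ u w, Desc1 K (polTh z o u) w →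
      Desc1 (fun u => K (polTh z o u)) u (fderiv ℝ (polPs z o) (polTh z o u) w) := by
    intro u w hw
    have h1 : HasStrictFDerivAt (polTh z o) (fderiv ℝ (polTh z o) u) u :=
      hE.smooth.contDiffAt.hasStrictFDerivAt (by simp)
    refine Desc1.comp_strict h1 ?_
    rw [hinv]
    exact hw
  have hsq : ∀ u, ‖polTh z o u - o‖ ^ 2 = Real.exp (2 * ⟪z, u⟫) := by
    intro u
    rw [polTh_norm hz, ← Real.exp_nat_mul]
    norm_num
  have hND : ∀ x : V, HasFDerivAt (fun y : V => ‖y - o‖ ^ 2)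
      (fderiv ℝ (fun y : V => ‖y - o‖ ^ 2) x) x := by
    intro x
    have h1 : ContDiff ℝ 1 (fun y : V => ‖y - o‖ ^ 2) :=
      (contDiff_norm_sq ℝ).comp (contDiff_id.sub contDiff_const)
    exact (h1.differentiable one_ne_zero x).hasFDerivAt
  have hN : ∀ u v, fderiv ℝ (fun y : V => ‖y - o‖ ^ 2) (polTh z o u) (fderiv ℝ (polTh z o) u v) =
      Real.exp (2 * ⟪z, u⟫) * (2 * ⟪z, v⟫) := by
    intro u v
    have h2 : HasFDerivAt (polTh z o) (fderiv ℝ (polTh z o) u) u :=
      (hE.smooth.differentiable (by simp) u).hasFDerivAt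
    have h3 := (hND (polTh z o u)).comp u h2
    have h4 : HasFDerivAt (fun u : V => Real.exp (2 * ⟪z, u⟫))
        (Real.exp (2 * ⟪z, u⟫) • ((2 : ℝ) • innerSL ℝ z)) u := by
      have h5 : HasFDerivAt (fun u : V => 2 * ⟪z, u⟫) ((2 : ℝ) • innerSL ℝ z) u :=
        ((innerSL ℝ z).hasFDerivAt (x := u)).const_mul 2
      exact h5.exp
    have h6 : ((fun y : V => ‖y - o‖ ^ 2) ∘ polTh z o) = fun u => Real.exp (2 * ⟪z, u⟫) := by
      funext y
      exact hsq y
    rw [h6] at h3
    have h7 := congrArg (fun A : V →L[ℝ] ℝ => A v) (h3.unique h4)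
    simpa using h7
  -- the two directions
  have hdn : ∀ u, K (polTh z o u) = 0 → α ≤ ⟪z, u⟫ →
      ∃ v, Desc1 (fun u => K (polTh z o u)) u v ∧ ⟪z, v⟫ < 0 := by
    intro u hu ha
    have h3 : t₁ < ‖polTh z o u - o‖ ^ 2 := by
      rw [hsq]
      exact h1.trans_le (Real.exp_le_exp.2 (by linarith))
    obtain ⟨w, hw, hw'⟩ := hK.down _ hu h3
    refine ⟨_, htr u w hw, ?_⟩
    have h4 := hN u (fderiv ℝ (polPs z o) (polTh z o u) w)
    rw [hinv] at h4
    rw [h4] at hw'
    have h5 := Real.exp_pos (2 * ⟪z, u⟫)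
    by_contra h6
    have h7 := mul_nonneg h5.le (mul_nonneg zero_le_two (not_lt.1 h6))
    linarith
  have hup : ∀ u, K (polTh z o u) = 0 → ⟪z, u⟫ ≤ β →
      ∃ v, Desc1 (fun u => K (polTh z o u)) u v ∧ 0 < ⟪z, v⟫ := by
    intro u hu hb
    have h3 : ‖polTh z o u - o‖ ^ 2 < t₂ := by
      rw [hsq]
      exact (Real.exp_le_exp.2 (by linarith)).trans_lt h2
    obtain ⟨w, hw, hw'⟩ := hK.up _ hu h3
    refine ⟨_, htr u w hw, ?_⟩
    have h4 := hN u (fderiv ℝ (polPs z o) (polTh z o u) w)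
    rw [hinv] at h4
    have h8 : fderiv ℝ (fun y : V => -‖y - o‖ ^ 2) (polTh z o u) =
        -fderiv ℝ (fun y : V => ‖y - o‖ ^ 2) (polTh z o u) := (hND _).neg.fderiv
    rw [h8, ContinuousLinearMap.neg_apply, h4] at hw'
    have h5 := Real.exp_pos (2 * ⟪z, u⟫)
    by_contra h6
    have h7 := mul_nonneg h5.le (mul_nonneg zero_le_two (neg_nonneg.2 (not_lt.1 h6)))
    linarith
  refine ⟨⟨hbdG, ⟨hK.good.cont.comp hE.smooth.continuous, ?_, ?_⟩, ?_, ?_, ?_, ?_, ?_, ?_, ?_⟩,
    ?_, ?_⟩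
  · exact hbdG.subset fun u hu => le_of_eq hu
  · intro u hu
    obtain ⟨w, hw⟩ := hK.good.desc _ hu
    exact ⟨_, htr u w hw⟩
  · intro p hp
    exact absurd hp (Finset.notMem_empty p)
  · intro p hp
    exact absurd hp (Finset.notMem_empty p)
  · intro p hp
    exact absurd hp (Finset.notMem_empty p)
  · intro p hp
    exact absurd hp (Finset.notMem_empty p)
  · intro u hu ha _
    exact hdn u hu ha
  · intro u hu hb _
    obtain ⟨v, hv, hv'⟩ := hup u hu hb
    refine ⟨v, hv, ?_⟩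
    rw [inner_neg_left]
    linarith
  · intro u hu ha hb
    obtain ⟨v, hv, hv'⟩ := hdn u hu ha
    obtain ⟨w, hw, hw'⟩ := hup u hu hb
    refine ⟨⟪z, w⟫ • v + (-⟪z, v⟫) • w, ?_, (hv.smul_dir hw').add_dir
      (hw.smul_dir (neg_pos.2 hv'))⟩
    rw [inner_add_right, inner_smul_right, inner_smul_right]
    ring
  · rw [hset]
    exact hc.image _ hcP
  · intro c hcc hc1
    have hm : MapsTo (polPs z o) {x | K x ≤ 0} {u | K (polTh z o u) ≤ 0} := by
      intro x hx
      show K (polTh z o (polPs z o x)) ≤ 0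
      rw [hE.right (hR x hx)]
      exact hx
    obtain ⟨v, hv, hv1⟩ := hl (fun x => c (polPs z o x)) (hcc.comp hcP hm)
      (fun x hx => hc1 _ (hm hx))
    refine ⟨fun u => v (polTh z o u), hv.comp hE.smooth.continuous.continuousOn fun u hu => hu,
      fun u hu => ?_⟩
    have h3 := hv1 (polTh z o u) hu
    rwa [polPs_polTh hz] at h3

end Pool.Schoen
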