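import Pool.Agent.H.MP_6c077c_gt.Ph.QTwo
import Pool.Agent.H.MP_6c077c_gt.Ph.QTrunc
import Pool.Agent.H.MP_6c077c_gt.Ph.QRay
import Pool.Agent.H.MP_6c077c_gt.Ph.QSlice
import Pool.Agent.H.MP_6c077c_gt.Ph.QTwoLin
import Pool.Agent.H.MP_6c077c_gt.Ph.QGood
import Pool.Agent.H.MP_6c077c_gt.Gd.Base

/-! Concentric facing pairs: the base and the theorem for the two-sided class. -/

set_option autoImplicit false

namespace Pool.Schoen

open Filter Set
open scoped Topology RealInnerProductSpace ContDiff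

variable {V : Type*} [NormedAddCommGroup V] [InnerProductSpace ℝ V] [FiniteDimensional ℝ V]

/-- A shell body which misses a ray is a ball. -/
theorem shell_ball (hdim : Module.finrank ℝ V = 4) {K : V → ℝ} {o z : V} {t₁ t₂ : ℝ}
    (hz : ‖z‖ = 1) (h0 : 0 < t₁) (h12 : t₁ < t₂) (hK : Shell K o t₁ t₂)
    (hb : Bornology.IsBounded {x | K x ≤ 0}) (hs : PSides K)
    (hray : ∀ r : ℝ, 0 ≤ r → 0 < K (o + r • z)) : IsBall K := by
  have hz0 : z ≠ 0 := by
    intro h
    rw [h, norm_zero] at hz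
    exact zero_ne_one hz
  have : Fact (Module.finrank ℝ V = 3 + 1) := ⟨hdim⟩
  have hdE : Module.finrank ℝ (ℝ ∙ z)ᗮ = 3 := Submodule.finrank_orthogonal_span_singleton hz0
  have ht2 : 0 < t₂ := h0.trans h12
  have hlog : Real.log t₁ < Real.log t₂ := Real.log_lt_log h0 h12
  obtain ⟨c, hc⟩ : ∃ c : ℝ, c = (Real.log t₁ + Real.log t₂) / 4 := ⟨_, rfl⟩
  obtain ⟨d, hd⟩ : ∃ d : ℝ, d = (Real.log t₂ - Real.log t₁) / 8 := ⟨_, rfl⟩
  have hd0 : 0 < d := by rw [hd]; linarith
  have e1 : ∀ s : ℝ, Real.log t₁ < 2 * s → t₁ < Real.exp (2 * s) := fun s hs => by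
    rw [← Real.exp_log h0]
    exact Real.exp_lt_exp.2 hs
  have e2 : ∀ s : ℝ, 2 * s < Real.log t₂ → Real.exp (2 * s) < t₂ := fun s hs => by
    rw [← Real.exp_log ht2]
    exact Real.exp_lt_exp.2 hs
  obtain ⟨hT, hGc, hGl⟩ := shell_two hz h0 hK hs.conn hs.lift hray (α := c - d) (β := c + d)
    (e1 _ (by rw [hc, hd]; linarith)) (by linarith) (e2 _ (by rw [hc, hd]; linarith))
  have h1 : c - d < c := by linarith
  have h2 : c < c + d := by linarith
  obtain ⟨hsc, hsl⟩ := base_slice hz h1 h2 hT hGc hGl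
  obtain ⟨hsg, hsb⟩ := slice_good hz h1 h2 hT
  have hso := shell_slice_out (by omega) hz h0 hK hs hray (e1 c (by rw [hc]; linarith))
    (e2 c (by rw [hc]; linarith))
  have hG : IsBall fun u => K (polTh z o u) :=
    base_ball hz h1 h2 hT (alexander_good hdE hsg hsb hsc hsl hso)
  refine isBall_open (polTh_contDiff z o) (polPs_polTh hz o) (isOpen_range_polTh hz o)
    (polPs_contDiffOn hz o) K hK.good hb (fun x hx => ?_) hG
  by_contra hxr
  obtain ⟨r, hr, rfl⟩ := not_range_polTh hz hxr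
  exact absurd hx (not_le.2 (hray r hr))

/-- The base of the two-sided induction for `‖x - o‖ ^ 2`. -/
theorem concentric_base (hdim : Module.finrank ℝ V = 4) {g χ F : V → ℝ} {o : V} {a b : ℝ}
    (ha : 0 < a) (hab : a < b) (hg : PTwo g χ a b ∅ ∅)
    (hm : PMid g χ F (fun x => ‖x - o‖ ^ 2) a b) (hs : PSides g) : IsBall g := by
  have hK := ptwo_shell le_rfl hab le_rfl hg hm
  have hgK := ptwo_shell_hom le_rfl hab le_rfl hg
  obtain ⟨z, s₁, s₂, hz, h1, h12, h2, hr⟩ := shell_ray (by omega) ha hab hK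
    (hs.hom (by omega) hgK)
  have hK' := ptwo_shell h1.le h12 h2.le hg hm
  have hgK' := ptwo_shell_hom h1.le h12 h2.le hg
  refine hgK'.trans ?_
  have hs1 : 0 < s₁ := ha.trans h1
  refine shell_ball hdim hz hs1 h12 hK' ?_ (hs.hom (by omega) hgK') fun r hr0 => ?_
  · exact hg.bdd.subset fun x hx => (le_max_left (g x) (χ x - s₂)).trans
      ((le_max_left _ _).trans hx)
  · by_contra hcon
    have hle := not_lt.1 hcon
    obtain ⟨h3, h4⟩ := hK'.sub _ hle
    have h5 : ‖o + r • z - o‖ ^ 2 = r ^ 2 := by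
      rw [add_sub_cancel_left, norm_smul, hz, mul_one, Real.norm_eq_abs, sq_abs]
    rw [h5] at h3 h4
    have hrp : 0 < r := by
      rcases hr0.eq_or_lt with h6 | h6
      · rw [← h6] at h3
        norm_num at h3
        linarith
      · exact h6
    have h6 := hr r hrp h3 h4
    have h7 : g (o + r • z) ≤ 0 := (le_max_left _ _).trans ((le_max_left _ _).trans hle)
    have h8 : χ (o + r • z) - s₂ ≤ 0 := (le_max_right _ _).trans ((le_max_left _ _).trans hle)
    have h9 : s₁ - χ (o + r • z) ≤ 0 := (le_max_right _ _).trans hle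
    have h10 : pshell g χ a b (o + r • z) ≤ 0 := by
      unfold pshell
      exact max_le (max_le h7 (by linarith)) (by linarith)
    exact absurd h10 (not_le.2 h6)

/-- The two-sided theorem for `‖x - o‖ ^ 2`. -/
theorem concentric_two (hdim : Module.finrank ℝ V = 4) {F : V → ℝ} {o : V} {a b : ℝ}
    (ha : 0 < a) (hab : a < b) {P Q : Finset V} (hF : PTwo F (fun x => ‖x - o‖ ^ 2) a b P Q)
    (hs : PSides F) : IsBall F :=
  ptwo_ind (by omega) hab.le hF hs fun _ _ hg hm hgs => concentric_base hdim ha hab hg hm hgs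

omit [FiniteDimensional ℝ V] in
/-- Free points form an open set. -/
theorem FreeP.near {f φ : V → ℝ} (hφ : ContDiff ℝ ∞ φ) {x : V} (h : FreeP f φ x) :
    ∀ᶠ y in 𝓝 x, FreeP f φ y := by
  obtain ⟨v, hv, h1⟩ := h
  have h2 : ∀ᶠ y in 𝓝 x, fderiv ℝ φ y v < 0 :=
    ((hφ.continuous_fderiv (by simp)).clm_apply continuous_const).continuousAt.eventually_lt_const h1
  have h3 : ∀ᶠ y in 𝓝 x, Desc1 f y v := Desc.near hv
  filter_upwards [h2, h3] with y h4 h5
  exact ⟨v, h5, h4⟩

/-- The two-sided class from the two one-sided classes at the same level. -/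
theorem ptwo_of_class {f φ : V → ℝ} {t : ℝ} {P Q : Finset V} (hP : PClass f φ t P)
    (hQ : PClass f (fun x => -φ x) (-t) Q) {ε : ℝ} (hε : 0 < ε) :
    ∃ a b : ℝ, t - ε < a ∧ a < t ∧ t < b ∧ PTwo f φ a b P Q := by
  have : ProperSpace V := FiniteDimensional.proper ℝ V
  have hK : IsCompact {x | f x ≤ 0} := Metric.isCompact_of_isClosed_isBounded
    (isClosed_le hP.good.cont continuous_const) hP.bdd
  -- near the level `t` everything is free in both directions
  obtain ⟨δ, hδ, hfree⟩ : ∃ δ : ℝ, 0 < δ ∧ ∀ x, f x = 0 → |φ x - t| < δ →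
      FreeP f φ x ∧ FreeP f (fun x => -φ x) x := by
    by_contra hcon
    push Not at hcon
    have hk : ∀ k : ℕ, (0 : ℝ) < 1 / (k + 1) := fun k => by positivity
    choose x hx hxt hbad using fun k : ℕ => hcon _ (hk k)
    obtain ⟨x₀, hx₀, ψ, hψ, hlim⟩ := hK.tendsto_subseq (x := x) fun k => (hx k).le
    have h1 : f x₀ = 0 := by
      refine tendsto_nhds_unique ((hP.good.cont.tendsto _).comp hlim) ?_
      have : (f ∘ x ∘ ψ) = fun _ => (0 : ℝ) := funext fun k => hx (ψ k)
      rw [this]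
      exact tendsto_const_nhds
    have h2 : φ x₀ = t := by
      have h3 : Tendsto (fun k => φ (x (ψ k)) - t) atTop (𝓝 (φ x₀ - t)) :=
        ((hP.sm.continuous.tendsto _).comp hlim).sub_const t
      have h4 : Tendsto (fun k => φ (x (ψ k)) - t) atTop (𝓝 0) := by
        refine squeeze_zero_norm (fun k => (hxt (ψ k)).le) ?_
        exact tendsto_one_div_add_atTop_nhds_zero_nat.comp hψ.tendsto_atTop
      linarith [tendsto_nhds_unique h3 h4]
    have h3 : FreeP f φ x₀ := hP.free x₀ h1 h2.ge fun h => absurd (hP.high x₀ h) (by rw [h2]; simp)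
    have h4 : FreeP f (fun x => -φ x) x₀ := hQ.free x₀ h1 (by rw [h2]) fun h =>
      absurd (hQ.high x₀ h) (by rw [h2]; simp)
    have h5 := hlim.eventually ((h3.near hP.sm).and (h4.near hQ.sm))
    obtain ⟨k, hk1, hk2⟩ := h5.exists
    exact hbad (ψ k) hk1 hk2
  obtain ⟨η, hη, hη1, hη2, hηP, hηQ⟩ : ∃ η : ℝ, 0 < η ∧ η < δ ∧ η < ε ∧
      (∀ p ∈ P, t + η < φ p) ∧ ∀ q ∈ Q, φ q < t - η := by
    have e1 : ∀ᶠ s : ℝ in 𝓝[>] 0, ∀ p ∈ P, t + s < φ p := by
      rw [Filter.eventually_all_finset]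
      intro p hp
      filter_upwards [Ioo_mem_nhdsGT (show 0 < φ p - t by linarith [hP.high p hp])] with s hs
      linarith [hs.2]
    have e2 : ∀ᶠ s : ℝ in 𝓝[>] 0, ∀ q ∈ Q, φ q < t - s := by
      rw [Filter.eventually_all_finset]
      intro q hq
      have h6 : -t < -φ q := hQ.high q hq
      filter_upwards [Ioo_mem_nhdsGT (show 0 < t - φ q by linarith)] with s hs
      linarith [hs.2]
    have e3 : ∀ᶠ s : ℝ in 𝓝[>] 0, s ∈ Ioo 0 (min δ ε) := Ioo_mem_nhdsGT (lt_min hδ hε)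
    obtain ⟨s, h6, h7, h8⟩ := (e1.and (e2.and e3)).exists
    exact ⟨s, h8.1, h8.2.trans_le (min_le_left _ _), h8.2.trans_le (min_le_right _ _), h6, h7⟩
  refine ⟨t - η, t + η, by linarith, by linarith, by linarith, hP.sm, hP.bdd, hP.good, hP.inw,
    hQ.inw, hηP, hηQ, ?_, ?_, ?_⟩
  · intro x hx hxa hxP
    rcases le_or_gt t (φ x) with h6 | h6
    · exact hP.free x hx h6 hxP
    · exact (hfree x hx (by rw [abs_lt]; constructor <;> linarith)).1
  · intro x hx hxb hxQ
    rcases le_or_gt (φ x) t with h6 | h6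
    · exact hQ.free x hx (by linarith) hxQ
    · exact (hfree x hx (by rw [abs_lt]; constructor <;> linarith)).2
  · intro x hx
    rcases le_or_gt t (φ x) with h6 | h6
    · exact hP.reg x hx h6
    · intro h7
      refine hQ.reg x hx (by linarith) ?_
      have h8 : fderiv ℝ (fun y => -φ y) x = -fderiv ℝ φ x := fderiv_fun_neg
      rw [h8, h7, neg_zero]

/-- The two-sided theorem for `‖x - o‖ ^ 2`, with the two one-sided classes. -/
theorem concentric_class (hdim : Module.finrank ℝ V = 4) {F : V → ℝ} {o : V} {t : ℝ}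
    (ht : 0 < t) {P Q : Finset V} (hP : PClass F (fun x => ‖x - o‖ ^ 2) t P)
    (hQ : PClass F (fun x => -‖x - o‖ ^ 2) (-t) Q) (hs : PSides F) : IsBall F := by
  obtain ⟨a, b, h1, h2, h3, h⟩ := ptwo_of_class hP hQ ht
  exact concentric_two hdim (by linarith) (h2.trans h3) h hs

end Pool.Schoen
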