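import Pool.Agent.H.MP_6c077c_gt.Al.Diffeo
import Pool.Agent.H.MP_6c077c_gt.Small
import Pool.Agent.H.MP_6c077c_gt.Ix.ModB

/-! Straightening a function near a regular point by a diffeomorphism of the space. -/

set_option autoImplicit false

namespace Pool.Schoen

open Filter Set
open scoped Topology RealInnerProductSpace ContDiff

variable {V : Type*} [NormedAddCommGroup V] [InnerProductSpace ℝ V]

/-- The remainder of the first order expansion. -/
private theorem Strt_rem {φ : V → ℝ} (hφ : ContDiff ℝ ∞ φ) (p : V) :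
    ∃ K r0 : ℝ, 0 < K ∧ 0 < r0 ∧ ∀ x, ‖x - p‖ < r0 →
      ‖fderiv ℝ φ x - fderiv ℝ φ p‖ ≤ K * ‖x - p‖ ∧
      |φ x - φ p - fderiv ℝ φ p (x - p)| ≤ K * ‖x - p‖ ^ 2 := by
  have hφ' : ContDiff ℝ ∞ (fderiv ℝ φ) := hφ.fderiv_right (by simp)
  have h1 : HasFDerivAt (fderiv ℝ φ) (fderiv ℝ (fderiv ℝ φ) p) p :=
    ((hφ'.differentiable (by simp)) p).hasFDerivAt
  obtain ⟨K, hK⟩ := h1.isBigO_sub.isBigOWith
  rw [Asymptotics.isBigOWith_iff] at hK
  obtain ⟨r0, hr0, hr⟩ := Metric.eventually_nhds_iff.1 hK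
  have key : ∀ x, ‖x - p‖ < r0 → ‖fderiv ℝ φ x - fderiv ℝ φ p‖ ≤ max K 1 * ‖x - p‖ := by
    intro x hx
    exact (hr (show dist x p < r0 by rwa [dist_eq_norm])).trans
      (mul_le_mul_of_nonneg_right (le_max_left _ _) (norm_nonneg _))
  refine ⟨max K 1, r0, by positivity, hr0, fun x hx => ⟨key x hx, ?_⟩⟩
  have h2 := (convex_closedBall p ‖x - p‖).norm_image_sub_le_of_norm_hasFDerivWithin_le'
    (f := φ) (f' := fun y => fderiv ℝ φ y) (φ := fderiv ℝ φ p) (C := max K 1 * ‖x - p‖)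
    (fun y _ => ((hφ.differentiable (by simp)) y).hasFDerivAt.hasFDerivWithinAt)
    (fun y hy => by
      rw [Metric.mem_closedBall, dist_eq_norm] at hy
      exact (key y (lt_of_le_of_lt hy hx)).trans (mul_le_mul_of_nonneg_left hy (by positivity)))
    (show p ∈ Metric.closedBall p ‖x - p‖ from Metric.mem_closedBall_self (norm_nonneg _))
    (show x ∈ Metric.closedBall p ‖x - p‖ by rw [Metric.mem_closedBall, dist_eq_norm])
  rw [Real.norm_eq_abs] at h2
  calc |φ x - φ p - fderiv ℝ φ p (x - p)| ≤ max K 1 * ‖x - p‖ * ‖x - p‖ := h2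
    _ = max K 1 * ‖x - p‖ ^ 2 := by ring

variable [FiniteDimensional ℝ V]

/-- There is a diffeomorphism `Φ` with support in a given ball about `p` and tangent to the identity at `p`
with `φ = φ p + m ⟪e, Φ - p⟫` near `p`, where `m e` is the gradient of `φ` at `p`. -/
theorem pstraighten {φ : V → ℝ} (hφ : ContDiff ℝ ∞ φ) {p e : V} (he : ‖e‖ = 1) {m : ℝ}
    (hm : 0 < m) (hg : ∀ v, fderiv ℝ φ p v = m * ⟪e, v⟫) {δ : ℝ} (hδ : 0 < δ) :
    ∃ (Φ Ψ : V → V) (ρ : ℝ), Dif Φ Ψ ∧ Φ p = p ∧ fderiv ℝ Φ p = ContinuousLinearMap.id ℝ V ∧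
      (∀ x, δ ≤ ‖x - p‖ → Φ x = x) ∧ (∀ x, ‖Φ x - x‖ ≤ δ) ∧ 0 < ρ ∧
      ∀ x, ‖x - p‖ < ρ → φ x = φ p + m * ⟪e, Φ x - p⟫ := by
  obtain ⟨C, hC, hcut⟩ := cutoff_exists V p
  obtain ⟨K, r0, hK, hr0, hrem⟩ := Strt_rem hφ p
  obtain ⟨r, hr, hrδ, hrr0, hrK⟩ : ∃ r : ℝ, 0 < r ∧ r ≤ δ ∧ r < r0 ∧ K * (1 + C) * r ≤ m / 2 := by
    refine ⟨min δ (min (r0 / 2) (m / (2 * (K * (1 + C))))), by positivity, min_le_left _ _, ?_, ?_⟩
    · exact lt_of_le_of_lt ((min_le_right _ _).trans (min_le_left _ _)) (by linarith)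
    · have h1 : min δ (min (r0 / 2) (m / (2 * (K * (1 + C))))) ≤ m / (2 * (K * (1 + C))) :=
        (min_le_right _ _).trans (min_le_right _ _)
      have h2 : 0 < K * (1 + C) := by positivity
      calc K * (1 + C) * min δ (min (r0 / 2) (m / (2 * (K * (1 + C)))))
          ≤ K * (1 + C) * (m / (2 * (K * (1 + C)))) := mul_le_mul_of_nonneg_left h1 h2.le
        _ = m / 2 := by field_simp
  obtain ⟨χ, hχ, hχ01, hχ1, hχ0, hχd⟩ := hcut r hr
  obtain ⟨h, hh⟩ : ∃ h : V → ℝ, h = fun x => φ x - φ p - fderiv ℝ φ p (x - p) := ⟨_, rfl⟩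
  have hhx : ∀ x, h x = φ x - φ p - fderiv ℝ φ p (x - p) := fun x => by rw [hh]
  have hhs : ContDiff ℝ ∞ h := by
    rw [hh]
    exact (hφ.sub contDiff_const).sub
      ((fderiv ℝ φ p).contDiff.comp (contDiff_id.sub contDiff_const))
  have hhd : ∀ x, HasFDerivAt h (fderiv ℝ φ x - fderiv ℝ φ p) x := by
    intro x
    rw [hh]
    have h1 : HasFDerivAt φ (fderiv ℝ φ x) x := ((hφ.differentiable (by simp)) x).hasFDerivAt
    have h2 : HasFDerivAt (fun y => fderiv ℝ φ p (y - p)) (fderiv ℝ φ p) x := by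
      have h3 := (fderiv ℝ φ p).hasFDerivAt.comp x ((hasFDerivAt_id x).sub_const p)
      rw [ContinuousLinearMap.comp_id] at h3
      exact h3
    exact (h1.sub_const _).sub h2
  obtain ⟨g, hgd⟩ : ∃ g : V → V, g = fun x => (m⁻¹ * (χ x * h x)) • e := ⟨_, rfl⟩
  have hgs : ContDiff ℝ ∞ g := by
    rw [hgd]
    exact (contDiff_const.mul (hχ.mul hhs)).smul contDiff_const
  have hχdiff : ∀ x, HasFDerivAt χ (fderiv ℝ χ x) x := fun x =>
    ((hχ.differentiable (by simp)) x).hasFDerivAt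
  have hgder : ∀ x, HasFDerivAt g ((m⁻¹ • (χ x • (fderiv ℝ φ x - fderiv ℝ φ p) +
      h x • fderiv ℝ χ x)).smulRight e) x := by
    intro x
    rw [hgd]
    exact (((hχdiff x).mul (hhd x)).const_mul m⁻¹).smul_const e
  have hmi : 0 < m⁻¹ := inv_pos.2 hm
  have hgn : ∀ x, ‖fderiv ℝ g x‖ ≤ 1 / 2 := by
    intro x
    rcases lt_or_ge (r / 2) ‖x - p‖ with h1 | h1
    · have h2 : g =ᶠ[𝓝 x] fun _ => 0 := by
        have hc : Continuous fun y : V => ‖y - p‖ := by fun_prop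
        filter_upwards [hc.continuousAt.eventually (lt_mem_nhds h1)] with y hy
        rw [hgd]
        simp only
        rw [hχ0 y hy.le]
        simp
      rw [h2.fderiv_eq]
      simp
    · rw [(hgder x).fderiv, ContinuousLinearMap.norm_smulRight_apply, he, mul_one, norm_smul,
        Real.norm_of_nonneg hmi.le]
      obtain ⟨h2, h3⟩ := hrem x (by linarith)
      have hxr : ‖x - p‖ ≤ r := by linarith
      have h4 : ‖χ x • (fderiv ℝ φ x - fderiv ℝ φ p)‖ ≤ K * r := by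
        rw [norm_smul, Real.norm_of_nonneg (hχ01 x).1]
        calc χ x * ‖fderiv ℝ φ x - fderiv ℝ φ p‖ ≤ 1 * (K * r) := by
              refine mul_le_mul (hχ01 x).2 (h2.trans ?_) (norm_nonneg _) zero_le_one
              exact mul_le_mul_of_nonneg_left hxr hK.le
          _ = K * r := one_mul _
      have h5 : ‖h x • fderiv ℝ χ x‖ ≤ K * C * r := by
        rw [norm_smul, Real.norm_eq_abs, hhx]
        have h6 : |φ x - φ p - fderiv ℝ φ p (x - p)| ≤ K * r ^ 2 := by
          refine h3.trans (mul_le_mul_of_nonneg_left ?_ hK.le)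
          exact pow_le_pow_left₀ (norm_nonneg _) hxr 2
        calc |φ x - φ p - fderiv ℝ φ p (x - p)| * ‖fderiv ℝ χ x‖ ≤ (K * r ^ 2) * (C / r) :=
              mul_le_mul h6 (hχd x) (norm_nonneg _) (by positivity)
          _ = K * C * r := by field_simp
      have h7 : ‖χ x • (fderiv ℝ φ x - fderiv ℝ φ p) + h x • fderiv ℝ χ x‖ ≤ m / 2 := by
        refine (norm_add_le _ _).trans ?_
        nlinarith
      calc m⁻¹ * ‖χ x • (fderiv ℝ φ x - fderiv ℝ φ p) + h x • fderiv ℝ χ x‖ ≤ m⁻¹ * (m / 2) :=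
            mul_le_mul_of_nonneg_left h7 hmi.le
        _ = 1 / 2 := by field_simp
  obtain ⟨Ψ, h1, h2, h3⟩ := small_diffeo g hgs hgn
  have hhp : h p = 0 := by rw [hhx, sub_self, sub_self, map_zero, sub_zero]
  refine ⟨fun x => x + g x, Ψ, r / 4, ⟨contDiff_id.add hgs, h1, h2, h3⟩, ?_, ?_, ?_, ?_,
    by positivity, ?_⟩
  · show p + g p = p
    rw [hgd]
    simp only
    rw [hhp]
    simp
  · have h4 : HasFDerivAt (fun x => x + g x) (ContinuousLinearMap.id ℝ V +
      ((m⁻¹ • (χ p • (fderiv ℝ φ p - fderiv ℝ φ p) + h p • fderiv ℝ χ p)).smulRight e)) p :=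
      (hasFDerivAt_id p).add (hgder p)
    rw [h4.fderiv, hhp, sub_self, smul_zero, zero_smul, add_zero, smul_zero]
    ext v
    simp
  · intro x hx
    show x + g x = x
    rw [hgd]
    simp only
    rw [hχ0 x (by linarith)]
    simp
  · intro x
    show ‖x + g x - x‖ ≤ δ
    rw [add_sub_cancel_left, hgd]
    simp only
    rcases lt_or_ge (r / 2) ‖x - p‖ with h4 | h4
    · rw [hχ0 x h4.le]
      simp [hδ.le]
    · rw [norm_smul, he, mul_one, Real.norm_eq_abs, abs_mul, abs_mul, abs_of_pos hmi,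
        abs_of_nonneg (hχ01 x).1, hhx]
      obtain ⟨-, h5⟩ := hrem x (by linarith)
      have h6 : |φ x - φ p - fderiv ℝ φ p (x - p)| ≤ K * r ^ 2 := by
        refine h5.trans (mul_le_mul_of_nonneg_left ?_ hK.le)
        exact pow_le_pow_left₀ (norm_nonneg _) (by linarith) 2
      have h7 : K * r ≤ m / 2 := by nlinarith [mul_pos (mul_pos hK hC) hr]
      calc m⁻¹ * (χ x * |φ x - φ p - fderiv ℝ φ p (x - p)|) ≤ m⁻¹ * (1 * (K * r ^ 2)) := by
            refine mul_le_mul_of_nonneg_left ?_ hmi.le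
            exact mul_le_mul (hχ01 x).2 h6 (abs_nonneg _) zero_le_one
        _ = m⁻¹ * (K * r) * r := by ring
        _ ≤ m⁻¹ * (m / 2) * r :=
            mul_le_mul_of_nonneg_right (mul_le_mul_of_nonneg_left h7 hmi.le) hr.le
        _ = r / 2 := by field_simp
        _ ≤ δ := by linarith
  · intro x hx
    show φ x = φ p + m * ⟪e, x + g x - p⟫
    have h4 : χ x = 1 := hχ1 x hx.le
    have h5 : x + g x - p = (x - p) + g x := by abel
    rw [h5, inner_add_right, hgd]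
    simp only
    rw [h4, one_mul, real_inner_smul_right, real_inner_self_eq_norm_sq, he, mul_add, ← hg, hhx]
    field_simp
    ring

omit [FiniteDimensional ℝ V] in
/-- A bijection which is the identity outside of a ball maps larger balls to themselves. -/
theorem Dif.mem_ball_iff {Φ Ψ : V → V} (h : Dif Φ Ψ) {p : V} {δ : ℝ}
    (hid : ∀ x, δ ≤ ‖x - p‖ → Φ x = x) (x : V) {r : ℝ} (hr : δ ≤ r) :
    ‖Φ x - p‖ < r ↔ ‖x - p‖ < r := by
  constructor
  · intro h1
    by_contra h2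
    push Not at h2
    rw [hid x (hr.trans h2)] at h1
    exact absurd h1 (not_lt.2 h2)
  · intro h1
    by_contra h2
    push Not at h2
    have h3 := hid (Φ x) (hr.trans h2)
    have h4 : Φ x = x := by
      rw [← h.left (Φ x), h3, h.left]
    rw [h4] at h2
    exact absurd h1 (not_lt.2 h2)

omit [FiniteDimensional ℝ V] in
/-- The second derivative of a composition at a critical point. -/
theorem hess_comp {G : V → ℝ} {Ψ : V → V} {p : V} (hG : ContDiffAt ℝ 2 G p)
    (hΨ : ContDiff ℝ ∞ Ψ) (hp : Ψ p = p) (hD : fderiv ℝ Ψ p = ContinuousLinearMap.id ℝ V)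
    (h0 : fderiv ℝ G p = 0) (w w' : V) :
    hess (fun x => G (Ψ x)) p w w' = hess G p w w' := by
  have hΨd : ∀ x, HasFDerivAt Ψ (fderiv ℝ Ψ x) x := fun x =>
    ((hΨ.differentiable (by simp)) x).hasFDerivAt
  have h1 : ∀ᶠ x in 𝓝 p, fderiv ℝ (fun y => G (Ψ y)) x =
      (fderiv ℝ G (Ψ x)).comp (fderiv ℝ Ψ x) := by
    have h2 : ∀ᶠ y in 𝓝 p, DifferentiableAt ℝ G y := by
      filter_upwards [hG.eventually (by simp)] with y hy
      exact hy.differentiableAt (by simp)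
    have h3 : Tendsto Ψ (𝓝 p) (𝓝 p) := by
      have := hΨ.continuous.tendsto p
      rwa [hp] at this
    filter_upwards [h3.eventually h2] with x hx
    exact (hx.hasFDerivAt.comp x (hΨd x)).fderiv
  have hG' : HasFDerivAt (fderiv ℝ G) (fderiv ℝ (fderiv ℝ G) p) p := by
    have h2 : ContDiffAt ℝ 1 (fderiv ℝ G) p := hG.fderiv_right (by norm_num)
    exact (h2.differentiableAt (by simp)).hasFDerivAt
  have h4 : HasFDerivAt (fun x => fderiv ℝ G (Ψ x))
      ((fderiv ℝ (fderiv ℝ G) p).comp (fderiv ℝ Ψ p)) p := by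
    refine HasFDerivAt.comp p ?_ (hΨd p)
    rw [hp]
    exact hG'
  have h5 : HasFDerivAt (fderiv ℝ Ψ) (fderiv ℝ (fderiv ℝ Ψ) p) p := by
    have h6 : ContDiff ℝ ∞ (fderiv ℝ Ψ) := hΨ.fderiv_right (by simp)
    exact ((h6.differentiable (by simp)) p).hasFDerivAt
  have h7 := h4.clm_comp h5
  unfold hess
  rw [EventuallyEq.fderiv_eq h1, h7.fderiv, hp, h0, hD]
  simp

omit [FiniteDimensional ℝ V] in
theorem hess_add_mul {f g : V → ℝ} {p : V} (hf : ContDiffAt ℝ 2 f p) (hg : ContDiffAt ℝ 2 g p)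
    (μ : ℝ) (w w' : V) :
    hess (fun x => f x + μ * g x) p w w' = hess f p w w' + μ * hess g p w w' := by
  have hf2 : ∀ᶠ y in 𝓝 p, DifferentiableAt ℝ f y := by
    filter_upwards [hf.eventually (by simp)] with y hy
    exact hy.differentiableAt (by simp)
  have hg2 : ∀ᶠ y in 𝓝 p, DifferentiableAt ℝ g y := by
    filter_upwards [hg.eventually (by simp)] with y hy
    exact hy.differentiableAt (by simp)
  have h1 : ∀ᶠ x in 𝓝 p, fderiv ℝ (fun x => f x + μ * g x) x = fderiv ℝ f x + μ • fderiv ℝ g x := by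
    filter_upwards [hf2, hg2] with x h2 h3
    exact (h2.hasFDerivAt.add (h3.hasFDerivAt.const_mul μ)).fderiv
  have hf' : HasFDerivAt (fderiv ℝ f) (fderiv ℝ (fderiv ℝ f) p) p := by
    have h2 : ContDiffAt ℝ 1 (fderiv ℝ f) p := hf.fderiv_right (by norm_num)
    exact (h2.differentiableAt (by simp)).hasFDerivAt
  have hg' : HasFDerivAt (fderiv ℝ g) (fderiv ℝ (fderiv ℝ g) p) p := by
    have h2 : ContDiffAt ℝ 1 (fderiv ℝ g) p := hg.fderiv_right (by norm_num)
    exact (h2.differentiableAt (by simp)).hasFDerivAt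
  have h3 : HasFDerivAt (fun x => fderiv ℝ f x + μ • fderiv ℝ g x)
      (fderiv ℝ (fderiv ℝ f) p + μ • fderiv ℝ (fderiv ℝ g) p) p := hf'.add (hg'.const_smul μ)
  unfold hess
  rw [EventuallyEq.fderiv_eq h1, h3.fderiv]
  simp

omit [FiniteDimensional ℝ V] in
/-- The relative second derivative becomes the second derivative after straightening. -/
theorem hess_straight {f φ : V → ℝ} {p e : V} {m : ℝ} (hφ : ContDiff ℝ ∞ φ)
    {Φ Ψ : V → V} (hd : Dif Φ Ψ) (hp : Φ p = p)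
    (hD : fderiv ℝ Φ p = ContinuousLinearMap.id ℝ V)
    (hs : ∀ᶠ x in 𝓝 p, φ x = φ p + m * ⟪e, Φ x - p⟫) (hf : ContDiffAt ℝ 2 f p) {μ : ℝ}
    (hgr : ∀ v, fderiv ℝ f p v = -(μ * fderiv ℝ φ p v)) :
    ContDiffAt ℝ 2 (fun x => f (Ψ x)) p ∧
      (∀ v, fderiv ℝ (fun x => f (Ψ x)) p v = fderiv ℝ f p v) ∧
      ∀ w w', hess (fun x => f (Ψ x)) p w w' = hess f p w w' + μ * hess φ p w w' := by
  have hp' : Ψ p = p := by
    have := hd.left p
    rwa [hp] at this
  have hD' : fderiv ℝ Ψ p = ContinuousLinearMap.id ℝ V := by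
    ext v
    have h1 := hd.fderiv_left p v
    rw [hp, hD] at h1
    exact h1
  have hφ2 : ContDiffAt ℝ 2 φ p := hφ.contDiffAt.of_le (by norm_cast)
  have hΨ2 : ContDiffAt ℝ 2 Ψ p := hd.smooth'.contDiffAt.of_le (by norm_cast)
  have hfΨ : ContDiffAt ℝ 2 (fun x => f (Ψ x)) p := by
    refine ContDiffAt.comp p (g := f) ?_ hΨ2
    rw [hp']
    exact hf
  refine ⟨hfΨ, fun v => ?_, fun w w' => ?_⟩
  · have h1 : HasFDerivAt f (fderiv ℝ f p) (Ψ p) := by
      rw [hp']
      exact (hf.differentiableAt (by simp)).hasFDerivAt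
    have h2 := (h1.comp p (hd.symm.has p)).fderiv
    rw [hD', ContinuousLinearMap.comp_id] at h2
    exact DFunLike.congr_fun h2 v
  · -- the auxiliary function with a critical point at `p`
    obtain ⟨G, hG⟩ : ∃ G : V → ℝ, G = fun x => f x + μ * φ x := ⟨_, rfl⟩
    have hG2 : ContDiffAt ℝ 2 G p := by
      rw [hG]
      exact hf.add (contDiffAt_const.mul hφ2)
    have hG0 : fderiv ℝ G p = 0 := by
      ext v
      have h1 : HasFDerivAt G (fderiv ℝ f p + μ • fderiv ℝ φ p) p := by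
        rw [hG]
        exact (hf.differentiableAt (by simp)).hasFDerivAt.add
          ((hφ2.differentiableAt (by simp)).hasFDerivAt.const_mul μ)
      rw [h1.fderiv, add_apply, smul_apply, hgr, smul_eq_mul]
      simp
    have h1 := hess_comp hG2 hd.smooth' hp' hD' hG0 w w'
    have h2 : hess G p w w' = hess f p w w' + μ * hess φ p w w' := by
      rw [hG]
      exact hess_add_mul hf hφ2 μ w w'
    rw [← h2, ← h1]
    -- the difference is affine near `p`
    have h3 : (fun x => f (Ψ x)) =ᶠ[𝓝 p] fun x => G (Ψ x) + (-μ) * (φ p + m * ⟪e, x - p⟫) := by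
      have h4 : Tendsto Ψ (𝓝 p) (𝓝 p) := by
        have := hd.symm.continuous.tendsto p
        rwa [hp'] at this
      filter_upwards [h4.eventually hs] with x hx
      rw [hd.right] at hx
      rw [← hx, hG]
      ring
    have hGΨ : ContDiffAt ℝ 2 (fun x => G (Ψ x)) p := by
      refine ContDiffAt.comp p (g := G) ?_ hΨ2
      rw [hp']
      exact hG2
    have haff : ContDiffAt ℝ 2 (fun x : V => φ p + m * ⟪e, x - p⟫) p := by
      have h5 : ContDiff ℝ 2 (fun x : V => φ p + m * ⟪e, x - p⟫) := by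
        exact contDiff_const.add (contDiff_const.mul
          (contDiff_const.inner ℝ (contDiff_id.sub contDiff_const)))
      exact h5.contDiffAt
    have h6 : hess (fun x : V => φ p + m * ⟪e, x - p⟫) p w w' = 0 := by
      have h7 : fderiv ℝ (fun x : V => φ p + m * ⟪e, x - p⟫) = fun _ => m • innerSL ℝ e := by
        funext x
        have h8 : HasFDerivAt (fun x : V => ⟪e, x - p⟫) (innerSL ℝ e) x := by
          have h9 := (innerSL ℝ e).hasFDerivAt.comp x ((hasFDerivAt_id x).sub_const p)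
          rw [ContinuousLinearMap.comp_id] at h9
          exact h9
        exact ((h8.const_mul m).const_add (φ p)).fderiv
      unfold hess
      rw [h7]
      simp
    have h9 : hess (fun x => f (Ψ x)) p w w' =
        hess (fun x => G (Ψ x) + (-μ) * (φ p + m * ⟪e, x - p⟫)) p w w' := by
      unfold hess
      rw [EventuallyEq.fderiv_eq h3.fderiv]
    rw [h9, hess_add_mul hGΨ haff, h6, mul_zero, add_zero]

omit [FiniteDimensional ℝ V] in
/-- A relative inward point of index at most one becomes an inward point after straightening. -/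
theorem inw_straight {f φ : V → ℝ} {p e : V} {m : ℝ} (hm : 0 < m)
    (hφ : ContDiff ℝ ∞ φ) (hg : ∀ v, fderiv ℝ φ p v = m * ⟪e, v⟫) {Φ Ψ : V → V} (hd : Dif Φ Ψ)
    (hp : Φ p = p) (hD : fderiv ℝ Φ p = ContinuousLinearMap.id ℝ V)
    (hs : ∀ᶠ x in 𝓝 p, φ x = φ p + m * ⟪e, Φ x - p⟫) (hf : ContDiffAt ℝ 2 f p) (hf0 : f p = 0)
    {μ : ℝ} (hμ : 0 < μ) (hgr : ∀ v, fderiv ℝ f p v = -(μ * fderiv ℝ φ p v))
    (hidx : (∀ w, fderiv ℝ φ p w = 0 → w ≠ 0 → 0 < hess f p w w + μ * hess φ p w w) ∨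
      ∃ u, ‖u‖ = 1 ∧ fderiv ℝ φ p u = 0 ∧ hess f p u u + μ * hess φ p u u < 0 ∧
        (∀ w, fderiv ℝ φ p w = 0 → ⟪u, w⟫ = 0 → hess f p u w + μ * hess φ p u w = 0) ∧
        ∀ w, fderiv ℝ φ p w = 0 → ⟪u, w⟫ = 0 → w ≠ 0 → 0 < hess f p w w + μ * hess φ p w w) :
    Inw (fun x => f (Ψ x)) e p := by
  obtain ⟨h1, h2, h3⟩ := hess_straight hφ hd hp hD hs hf hgr
  have hp' : Ψ p = p := by
    have := hd.left p
    rwa [hp] at this
  have hk : ∀ w, ⟪e, w⟫ = 0 → fderiv ℝ φ p w = 0 := fun w hw => by rw [hg, hw, mul_zero]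
  have hk' : ∀ w, fderiv ℝ φ p w = 0 → ⟪e, w⟫ = 0 := fun w hw => by
    rw [hg] at hw
    exact (mul_eq_zero.1 hw).resolve_left hm.ne'
  refine ⟨h1, ?_, ⟨μ * m, mul_pos hμ hm, fun v => ?_⟩, ?_⟩
  · show f (Ψ p) = 0
    rw [hp', hf0]
  · rw [h2, hgr, hg]
    ring
  · rcases hidx with h4 | ⟨u, hu1, hu2, hu3, hu4, hu5⟩
    · refine Or.inl fun w hw hw0 => ?_
      rw [h3]
      exact h4 w (hk w hw) hw0
    · refine Or.inr ⟨u, hu1, hk' u hu2, ?_, fun w hw huw => ?_, fun w hw huw hw0 => ?_⟩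
      · rw [h3]
        exact hu3
      · rw [h3]
        exact hu4 w (hk w hw) huw
      · rw [h3]
        exact hu5 w (hk w hw) huw hw0

end Pool.Schoen
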