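import Pool.Agent.H.MP_6c077c_gt.Ph.PBasic
import Pool.Agent.H.MP_6c077c_gt.Ph.Strt

/-! Outer normals: making `φ` linear near a relative inward point. -/

set_option autoImplicit false

namespace Pool.Schoen

open Filter Set
open scoped Topology RealInnerProductSpace ContDiff

variable {V : Type*} [NormedAddCommGroup V] [InnerProductSpace ℝ V]

/-- The derivative of a composition with a diffeomorphism. -/
theorem Dif.fderiv_comp {Φ Ψ : V → V} (h : Dif Φ Ψ) {φ : V → ℝ} (hφ : ContDiff ℝ ∞ φ) (x v : V) :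
    fderiv ℝ (fun y => φ (Φ y)) x v = fderiv ℝ φ (Φ x) (fderiv ℝ Φ x v) := by
  have h1 : HasFDerivAt φ (fderiv ℝ φ (Φ x)) (Φ x) :=
    ((hφ.differentiable (by simp)) (Φ x)).hasFDerivAt
  have h2 := (h1.comp x (h.has x)).fderiv
  have h3 : fderiv ℝ (fun y => φ (Φ y)) x = _ := h2
  rw [h3]
  rfl

theorem FreeP.comp_dif {Φ Ψ : V → V} (h : Dif Φ Ψ) {f φ : V → ℝ} (hφ : ContDiff ℝ ∞ φ) {x : V}
    (hf : FreeP f φ (Φ x)) : FreeP (fun y => f (Φ y)) (fun y => φ (Φ y)) x := by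
  obtain ⟨v, hv, hv'⟩ := hf
  refine ⟨_, h.desc1 hv, ?_⟩
  rw [h.fderiv_comp hφ, h.fderiv_right]
  exact hv'

theorem Dif.fderiv_ne {Φ Ψ : V → V} (h : Dif Φ Ψ) {φ : V → ℝ} (hφ : ContDiff ℝ ∞ φ) {x : V}
    (hx : fderiv ℝ φ (Φ x) ≠ 0) : fderiv ℝ (fun y => φ (Φ y)) x ≠ 0 := by
  intro h0
  apply hx
  ext v
  have h1 := h.fderiv_comp hφ x (fderiv ℝ Ψ (Φ x) v)
  rw [h.fderiv_right, h0] at h1
  rw [← h1]
  rfl

variable [FiniteDimensional ℝ V]

/-- After a diffeomorphism with support near `p` the function `φ` is linear near `p`, and nothing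
changes at and below the level `c` and near the other points of `P`. -/
theorem pstr {f φ : V → ℝ} {c : ℝ} {P : Finset V} (h : PClass f φ c P) {p : V} (hp : p ∈ P)
    {δ0 : ℝ} (hδ0 : 0 < δ0) :
    ∃ (Φ Ψ : V → V) (e : V) (κ r : ℝ), Dif Φ Ψ ∧ (∀ x, δ0 ≤ ‖x - p‖ → Φ x = x) ∧
      (∀ x, δ0 ≤ ‖x - p‖ → Ψ x = x) ∧ Φ p = p ∧ Ψ p = p ∧ (∀ q ∈ P, Φ q = q) ∧
      (∀ q ∈ P, Ψ q = q) ∧
      PClass (fun x => f (Ψ x)) (fun x => φ (Ψ x)) c P ∧ PLin (fun x => φ (Ψ x)) e p κ r ∧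
      PLow (fun x => f (Ψ x)) (fun x => φ (Ψ x)) f φ c ∧
      PLow f φ (fun x => f (Ψ x)) (fun x => φ (Ψ x)) c := by
  have hi := h.inw p hp
  -- the direction
  obtain ⟨m, e, hm, he, hg⟩ : ∃ (m : ℝ) (e : V), 0 < m ∧ ‖e‖ = 1 ∧
      ∀ v, fderiv ℝ φ p v = m * ⟪e, v⟫ := by
    obtain ⟨G, hG⟩ : ∃ G : V, G = gradient φ p := ⟨_, rfl⟩
    have h1 : ∀ v, fderiv ℝ φ p v = ⟪G, v⟫ := by
      intro v
      rw [hG, gradient, InnerProductSpace.toDual_symm_apply]
    have hG0 : 0 < ‖G‖ := by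
      refine norm_pos_iff.2 fun h2 => hi.ne ?_
      ext v
      rw [h1, h2, inner_zero_left]
      rfl
    refine ⟨‖G‖, ‖G‖⁻¹ • G, hG0, ?_, fun v => ?_⟩
    · rw [norm_smul, norm_inv, norm_norm, inv_mul_cancel₀ hG0.ne']
    · rw [h1, real_inner_smul_left, ← mul_assoc, mul_inv_cancel₀ hG0.ne', one_mul]
  -- the radius
  obtain ⟨δ, hδ, hδδ0, hδc, hδP⟩ : ∃ δ : ℝ, 0 < δ ∧ δ ≤ δ0 ∧ (∀ x, ‖x - p‖ ≤ δ → c < φ x) ∧
      ∀ q ∈ P, q ≠ p → δ < ‖q - p‖ := by
    have h1 : ∀ᶠ x in 𝓝 p, c < φ x :=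
      h.sm.continuous.continuousAt.eventually (lt_mem_nhds (h.high p hp))
    obtain ⟨δ1, hδ1, h2⟩ := Metric.eventually_nhds_iff.1 h1
    have h3 : ∀ Q : Finset V, ∃ d : ℝ, 0 < d ∧ ∀ q ∈ Q, q ≠ p → d < ‖q - p‖ := by
      intro Q
      classical
      induction Q using Finset.induction_on with
      | empty => exact ⟨1, one_pos, fun q hq => by simp at hq⟩
      | insert a Q _ ih =>
        obtain ⟨d, hd, hdQ⟩ := ih
        by_cases ha : a = p
        · refine ⟨d, hd, fun q hq hqp => ?_⟩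
          rcases Finset.mem_insert.1 hq with h4 | h4
          · exact absurd (h4.trans ha) hqp
          · exact hdQ q h4 hqp
        · have hpos : 0 < ‖a - p‖ := norm_pos_iff.2 (sub_ne_zero.2 ha)
          refine ⟨min d (‖a - p‖ / 2), lt_min hd (half_pos hpos), fun q hq hqp => ?_⟩
          rcases Finset.mem_insert.1 hq with h4 | h4
          · rw [h4]
            exact (min_le_right _ _).trans_lt (half_lt_self hpos)
          · exact (min_le_left _ _).trans_lt (hdQ q h4 hqp)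
    obtain ⟨d, hd, hdP⟩ := h3 P
    refine ⟨min δ0 (min (δ1 / 2) d), by positivity, min_le_left _ _, fun x hx => ?_,
      fun q hq hqp => ?_⟩
    · apply h2
      rw [dist_eq_norm]
      have h4 : min δ0 (min (δ1 / 2) d) ≤ δ1 / 2 := (min_le_right _ _).trans (min_le_left _ _)
      linarith
    · have h4 : min δ0 (min (δ1 / 2) d) ≤ d := (min_le_right _ _).trans (min_le_right _ _)
      exact h4.trans_lt (hdP q hq hqp)
  obtain ⟨Φ, Ψ, ρ, hd, hΦp, hΦD, hid, -, hρ, hlin⟩ := pstraighten h.sm he hm hg hδ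
  have hΨp : Ψ p = p := by
    have := hd.left p
    rwa [hΦp] at this
  have hid' : ∀ x, δ ≤ ‖x - p‖ → Ψ x = x := by
    intro x hx
    have := hd.left x
    rwa [hid x hx] at this
  -- near the points outside of the small ball
  have hev : ∀ x, δ < ‖x - p‖ → ∀ᶠ y in 𝓝 x, Ψ y = y := by
    intro x hx
    have hc : Continuous fun y : V => ‖y - p‖ := by fun_prop
    filter_upwards [hc.continuousAt.eventually (lt_mem_nhds hx)] with y hy
    exact hid' y hy.le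
  have hP : ∀ q ∈ P, Φ q = q ∧ Ψ q = q := by
    intro q hq
    by_cases hqp : q = p
    · rw [hqp]
      exact ⟨hΦp, hΨp⟩
    · have h1 := hδP q hq hqp
      exact ⟨hid q h1.le, hid' q h1.le⟩
  have hφlow : ∀ x, φ x ≤ c → δ < ‖x - p‖ := by
    intro x hx
    by_contra h1
    exact absurd (hδc x (not_lt.1 h1)) (not_lt.2 hx)
  have hφΨ : ∀ x, φ (Ψ x) ≤ c ↔ φ x ≤ c := by
    intro x
    constructor
    · intro hx
      have h1 := hφlow _ hx
      have h2 : Ψ x = x := by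
        have h3 := hid (Ψ x) h1.le
        rw [hd.right] at h3
        exact h3.symm
      rwa [h2] at hx
    · intro hx
      rwa [hid' x (hφlow x hx).le]
  -- linearity
  have hs : ∀ᶠ x in 𝓝 p, φ x = φ p + m * ⟪e, Φ x - p⟫ := by
    filter_upwards [Metric.ball_mem_nhds p hρ] with x hx
    apply hlin
    rw [← dist_eq_norm]
    exact Metric.mem_ball.1 hx
  obtain ⟨r, hr, hrlin⟩ : ∃ r : ℝ, 0 < r ∧ ∀ x, ‖x - p‖ < r → ‖Ψ x - p‖ < ρ := by
    have h1 : Tendsto Ψ (𝓝 p) (𝓝 p) := by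
      have := hd.symm.continuous.tendsto p
      rwa [hΨp] at this
    obtain ⟨r, hr, h2⟩ := Metric.eventually_nhds_iff.1 (h1.eventually (Metric.ball_mem_nhds p hρ))
    refine ⟨r, hr, fun x hx => ?_⟩
    have h3 := h2 (show dist x p < r by rwa [dist_eq_norm])
    rw [← dist_eq_norm]
    exact Metric.mem_ball.1 h3
  have hPL : PLin (fun x => φ (Ψ x)) e p m⁻¹ r := by
    refine ⟨he, inv_pos.2 hm, hr, fun x hx => ?_⟩
    show m⁻¹ * (φ (Ψ x) - φ (Ψ p)) = ⟪e, x - p⟫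
    rw [hΨp, hlin (Ψ x) (hrlin x hx), hd.right]
    field_simp
    ring
  refine ⟨Φ, Ψ, e, m⁻¹, r, hd, fun x hx => hid x (hδδ0.trans hx),
    fun x hx => hid' x (hδδ0.trans hx), hΦp, hΨp, fun q hq => (hP q hq).1,
    fun q hq => (hP q hq).2, ⟨?_, ?_, ?_, ?_, ?_, ?_, ?_⟩, hPL, ⟨hφΨ, fun x hx => ?_⟩,
    ⟨fun x => (hφΨ x).symm, fun x hx => ?_⟩⟩
  · exact h.sm.comp hd.smooth'
  · exact hd.symm.bounded h.bdd
  · exact h.good.comp_dif hd.symm
  · intro q hq
    by_cases hqp : q = p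
    · subst hqp
      obtain ⟨μ, hμ, hgr, hidx⟩ := hi.idx
      exact hPL.inwP (inw_straight hm h.sm hg hd hΦp hΦD hs hi.smooth hi.zero hμ hgr hidx)
    · have h1 := hev q (hδP q hq hqp)
      exact (h.inw q hq).congr (h1.mono fun y hy => (congrArg f hy).symm)
        (h1.mono fun y hy => (congrArg φ hy).symm)
  · intro q hq
    show c < φ (Ψ q)
    rw [(hP q hq).2]
    exact h.high q hq
  · intro x hx hcx hxP
    refine FreeP.comp_dif hd.symm h.sm (h.free (Ψ x) hx hcx fun hq => hxP ?_)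
    have h1 := (hP _ hq).1
    rw [hd.right] at h1
    rw [h1]
    exact hq
  · intro x hx hcx
    exact hd.symm.fderiv_ne h.sm (h.reg (Ψ x) hx hcx)
  · have h1 := hev x (hφlow x hx)
    refine ⟨h1.mono fun y hy => congrArg φ hy, fun hg1 => ?_,
      fun _ => h1.mono fun y hy => congrArg f hy⟩
    have hg2 : f (Ψ x) ≤ 0 := hg1
    rwa [show Ψ x = x from h1.self_of_nhds] at hg2
  · have h1 := hev x (hφlow x ((hφΨ x).1 hx))
    refine ⟨h1.mono fun y hy => (congrArg φ hy).symm, fun hg1 => ?_,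
      fun _ => h1.mono fun y hy => (congrArg f hy).symm⟩
    show f (Ψ x) ≤ 0
    rwa [show Ψ x = x from h1.self_of_nhds]

end Pool.Schoen
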