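import Pool.Agent.H.MP_6c077c_gt.Ph.PFinal
import Pool.Agent.H.MP_6c077c_gt.Lz.Main
import Pool.Agent.H.MP_6c077c_gt.Al.Main

/-! Outer normals: corollaries. -/

set_option autoImplicit false

namespace Pool.Schoen

open Filter Set
open scoped Topology RealInnerProductSpace ContDiff

variable {V : Type*} [NormedAddCommGroup V] [InnerProductSpace ℝ V] [FiniteDimensional ℝ V]

/-- At no point of the hypersurface there are two principal curvatures (for the outer normal,
positive for spheres) which are at most `-1 / R`. -/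
def CurvR (F : V → ℝ) (R : ℝ) : Prop :=
  ∀ x, F x = 0 → ¬ ∃ U : Submodule ℝ V, Module.finrank ℝ U = 2 ∧
    ∀ u ∈ U, ⟪gradient F x, u⟫ = 0 ∧ hess F x u u ≤ -(‖gradient F x‖ / R * ‖u‖ ^ 2)

private theorem Cor_grad (F : V → ℝ) (x w : V) : fderiv ℝ F x w = ⟪gradient F x, w⟫ := by
  rw [gradient, InnerProductSpace.toDual_symm_apply]

/-- The condition holds with a margin. -/
theorem CurvR.near {F : V → ℝ} (hF : ContDiff ℝ ∞ F) (hK : IsCompact {x | F x = 0}) {R : ℝ}
    (hR : 0 < R) (h : CurvR F R) : ∃ R' : ℝ, R < R' ∧ CurvR F R' := by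
  by_contra hcon
  push Not at hcon
  unfold CurvR at hcon
  push Not at hcon
  have hk : ∀ k : ℕ, R < R + 1 / ((k : ℝ) + 1) := fun k => by
    have : (0 : ℝ) < 1 / ((k : ℝ) + 1) := by positivity
    linarith
  choose x hx U hU2 hU using fun k : ℕ => hcon _ (hk k)
  choose u hu v hv hu1 hv1 huv using fun k => exists_pair (U k) (hU2 k)
  have hS : IsCompact ({x | F x = 0} ×ˢ
      (Metric.sphere (0 : V) 1 ×ˢ Metric.sphere (0 : V) 1)) :=
    hK.prod ((isCompact_sphere _ _).prod (isCompact_sphere _ _))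
  obtain ⟨⟨x₀, u₀, v₀⟩, ⟨hx₀, hu₀, hv₀⟩, ψ, hψ, hlim⟩ := hS.tendsto_subseq
    (x := fun k => (x k, u k, v k)) fun k =>
      ⟨hx k, by simpa using hu1 k, by simpa using hv1 k⟩
  have hxl : Tendsto (fun k => x (ψ k)) atTop (𝓝 x₀) :=
    (continuous_fst.tendsto _).comp hlim
  have hul : Tendsto (fun k => u (ψ k)) atTop (𝓝 u₀) :=
    ((continuous_fst.comp continuous_snd).tendsto _).comp hlim
  have hvl : Tendsto (fun k => v (ψ k)) atTop (𝓝 v₀) :=
    ((continuous_snd.comp continuous_snd).tendsto _).comp hlim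
  have hRl : Tendsto (fun k => R + 1 / ((ψ k : ℝ) + 1)) atTop (𝓝 R) := by
    have h1 := (tendsto_one_div_add_atTop_nhds_zero_nat (𝕜 := ℝ)).comp hψ.tendsto_atTop
    have h2 := h1.const_add R
    rw [add_zero] at h2
    exact h2
  have hgc : Continuous (gradient F) := by
    unfold gradient
    exact (InnerProductSpace.toDual ℝ V).symm.continuous.comp (hF.continuous_fderiv (by simp))
  have hgl : Tendsto (fun k => gradient F (x (ψ k))) atTop (𝓝 (gradient F x₀)) :=
    (hgc.tendsto _).comp hxl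
  have hu₀' : ‖u₀‖ = 1 := by simpa using hu₀
  have hv₀' : ‖v₀‖ = 1 := by simpa using hv₀
  have huv₀ : ⟪u₀, v₀⟫ = 0 := by
    refine tendsto_nhds_unique (hul.inner hvl) ?_
    simp only [huv]
    exact tendsto_const_nhds
  refine h x₀ hx₀ ⟨Submodule.span ℝ {u₀, v₀}, finrank_pair hu₀' hv₀' huv₀, ?_⟩
  intro w hw
  obtain ⟨α, β, rfl⟩ := Submodule.mem_span_pair.1 hw
  have hwl : Tendsto (fun k => α • u (ψ k) + β • v (ψ k)) atTop (𝓝 (α • u₀ + β • v₀)) :=
    (hul.const_smul α).add (hvl.const_smul β)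
  have hwU : ∀ k, α • u k + β • v k ∈ U k := fun k =>
    (U k).add_mem ((U k).smul_mem _ (hu k)) ((U k).smul_mem _ (hv k))
  constructor
  · refine tendsto_nhds_unique (hgl.inner hwl) ?_
    have h2 : ∀ k, ⟪gradient F (x (ψ k)), α • u (ψ k) + β • v (ψ k)⟫ = 0 := fun k =>
      (hU _ _ (hwU (ψ k))).1
    simp only [h2]
    exact tendsto_const_nhds
  · have h1 : Tendsto (fun k => hess F (x (ψ k)) (α • u (ψ k) + β • v (ψ k))
        (α • u (ψ k) + β • v (ψ k))) atTop (𝓝 (hess F x₀ (α • u₀ + β • v₀)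
          (α • u₀ + β • v₀))) :=
      ((hess_cont hF).tendsto _).comp (hxl.prodMk_nhds (hwl.prodMk_nhds hwl))
    have h2 : Tendsto (fun k => -(‖gradient F (x (ψ k))‖ / (R + 1 / ((ψ k : ℝ) + 1)) *
        ‖α • u (ψ k) + β • v (ψ k)‖ ^ 2)) atTop
        (𝓝 (-(‖gradient F x₀‖ / R * ‖α • u₀ + β • v₀‖ ^ 2))) :=
      ((hgl.norm.div hRl hR.ne').mul (hwl.norm.pow 2)).neg
    exact le_of_tendsto_of_tendsto' h1 h2 fun k => (hU _ _ (hwU (ψ k))).2

/-- **Curvature in a ball.** If the hypersurface lies in a ball of radius `R` and at each of its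
points at most one principal curvature is at most `-1 / R`, it bounds a ball. -/
theorem curvature_ball (hdim : 3 ≤ Module.finrank ℝ V) {F : V → ℝ} (hF : ContDiff ℝ ∞ F)
    (hb : Bornology.IsBounded {x | F x ≤ 0}) (hreg : ∀ x, F x = 0 → gradient F x ≠ 0)
    (hs : PSides F) {c : V} {R : ℝ} (hR : 0 < R) (hball : ∀ x, F x = 0 → ‖x - c‖ ≤ R)
    (h : CurvR F R) : IsBall F := by
  have : ProperSpace V := FiniteDimensional.proper ℝ V
  have hK : IsCompact {x | F x = 0} :=
    Metric.isCompact_of_isClosed_isBounded (isClosed_eq hF.continuous continuous_const)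
      (hb.subset fun x hx => le_of_eq hx)
  obtain ⟨R', hRR, hR'⟩ := h.near hF hK hR
  have hR0 : 0 < R' := hR.trans hRR
  -- a point off the hypersurface near the centre
  obtain ⟨o, ho, hoc⟩ : ∃ o : V, F o ≠ 0 ∧ ‖c - o‖ < R' - R := by
    by_contra hcon
    push Not at hcon
    have h1 : F =ᶠ[𝓝 c] fun _ => 0 := by
      filter_upwards [Metric.ball_mem_nhds c (show 0 < R' - R by linarith)] with y hy
      by_contra h2
      have h3 := hcon y h2
      rw [mem_ball_iff_norm'] at hy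
      linarith
    refine hreg c h1.self_of_nhds ?_
    unfold gradient
    rw [h1.fderiv_eq, fderiv_fun_const]
    simp
  refine outer_normals_ball hdim hF hb hreg hs ho fun x m hx hm hg => ?_
  rintro ⟨U, hU2, hU⟩
  refine hR' x hx ⟨U, hU2, fun u hu => ⟨(hU u hu).1, (hU u hu).2.trans ?_⟩⟩
  have h1 : ‖o - x‖ ≤ R' := by
    have h2 := norm_sub_le_norm_sub_add_norm_sub o c x
    have h3 := hball x hx
    rw [norm_sub_rev x c] at h3
    rw [norm_sub_rev o c] at h2
    linarith
  have h2 : ‖gradient F x‖ / R' ≤ m := by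
    rw [hg, norm_smul, Real.norm_of_nonneg hm.le, div_le_iff₀ hR0]
    exact mul_le_mul_of_nonneg_left h1 hm.le
  have h3 := mul_le_mul_of_nonneg_right h2 (sq_nonneg ‖u‖)
  linarith

/-- The same, for the sum of the two lowest principal curvatures. -/
theorem curvature_sum_ball (hdim : 3 ≤ Module.finrank ℝ V) {F : V → ℝ} (hF : ContDiff ℝ ∞ F)
    (hb : Bornology.IsBounded {x | F x ≤ 0}) (hreg : ∀ x, F x = 0 → gradient F x ≠ 0)
    (hs : PSides F) {c : V} {R : ℝ} (hR : 0 < R) (hball : ∀ x, F x = 0 → ‖x - c‖ ≤ R)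
    (h : ∀ x u v : V, F x = 0 → ‖u‖ = 1 → ‖v‖ = 1 → ⟪u, v⟫ = 0 → ⟪gradient F x, u⟫ = 0 →
      ⟪gradient F x, v⟫ = 0 → -(2 * ‖gradient F x‖ / R) < hess F x u u + hess F x v v) :
    IsBall F := by
  refine curvature_ball hdim hF hb hreg hs hR hball fun x hx => ?_
  rintro ⟨U, hU2, hU⟩
  obtain ⟨u, hu, v, hv, hu1, hv1, huv⟩ := exists_pair U hU2
  obtain ⟨h1, h2⟩ := hU u hu
  obtain ⟨h3, h4⟩ := hU v hv
  have h5 := h x u v hx hu1 hv1 huv h1 h3
  rw [hu1] at h2
  rw [hv1] at h4
  have h6 : 2 * ‖gradient F x‖ / R = ‖gradient F x‖ / R + ‖gradient F x‖ / R := by ring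
  rw [h6] at h5
  linarith

/-- A smooth convex function which is negative on a given compact convex set and positive outside
of a given neighbourhood. -/
theorem convex_func {K U : Set V} (hK : IsCompact K) (hKc : Convex ℝ K) (hne : K.Nonempty)
    (hU : IsOpen U) (hKU : K ⊆ U) :
    ∃ φ : V → ℝ, ContDiff ℝ ∞ φ ∧ ConvexOn ℝ univ φ ∧ (∀ x ∈ K, φ x < 0) ∧
      ∀ x, φ x ≤ 0 → x ∈ U := by
  have : ProperSpace V := FiniteDimensional.proper ℝ V
  obtain ⟨ρ, hρ⟩ : ∃ ρ : ℝ, ∀ x ∈ K, ‖x‖ < ρ := by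
    obtain ⟨ρ, hρ⟩ := hK.isBounded.exists_norm_le
    exact ⟨ρ + 1, fun x hx => (hρ x hx).trans_lt (by linarith)⟩
  obtain ⟨C, hC⟩ : ∃ C : Set V, C = (Uᶜ ∩ Metric.closedBall 0 ρ) ∪ Metric.sphere 0 ρ := ⟨_, rfl⟩
  have hCc : IsCompact C := by
    rw [hC]
    exact ((isCompact_closedBall 0 ρ).inter_left hU.isClosed_compl).union (isCompact_sphere 0 ρ)
  have hCK : ∀ y ∈ C, y ∉ K := by
    intro y hy hyK
    rw [hC] at hy
    rcases hy with hy | hy
    · exact hy.1 (hKU hyK)
    · rw [mem_sphere_zero_iff_norm] at hy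
      exact absurd (hρ y hyK) (by rw [hy]; exact lt_irrefl _)
  have hsep : ∀ y : V, ∃ (f : V →L[ℝ] ℝ) (u : ℝ), (∀ a ∈ K, f a < u) ∧ (y ∈ C → u < f y) := by
    intro y
    by_cases hy : y ∈ C
    · obtain ⟨f, u, h1, h2⟩ := geometric_hahn_banach_closed_point hKc hK.isClosed (hCK y hy)
      exact ⟨f, u, h1, fun _ => h2⟩
    · exact ⟨0, 1, fun _ _ => by simp, fun h => absurd h hy⟩
  choose f u hf hfy using hsep
  obtain ⟨t, ht, htC⟩ := hCc.elim_nhds_subcover (fun y => {x | u y < f y x})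
    fun y hy => (isOpen_lt continuous_const (f y).continuous).mem_nhds (hfy y hy)
  -- a uniform margin on `K`
  obtain ⟨ε, hε, hεK⟩ : ∃ ε : ℝ, 0 < ε ∧ ∀ y ∈ t, ∀ x ∈ K, f y x - u y ≤ -ε := by
    have h1 : ∀ y : V, ∃ ε : ℝ, 0 < ε ∧ ∀ x ∈ K, f y x - u y ≤ -ε := by
      intro y
      obtain ⟨x₀, hx₀, hmax⟩ := hK.exists_isMaxOn hne (f y).continuous.continuousOn
      refine ⟨u y - f y x₀, by linarith [hf y x₀ hx₀], fun x hx => ?_⟩
      have h2 : f y x ≤ f y x₀ := hmax hx
      linarith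
    choose ε hε hε' using h1
    rcases t.eq_empty_or_nonempty with h2 | h2
    · exact ⟨1, one_pos, fun y hy => absurd hy (by rw [h2]; exact Finset.notMem_empty y)⟩
    · refine ⟨t.inf' h2 ε, (Finset.lt_inf'_iff h2).2 fun y _ => hε y, fun y hy x hx => ?_⟩
      have h3 := Finset.inf'_le ε hy
      linarith [hε' y x hx]
  obtain ⟨N, hN0, hN⟩ : ∃ N : ℝ, 0 < N ∧ (t.card : ℝ) * Real.exp (-(N * ε)) < 1 := by
    have h1 : Tendsto (fun N : ℝ => (t.card : ℝ) * Real.exp (-(N * ε))) atTop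
        (𝓝 ((t.card : ℝ) * 0)) :=
      (Real.tendsto_exp_neg_atTop_nhds_zero.comp
        (tendsto_id.atTop_mul_const hε)).const_mul _
    rw [mul_zero] at h1
    obtain ⟨N, h2, h3⟩ := ((h1.eventually (eventually_lt_nhds one_pos)).and
      (eventually_gt_atTop 0)).exists
    exact ⟨N, h3, h2⟩
  obtain ⟨φ, hφ⟩ : ∃ φ : V → ℝ, φ = fun x => ∑ y ∈ t, Real.exp (N * (f y x - u y)) - 1 :=
    ⟨_, rfl⟩
  have hφv : ∀ x, φ x = ∑ y ∈ t, Real.exp (N * (f y x - u y)) - 1 := fun x => by rw [hφ]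
  have hsm : ContDiff ℝ ∞ φ := by
    rw [hφ]
    refine (ContDiff.sum fun y _ => ?_).sub contDiff_const
    exact (contDiff_const.mul ((f y).contDiff.sub contDiff_const)).exp
  have hcv : ConvexOn ℝ univ φ := by
    refine ⟨convex_univ, fun x _ z _ a b ha hb hab => ?_⟩
    have h1 : ∑ y ∈ t, Real.exp (N * (f y (a • x + b • z) - u y)) ≤
        ∑ y ∈ t, (a * Real.exp (N * (f y x - u y)) + b * Real.exp (N * (f y z - u y))) := by
      refine Finset.sum_le_sum fun y _ => ?_
      have h2 := convexOn_exp.2 (mem_univ (N * (f y x - u y))) (mem_univ (N * (f y z - u y)))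
        ha hb hab
      simp only [smul_eq_mul] at h2
      refine le_of_eq_of_le ?_ h2
      congr 1
      have h3 : u y = (a + b) * u y := by rw [hab, one_mul]
      rw [map_add, map_smul, map_smul, smul_eq_mul, smul_eq_mul]
      nlinarith
    rw [Finset.sum_add_distrib, ← Finset.mul_sum, ← Finset.mul_sum] at h1
    simp only [smul_eq_mul, hφv]
    nlinarith
  have hneg : ∀ x ∈ K, φ x < 0 := by
    intro x hx
    rw [hφv]
    have h1 : ∑ y ∈ t, Real.exp (N * (f y x - u y)) ≤ ∑ y ∈ t, Real.exp (-(N * ε)) := by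
      refine Finset.sum_le_sum fun y hy => Real.exp_le_exp.2 ?_
      have := hεK y hy x hx
      nlinarith
    rw [Finset.sum_const, nsmul_eq_mul] at h1
    linarith
  have hout : ∀ x, φ x ≤ 0 → x ∉ C := by
    intro x hx hxC
    obtain ⟨y, hy, hxy⟩ := mem_iUnion₂.1 (htC hxC)
    have h1 : u y < f y x := hxy
    have h2 : Real.exp (N * (f y x - u y)) ≤ ∑ y ∈ t, Real.exp (N * (f y x - u y)) :=
      Finset.single_le_sum (f := fun y => Real.exp (N * (f y x - u y)))
        (fun i _ => (Real.exp_pos _).le) hy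
    have h3 : 1 < Real.exp (N * (f y x - u y)) :=
      Real.one_lt_exp_iff.2 (mul_pos hN0 (by linarith))
    rw [hφv] at hx
    linarith
  refine ⟨φ, hsm, hcv, hneg, fun x hx => ?_⟩
  by_contra hxU
  have hxρ : ρ < ‖x‖ := by
    by_contra h1
    refine hout x hx ?_
    rw [hC]
    exact Or.inl ⟨hxU, by rw [mem_closedBall_zero_iff]; exact not_lt.1 h1⟩
  obtain ⟨k, hk⟩ := hne
  have hc : ContinuousOn (fun s : ℝ => ‖k + s • (x - k)‖) (Icc 0 1) := by fun_prop
  obtain ⟨s, hs, hsρ⟩ : ρ ∈ (fun s : ℝ => ‖k + s • (x - k)‖) '' Icc 0 1 := by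
    refine intermediate_value_Icc zero_le_one hc ⟨?_, ?_⟩
    · simpa using (hρ k hk).le
    · simpa using hxρ.le
  refine hout (k + s • (x - k)) ?_ ?_
  · have h1 := hcv.2 (mem_univ k) (mem_univ x) (show (0 : ℝ) ≤ 1 - s by linarith [hs.2]) hs.1
      (by ring)
    have h2 : (1 - s) • k + s • x = k + s • (x - k) := by
      rw [sub_smul, one_smul, smul_sub]
      abel
    rw [h2] at h1
    have h3 := hneg k hk
    have h4 : 0 ≤ 1 - s := by linarith [hs.2]
    have h5 := hs.1
    simp only [smul_eq_mul] at h1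
    nlinarith
  · rw [hC]
    exact Or.inr (by rw [mem_sphere_zero_iff_norm]; exact hsρ)

/-- **Convex guard.** Let `K` be a compact convex set inside. If at every point `x` with two negative
principal curvatures (or a limit of such points) the set `K` does not lie strictly on the outer side
of the tangent hyperplane, the hypersurface bounds a ball. -/
theorem convex_guard (hdim : Module.finrank ℝ V = 4) {F : V → ℝ} (hF : ContDiff ℝ ∞ F)
    (hb : Bornology.IsBounded {x | F x ≤ 0}) (hreg : ∀ x, F x = 0 → gradient F x ≠ 0)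
    (hs : PSides F) {K : Set V} (hK : IsCompact K) (hKc : Convex ℝ K) (hne : K.Nonempty)
    (hKF : ∀ x ∈ K, F x < 0)
    (h : ∀ x ∈ closure {x | F x = 0 ∧ TwoNeg F x}, ∃ k ∈ K, ⟪gradient F x, k - x⟫ ≤ 0) :
    IsBall F := by
  obtain ⟨φ, hsm, hcv, hneg, hin⟩ := convex_func hK hKc hne
    (isOpen_lt hF.continuous continuous_const) hKF
  obtain ⟨k₀, hk₀⟩ := hne
  have : Nontrivial V := Module.nontrivial_of_finrank_pos (R := ℝ) (by omega)
  obtain ⟨v, hv⟩ := exists_norm_eq V (zero_le_one (α := ℝ))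
  have hA : ∀ e : V, ‖e‖ = 1 → ∀ F : (ℝ ∙ e)ᗮ → ℝ, Dom F → IsPreconnected {x | 0 < F x} →
      IsBall F := by
    intro e he F hD hc
    have he0 : e ≠ 0 := by
      intro h0
      rw [h0, norm_zero] at he
      exact zero_ne_one he
    have : Fact (Module.finrank ℝ V = 3 + 1) := ⟨hdim⟩
    exact alexander (Submodule.finrank_orthogonal_span_singleton he0) F hD hc
  refine room_ball hdim hA hF hb hreg hs hsm hcv ⟨k₀, hneg k₀ hk₀⟩ ?_ hv ?_
  · intro x hx hφx μ hμ hg
    exfalso
    obtain ⟨k, hk, hkx⟩ := h x hx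
    have h1 : fderiv ℝ φ x (k - x) ≤ φ k - φ x := by
      have hd : HasFDerivAt φ (fderiv ℝ φ x) x :=
        ((hsm.differentiable (by simp)) x).hasFDerivAt
      have hl : HasDerivAt (fun s : ℝ => x + s • (k - x)) (k - x) 0 := by
        have h2 : HasDerivAt (fun s : ℝ => s • (k - x)) ((1 : ℝ) • (k - x)) 0 :=
          (hasDerivAt_id (0 : ℝ)).smul_const (k - x)
        rw [one_smul] at h2
        exact h2.const_add x
      have hd' : HasFDerivAt φ (fderiv ℝ φ x) (x + (0 : ℝ) • (k - x)) := by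
        rw [zero_smul, add_zero]
        exact hd
      have h3 := hd'.comp_hasDerivAt (0 : ℝ) hl
      have h4 := h3.tendsto_slope_zero_right
      refine le_of_tendsto h4 ?_
      filter_upwards [Ioo_mem_nhdsGT (one_pos (α := ℝ))] with s hs
      have h5 := hcv.2 (mem_univ x) (mem_univ k) (show (0 : ℝ) ≤ 1 - s by linarith [hs.2])
        hs.1.le (by ring)
      have h6 : (1 - s) • x + s • k = x + s • (k - x) := by
        rw [sub_smul, one_smul, smul_sub]
        abel
      rw [h6] at h5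
      simp only [smul_eq_mul, Function.comp_apply, zero_add, zero_smul, add_zero] at h5 ⊢
      rw [inv_mul_le_iff₀ hs.1]
      nlinarith
    have h2 := hneg k hk
    have h3 := hg (k - x)
    rw [Cor_grad F x (k - x)] at h3
    nlinarith
  · intro x r t hr hrt hx hφx hxt hφt
    have hφr : φ (x + r • v) ≤ 0 := by
      rcases eq_or_lt_of_le (hr.trans hrt) with ht | ht
      · have h0 : r = 0 := by linarith
        rw [h0, zero_smul, add_zero]
        exact hφx
      · have h2 := hcv.2 (mem_univ x) (mem_univ (x + t • v))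
          (show (0 : ℝ) ≤ 1 - r / t by rw [sub_nonneg, div_le_one ht]; exact hrt)
          (show (0 : ℝ) ≤ r / t by positivity) (by ring)
        have h3 : (1 - r / t) • x + (r / t) • (x + t • v) = x + r • v := by
          rw [smul_add, smul_smul, div_mul_cancel₀ _ ht.ne', sub_smul, one_smul]
          abel
        rw [h3] at h2
        simp only [smul_eq_mul] at h2
        have h4 : 0 ≤ r / t := by positivity
        have h5 : 0 ≤ 1 - r / t := by rw [sub_nonneg, div_le_one ht]; exact hrt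
        nlinarith
    exact (hin _ hφr).le

end Pool.Schoen
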