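import Pool.Agent.H.MP_6c077c_gt.Ph.PTrunc

/-! Outer normals: the base, a small ball around a point off the hypersurface. -/

set_option autoImplicit false

namespace Pool.Schoen

open Filter Set
open scoped Topology RealInnerProductSpace ContDiff

variable {V : Type*} [NormedAddCommGroup V] [InnerProductSpace ℝ V] [FiniteDimensional ℝ V]

/-- PROOF. `K = ptrunc g φ' 1 c`, `Hom g K` (`ptrunc_hom` with `s = c = ε ^ 2`), its body is the part of
`{g ≤ 0}` in the closed ball, nonempty. `g` has no zeros there, so it is negative on the closed ball, and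
`K` is `‖x - o‖ ^ 2 - ε ^ 2` near its zeros and conversely. -/
theorem pball {F g φ' : V → ℝ} {o : V} {ε : ℝ} (hε : 0 < ε) (hF : ∀ x, ‖x - o‖ ≤ ε → F x ≠ 0)
    (hg : PClass g φ' (ε ^ 2) ∅) (hl : PLow g φ' F (fun x => ‖x - o‖ ^ 2) (ε ^ 2))
    (hc : IsConnected {x | g x ≤ 0}) : IsBall g := by
  have hK : Hom g (ptrunc g φ' 1 (ε ^ 2)) :=
    ptrunc_hom hg one_pos le_rfl fun p hp => by simp at hp
  have hlev : ∀ x, ‖x - o‖ ^ 2 ≤ ε ^ 2 ↔ ‖x - o‖ ≤ ε := fun x => by
    rw [sq_le_sq₀ (norm_nonneg _) hε.le]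
  have hφ : ∀ x, ‖x - o‖ ≤ ε → φ' =ᶠ[𝓝 x] fun y => ‖y - o‖ ^ 2 := fun x hx =>
    (hl.2 x ((hlev x).2 hx)).1
  have hφ' : ∀ x, φ' x ≤ ε ^ 2 → ‖x - o‖ ≤ ε := fun x hx => (hlev x).1 ((hl.1 x).1 hx)
  have hg0 : ∀ x, ‖x - o‖ ≤ ε → g x ≠ 0 := by
    intro x hx h0
    have h1 := (hl.2 x ((hlev x).2 hx)).2.2 h0
    apply hF x hx
    rw [← h1.self_of_nhds, h0]
  have hKle : ∀ x, ptrunc g φ' 1 (ε ^ 2) x ≤ 0 → g x ≤ 0 ∧ ‖x - o‖ ≤ ε := by
    intro x hx
    refine ⟨(le_max_left _ _).trans hx, hφ' x ?_⟩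
    have h1 : 1 * (φ' x - ε ^ 2) ≤ 0 := (le_max_right _ _).trans hx
    linarith
  obtain ⟨x₀, hx₀⟩ := (hK.isConnected hg.bdd hc).nonempty
  obtain ⟨h1, h2⟩ := hKle x₀ hx₀
  have hneg : ∀ x, ‖x - o‖ ≤ ε → g x < 0 := by
    intro x hx
    by_contra h3
    have h4 : 0 ≤ g x := not_lt.1 h3
    have hpc : IsPreconnected (Metric.closedBall o ε) := (convex_closedBall o ε).isPreconnected
    have hm : ∀ y, y ∈ Metric.closedBall o ε ↔ ‖y - o‖ ≤ ε := fun y => by
      rw [Metric.mem_closedBall, dist_eq_norm]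
    obtain ⟨y, hy, hy0⟩ := hpc.intermediate_value ((hm x₀).2 h2) ((hm x).2 hx)
      hg.good.cont.continuousOn ⟨h1, h4⟩
    exact hg0 y ((hm y).1 hy) hy0
  have hKcont : Continuous (ptrunc g φ' 1 (ε ^ 2)) := hg.good.cont.max (phi_cont hg.sm _ _)
  have hGcont : Continuous fun x : V => ‖x - o‖ ^ 2 - ε ^ 2 := by fun_prop
  have hloc : ∀ x, ‖x - o‖ ≤ ε → φ' x = ε ^ 2 →
      ptrunc g φ' 1 (ε ^ 2) =ᶠ[𝓝 x] fun x => ‖x - o‖ ^ 2 - ε ^ 2 := by
    intro x hx hx1
    have h3 : g x < 1 * (φ' x - ε ^ 2) := by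
      rw [hx1]
      simpa using hneg x hx
    filter_upwards [hg.good.cont.continuousAt.eventually_lt (phi_cont hg.sm _ _).continuousAt h3,
      hφ x hx] with y h4 h5
    unfold ptrunc
    rw [max_eq_right h4.le, h5]
    ring
  have h3 : Hom (ptrunc g φ' 1 (ε ^ 2)) fun x => ‖x - o‖ ^ 2 - ε ^ 2 := by
    refine Hom.of_eq_near' hK.good_right hGcont ?_ ?_
    · rintro x (hx | hx)
      · obtain ⟨h4, h5⟩ := hKle x hx.le
        refine hloc x h5 ?_
        have h6 := hneg x h5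
        unfold ptrunc at hx
        rcases max_choice (g x) (1 * (φ' x - ε ^ 2)) with h7 | h7
        · rw [h7] at hx
          linarith
        · rw [h7] at hx
          linarith
      · have h5 : ‖x - o‖ ≤ ε := (hlev x).1 (by linarith)
        refine hloc x h5 ?_
        rw [(hφ x h5).self_of_nhds]
        linarith
    · intro x h4 h5
      rcases lt_or_gt_of_ne h5 with h6 | h6
      · have h7 : ‖x - o‖ ≤ ε := (hlev x).1 (by linarith)
        refine mul_pos_of_neg_of_neg (max_lt (hneg x h7) ?_) h6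
        rw [(hφ x h7).self_of_nhds]
        linarith
      · refine mul_pos ?_ h6
        by_contra h7
        obtain ⟨h8, h9⟩ := hKle x (not_lt.1 h7)
        have h10 := (hlev x).2 h9
        linarith
  have h4 : IsBall fun x : V => ‖x - o‖ ^ 2 - ε ^ 2 := by
    have h5 := hom_balls o (0 : V) hε one_pos
    simp only [sub_zero, one_pow] at h5
    exact h5
  exact (hK.trans h3).trans h4

end Pool.Schoen
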