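import Pool.Agent.H.MP_6c077c_gt.Ph.PDefs

/-! Outer normals: basic facts on the relative class of `φ`. -/

set_option autoImplicit false

namespace Pool.Schoen

open Filter Set
open scoped Topology RealInnerProductSpace ContDiff

variable {V : Type*} [NormedAddCommGroup V] [InnerProductSpace ℝ V]

theorem FreeP.congr {f g φ φ' : V → ℝ} {x : V} (h : FreeP f φ x) (hf : f =ᶠ[𝓝 x] g)
    (hφ : φ =ᶠ[𝓝 x] φ') : FreeP g φ' x := by
  obtain ⟨v, hv, hv'⟩ := h
  exact ⟨v, hv.congr hf, by rw [← hφ.fderiv_eq]; exact hv'⟩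

private theorem PBasic_hess {f g : V → ℝ} {p : V} (h : f =ᶠ[𝓝 p] g) (w w' : V) :
    hess g p w w' = hess f p w w' := by
  unfold hess
  rw [h.fderiv.fderiv_eq]

theorem InwP.congr {f g φ φ' : V → ℝ} {p : V} (h : InwP f φ p) (hf : f =ᶠ[𝓝 p] g)
    (hφ : φ =ᶠ[𝓝 p] φ') : InwP g φ' p := by
  refine ⟨h.smooth.congr_of_eventuallyEq hf.symm, ?_, ?_, ?_⟩
  · rw [← hf.self_of_nhds]
    exact h.zero
  · rw [← hφ.fderiv_eq]
    exact h.ne
  · simp only [PBasic_hess hf, PBasic_hess hφ, ← hf.fderiv_eq, ← hφ.fderiv_eq]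
    exact h.idx

theorem InwP.desc {f φ : V → ℝ} {p : V} (h : InwP f φ p) : ∃ v, Desc1 f p v := by
  obtain ⟨μ, hμ, hg, -⟩ := h.idx
  obtain ⟨w, hw⟩ : ∃ w, fderiv ℝ φ p w ≠ 0 := by
    by_contra hcon
    push Not at hcon
    exact h.ne (by ext w; simpa using hcon w)
  refine ⟨(fderiv ℝ φ p w) • w, desc1_smooth (h.smooth.of_le one_le_two) ?_⟩
  rw [hg, map_smul, smul_eq_mul]
  have : 0 < fderiv ℝ φ p w * fderiv ℝ φ p w := mul_self_pos.2 hw
  have := mul_pos hμ this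
  linarith

/-- A direction in which `φ` decreases. -/
theorem exists_down {φ : V → ℝ} {x : V} (h : fderiv ℝ φ x ≠ 0) : ∃ v, fderiv ℝ φ x v < 0 := by
  obtain ⟨w, hw⟩ : ∃ w, fderiv ℝ φ x w ≠ 0 := by
    by_contra hcon
    push Not at hcon
    exact h (by ext w; simpa using hcon w)
  refine ⟨-((fderiv ℝ φ x w) • w), ?_⟩
  rw [map_neg, map_smul, smul_eq_mul]
  have : 0 < fderiv ℝ φ x w * fderiv ℝ φ x w := mul_self_pos.2 hw
  linarith

theorem phi_fderiv {φ : V → ℝ} (hφ : ContDiff ℝ ∞ φ) (κ s : ℝ) (x v : V) :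
    fderiv ℝ (fun y => κ * (φ y - s)) x v = κ * fderiv ℝ φ x v := by
  have h1 : HasFDerivAt φ (fderiv ℝ φ x) x := ((hφ.differentiable (by simp)) x).hasFDerivAt
  have h2 := ((h1.sub_const s).const_mul κ).fderiv
  rw [h2]
  rfl

theorem phi_cont {φ : V → ℝ} (hφ : ContDiff ℝ ∞ φ) (κ s : ℝ) :
    Continuous fun y => κ * (φ y - s) :=
  continuous_const.mul (hφ.continuous.sub continuous_const)

/-- Descent directions of `κ (φ - s)`. -/
theorem desc1_phi {φ : V → ℝ} (hφ : ContDiff ℝ ∞ φ) {κ : ℝ} (hκ : 0 < κ) (s : ℝ) {x v : V}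
    (hv : fderiv ℝ φ x v < 0) : Desc1 (fun y => κ * (φ y - s)) x v := by
  refine desc1_smooth ?_ ?_
  · exact (contDiff_const.mul (hφ.sub contDiff_const)).contDiffAt.of_le (by simp)
  · rw [phi_fderiv hφ]
    exact mul_neg_of_pos_of_neg hκ hv

theorem PLin.fd {φ : V → ℝ} {e p : V} {κ r : ℝ} (h : PLin φ e p κ r) {x : V}
    (hx : ‖x - p‖ < r) (v : V) : κ * fderiv ℝ φ x v = ⟪e, v⟫ := by
  have hκ := h.hκ
  have hev : φ =ᶠ[𝓝 x] fun y => φ p + κ⁻¹ * ⟪e, y - p⟫ := by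
    have hc : Continuous fun y : V => ‖y - p‖ := by fun_prop
    filter_upwards [hc.continuousAt.eventually_lt_const hx] with y hy
    rw [← h.lin y hy]
    field_simp
    ring
  have hd : HasFDerivAt (fun y : V => φ p + κ⁻¹ * ⟪e, y - p⟫) (κ⁻¹ • innerSL ℝ e) x := by
    have h2 : HasFDerivAt (fun y : V => y - p) (ContinuousLinearMap.id ℝ V) x :=
      (hasFDerivAt_id x).sub_const p
    have h3 : HasFDerivAt (fun y : V => innerSL ℝ e (y - p)) (innerSL ℝ e) x := by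
      have h4 := ((innerSL ℝ e).hasFDerivAt (x := x - p)).comp x h2
      rwa [ContinuousLinearMap.comp_id] at h4
    exact (h3.const_mul κ⁻¹).const_add _
  rw [hev.fderiv_eq, hd.fderiv]
  simp only [_root_.smul_apply, innerSL_apply_apply, smul_eq_mul]
  field_simp

theorem PLin.free_iff {f φ : V → ℝ} {e p : V} {κ r : ℝ} (h : PLin φ e p κ r) {x : V}
    (hx : ‖x - p‖ < r) : FreeP f φ x ↔ FreeAt f e x := by
  have key : ∀ v, fderiv ℝ φ x v < 0 ↔ ⟪e, v⟫ < 0 := by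
    intro v
    rw [← h.fd hx v]
    constructor
    · exact fun h1 => mul_neg_of_pos_of_neg h.hκ h1
    · intro h1
      by_contra h2
      have := mul_nonneg h.hκ.le (not_lt.1 h2)
      linarith
  constructor
  · rintro ⟨v, hv, h1⟩
    exact ⟨v, hv, (key v).1 h1⟩
  · rintro ⟨v, hv, h1⟩
    exact ⟨v, hv, (key v).2 h1⟩

private theorem PBasic_hess0 {φ : V → ℝ} {e p : V} {κ r : ℝ} (h : PLin φ e p κ r) (w w' : V) :
    hess φ p w w' = 0 := by
  have hκ := h.hκ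
  have h1 : (fderiv ℝ φ) =ᶠ[𝓝 p] fun _ => κ⁻¹ • innerSL ℝ e := by
    have hc : Continuous fun y : V => ‖y - p‖ := by fun_prop
    have h0 : ‖p - p‖ < r := by rw [sub_self, norm_zero]; exact h.hr
    filter_upwards [hc.continuousAt.eventually_lt_const h0] with y hy
    ext v
    have h2 := h.fd hy v
    simp only [_root_.smul_apply, innerSL_apply_apply, smul_eq_mul]
    rw [← h2]
    field_simp
  unfold hess
  rw [h1.fderiv_eq]
  simp

/-- Where `φ` is linear, relative inward points are inward points. -/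
theorem PLin.inw {f φ : V → ℝ} {e p : V} {κ r : ℝ} (h : PLin φ e p κ r) (hi : InwP f φ p) :
    Inw f e p := by
  have hκ := h.hκ
  have h0 : ‖p - p‖ < r := by rw [sub_self, norm_zero]; exact h.hr
  obtain ⟨μ, hμ, hg, hidx⟩ := hi.idx
  have hker : ∀ w, ⟪e, w⟫ = 0 → fderiv ℝ φ p w = 0 := by
    intro w hw
    have h1 := h.fd h0 w
    rw [hw] at h1
    rcases mul_eq_zero.1 h1 with h2 | h2
    · exact absurd h2 hκ.ne'
    · exact h2
  have hker' : ∀ w, fderiv ℝ φ p w = 0 → ⟪e, w⟫ = 0 := by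
    intro w hw
    rw [← h.fd h0 w, hw, mul_zero]
  refine ⟨hi.smooth, hi.zero, ⟨μ / κ, by positivity, fun v => ?_⟩, ?_⟩
  · rw [hg, ← h.fd h0 v]
    field_simp
  · simp only [PBasic_hess0 h, mul_zero, add_zero] at hidx
    rcases hidx with h1 | ⟨u, hu, hu1, hu2, hu3, hu4⟩
    · exact Or.inl fun w hw hw0 => h1 w (hker w hw) hw0
    · exact Or.inr ⟨u, hu, hker' u hu1, hu2, fun w hw hw' => hu3 w (hker w hw) hw',
        fun w hw hw' hw0 => hu4 w (hker w hw) hw' hw0⟩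

theorem PLin.inwP {f φ : V → ℝ} {e p : V} {κ r : ℝ} (h : PLin φ e p κ r) (hi : Inw f e p) :
    InwP f φ p := by
  have hκ := h.hκ
  have h0 : ‖p - p‖ < r := by rw [sub_self, norm_zero]; exact h.hr
  obtain ⟨μ, hμ, hg⟩ := hi.grad
  have hker : ∀ w, ⟪e, w⟫ = 0 → fderiv ℝ φ p w = 0 := by
    intro w hw
    have h1 := h.fd h0 w
    rw [hw] at h1
    rcases mul_eq_zero.1 h1 with h2 | h2
    · exact absurd h2 hκ.ne'
    · exact h2
  have hker' : ∀ w, fderiv ℝ φ p w = 0 → ⟪e, w⟫ = 0 := by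
    intro w hw
    rw [← h.fd h0 w, hw, mul_zero]
  refine ⟨hi.smooth, hi.zero, ?_, μ * κ, by positivity, fun v => ?_, ?_⟩
  · intro h1
    have h2 := h.fd h0 e
    rw [h1, real_inner_self_eq_norm_sq, h.he] at h2
    simp at h2
  · rw [hg, ← h.fd h0 v]
    ring
  · simp only [PBasic_hess0 h, mul_zero, add_zero]
    rcases hi.index with h1 | ⟨u, hu, hu1, hu2, hu3, hu4⟩
    · exact Or.inl fun w hw hw0 => h1 w (hker' w hw) hw0
    · exact Or.inr ⟨u, hu, hker u hu1, hu2, fun w hw hw' => hu3 w (hker' w hw) hw',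
        fun w hw hw' hw0 => hu4 w (hker' w hw) hw' hw0⟩

end Pool.Schoen
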