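import Pool.Agent.H.MP_6c077c_gt.Ph.PTrunc
import Pool.Agent.H.MP_6c077c_gt.Ix.Cap

/-! Outer normals: if the highest inward point has index zero, the body is a cap (copy of
`Gd/RCap.lean`). -/

set_option autoImplicit false

namespace Pool.Schoen

open Filter Set
open scoped Topology RealInnerProductSpace ContDiff

variable {V : Type*} [NormedAddCommGroup V] [InnerProductSpace ℝ V] [FiniteDimensional ℝ V]

/-- PROOF. Copy of `rcap` (`Gd/RCap.lean`) with `pfs f φ κ p ε` in place of `trunc f e (⟪e, p⟫ + ε)`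
(`ptrunc_class`, `ptrunc_hom`, `pfs_lin` in the ball). -/
theorem pcap {f φ : V → ℝ} {e p : V} {κ c : ℝ} {P : Finset V} (hf : PClass f φ c P) (hp : p ∈ P)
    (htop : ∀ p' ∈ P, φ p' ≤ φ p) {B : V →L[ℝ] V →L[ℝ] ℝ} {μ r : ℝ} (hl : PLin φ e p κ r)
    (hm : Mod0 f e p B μ r) (hconn : IsConnected {x | f x ≤ 0}) : IsBall f := by
  have he := hm.he
  have hκ := hl.hκ
  obtain ⟨ε, hε, hsmall⟩ := cap_small (p := p) he hm.hμ hm.hr hm.hB
  have hr := hm.hr
  have hεκ : 0 < ε / κ := div_pos hε hκ
  have hPs : ∀ p' ∈ P, φ p' < φ p + ε / κ := fun p' hp' => by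
    have := htop p' hp'
    linarith
  have hcs : c ≤ φ p + ε / κ := by
    have := hf.high p hp
    linarith
  have hcl : PClass (pfs f φ κ p ε) φ c P := ptrunc_class hf hκ hcs hPs
  have hhom : Hom f (pfs f φ κ p ε) := ptrunc_hom hf hκ hcs hPs
  have hconn' := hhom.isConnected hf.bdd hconn
  have hlin : ∀ x : V, ‖x - p‖ < r → pfs f φ κ p ε x = max (f x) (⟪e, x - p⟫ - ε) :=
    fun x hx => pfs_lin hl ε hx
  have hin : ∀ x, pfs f φ κ p ε x ≤ 0 → ‖x - p‖ < r → ‖x - p‖ < r / 2 := by
    intro x hx hxr
    rw [hlin x hxr] at hx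
    have h1 : f x ≤ 0 := (le_max_left _ _).trans hx
    have h2 : ⟪e, x - p⟫ - ε ≤ 0 := (le_max_right _ _).trans hx
    rw [hm.hf x hxr] at h1
    exact hsmall x h1 (by linarith)
  have hball : {x | pfs f φ κ p ε x ≤ 0} ⊆ Metric.ball p (r / 2) := by
    refine hconn'.isPreconnected.subset_left_of_subset_union Metric.isOpen_ball
      (v := (Metric.closedBall p (r / 2))ᶜ) Metric.isClosed_closedBall.isOpen_compl ?_ ?_ ?_
    · rw [Set.disjoint_compl_right_iff_subset]
      exact Metric.ball_subset_closedBall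
    · intro x hx
      by_cases hxr : ‖x - p‖ < r
      · left
        rw [Metric.mem_ball, dist_eq_norm]
        exact hin x hx hxr
      · right
        rw [mem_compl_iff, Metric.mem_closedBall, dist_eq_norm, not_le]
        linarith
    · refine ⟨p, ?_, Metric.mem_ball_self (by linarith)⟩
      have h0 : ‖p - p‖ < r := by
        rw [sub_self, norm_zero]
        exact hr
      change pfs f φ κ p ε p ≤ 0
      rw [hlin p h0, (hf.inw p hp).zero, sub_self, inner_zero_right]
      exact max_le le_rfl (by linarith)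
  have hGc : Continuous fun x => max (mdl0 B μ e p x) (⟪e, x - p⟫ - ε) :=
    (mdl0_contDiff B μ e p).continuous.max (by fun_prop)
  have hGin : ∀ x, max (mdl0 B μ e p x) (⟪e, x - p⟫ - ε) ≤ 0 → ‖x - p‖ < r / 2 := by
    intro x hx
    have h2 : ⟪e, x - p⟫ - ε ≤ 0 := (le_max_right _ _).trans hx
    exact hsmall x ((le_max_left _ _).trans hx) (by linarith)
  have hfG : ∀ x, ‖x - p‖ < r →
      pfs f φ κ p ε x = max (mdl0 B μ e p x) (⟪e, x - p⟫ - ε) := by
    intro x hx
    rw [hlin x hx, hm.hf x hx]
  have hhG : Hom (pfs f φ κ p ε) fun x => max (mdl0 B μ e p x) (⟪e, x - p⟫ - ε) := by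
    refine Hom.of_eq_near' hcl.good hGc ?_ ?_
    · intro x hx
      have h1 : ‖x - p‖ < r := by
        rcases hx with hx | hx
        · have h2 := hball (show x ∈ {x | pfs f φ κ p ε x ≤ 0} from hx.le)
          rw [Metric.mem_ball, dist_eq_norm] at h2
          linarith
        · have h2 := hGin x hx.le
          linarith
      have h2 : Continuous fun y : V => ‖y - p‖ := by fun_prop
      filter_upwards [h2.continuousAt.eventually_lt_const h1] with y hy
      exact hfG y hy
    · intro x h1 h2
      by_cases hxr : ‖x - p‖ < r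
      · rw [← hfG x hxr]
        exact mul_self_pos.2 h1
      · refine mul_pos ?_ ?_
        · by_contra h3
          have h4 := hball (show x ∈ {x | pfs f φ κ p ε x ≤ 0} from not_lt.1 h3)
          rw [Metric.mem_ball, dist_eq_norm] at h4
          linarith
        · by_contra h3
          have h4 := hGin x (not_lt.1 h3)
          linarith
  refine (hhom.trans hhG).trans ?_
  have hcv : ConvexOn ℝ univ (mdl0 B μ e p) := by
    refine mdl0_convex he fun w hw => ?_
    by_cases hw0 : w = 0
    · rw [hw0]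
      simp
    · exact (hm.hB w hw hw0).le
  have hcv2 : ConvexOn ℝ univ fun x : V => ⟪e, x - p⟫ - ε := by
    refine ⟨convex_univ, fun x _ y _ a b _ _ hab => ?_⟩
    simp only [inner_sub_right, inner_add_right, inner_smul_right, smul_eq_mul]
    have h1 : ⟪e, p⟫ + ε = a * (⟪e, p⟫ + ε) + b * (⟪e, p⟫ + ε) := by rw [← add_mul, hab, one_mul]
    apply le_of_eq
    linear_combination -h1
  refine isBall_convex (o := p + (ε / 2) • e) (hcv.sup hcv2) hGc ?_ ?_
  · have e1 : p + (ε / 2) • e - p = (ε / 2) • e := by abel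
    have e2 : ⟪e, (ε / 2) • e⟫ = ε / 2 := by
      rw [inner_smul_right, real_inner_self_eq_norm_sq, he]
      ring
    have e3 : orth e ((ε / 2) • e) = 0 := by
      unfold orth
      rw [e2]
      simp
    apply max_lt
    · rw [mdl0, e1, e2, e3]
      have := mul_pos hm.hμ hε
      simp only [map_zero, zero_div, add_zero]
      linarith
    · rw [e1, e2]
      linarith
  · refine (Metric.isBounded_ball (x := p) (r := r / 2)).subset ?_
    intro x hx
    rw [Metric.mem_ball, dist_eq_norm]
    exact hGin x hx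

end Pool.Schoen
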