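import Pool.Agent.H.MP_6c077c_gt.PP.Ind

/-! Outer normals: the relative class for a smooth function `φ` in place of the height. -/

set_option autoImplicit false

namespace Pool.Schoen

open Filter Set
open scoped Topology RealInnerProductSpace ContDiff

variable {V : Type*} [NormedAddCommGroup V] [InnerProductSpace ℝ V]

/-- There is a descent direction of `f` at `x` pointing down for `φ`. -/
def FreeP (f φ : V → ℝ) (x : V) : Prop := ∃ v, Desc1 f x v ∧ fderiv ℝ φ x v < 0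

/-- `p` is an inward point of relative index zero or one: `f` is `C²` near `p`, `f p = 0`, the
derivative of `f` is a negative multiple `-μ` of the derivative of `φ`, and the form
`D²f + μ D²φ` is nondegenerate with at most one negative eigenvalue on the kernel of `Dφ`. -/
structure InwP (f φ : V → ℝ) (p : V) : Prop where
  smooth : ContDiffAt ℝ 2 f p
  zero : f p = 0
  ne : fderiv ℝ φ p ≠ 0
  idx : ∃ μ : ℝ, 0 < μ ∧ (∀ v, fderiv ℝ f p v = -(μ * fderiv ℝ φ p v)) ∧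
    ((∀ w, fderiv ℝ φ p w = 0 → w ≠ 0 → 0 < hess f p w w + μ * hess φ p w w) ∨
      ∃ u, ‖u‖ = 1 ∧ fderiv ℝ φ p u = 0 ∧ hess f p u u + μ * hess φ p u u < 0 ∧
        (∀ w, fderiv ℝ φ p w = 0 → ⟪u, w⟫ = 0 → hess f p u w + μ * hess φ p u w = 0) ∧
        ∀ w, fderiv ℝ φ p w = 0 → ⟪u, w⟫ = 0 → w ≠ 0 → 0 < hess f p w w + μ * hess φ p w w)

/-- The relative class: `f` is good, the points of `P` (all above the level `c`) are inward points
of relative index at most one, all other zeros at or above the level `c` are free, and `φ` has no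
critical points on the body at or above the level `c`. -/
structure PClass (f φ : V → ℝ) (c : ℝ) (P : Finset V) : Prop where
  sm : ContDiff ℝ ∞ φ
  bdd : Bornology.IsBounded {x | f x ≤ 0}
  good : Good f
  inw : ∀ p ∈ P, InwP f φ p
  high : ∀ p ∈ P, c < φ p
  free : ∀ x, f x = 0 → c ≤ φ x → x ∉ P → FreeP f φ x
  reg : ∀ x, f x ≤ 0 → c ≤ φ x → fderiv ℝ φ x ≠ 0

/-- At and below the level `c` nothing has changed: the body of `g` is germwise a union of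
components of the body of `f`, and `φ'` is `φ`. -/
def PLow (g φ' f φ : V → ℝ) (c : ℝ) : Prop :=
  (∀ x, φ' x ≤ c ↔ φ x ≤ c) ∧
    ∀ x, φ x ≤ c → φ' =ᶠ[𝓝 x] φ ∧ (g x ≤ 0 → f x ≤ 0) ∧ (g x = 0 → g =ᶠ[𝓝 x] f)

theorem PLow.rfl' (f φ : V → ℝ) (c : ℝ) : PLow f φ f φ c :=
  ⟨fun _ => Iff.rfl, fun _ _ => ⟨EventuallyEq.rfl, fun h => h, fun _ => EventuallyEq.rfl⟩⟩

theorem PLow.trans {f φ g φ' k φ'' : V → ℝ} {c : ℝ} (h : PLow k φ'' g φ' c)
    (h' : PLow g φ' f φ c) : PLow k φ'' f φ c := by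
  refine ⟨fun x => (h.1 x).trans (h'.1 x), fun x hx => ?_⟩
  obtain ⟨a1, a2, a3⟩ := h'.2 x hx
  obtain ⟨b1, b2, b3⟩ := h.2 x ((h'.1 x).2 hx)
  refine ⟨b1.trans a1, fun hk => a2 (b2 hk), fun hk => ?_⟩
  have h1 := b3 hk
  have h2 : g x = 0 := by rw [← h1.self_of_nhds, hk]
  exact h1.trans (a3 h2)

/-- `φ` is linear in the ball of radius `r` around `p`, with gradient `κ⁻¹ • e` there. -/
structure PLin (φ : V → ℝ) (e p : V) (κ r : ℝ) : Prop where
  he : ‖e‖ = 1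
  hκ : 0 < κ
  hr : 0 < r
  lin : ∀ x, ‖x - p‖ < r → κ * (φ x - φ p) = ⟪e, x - p⟫

theorem PLin.mono {φ : V → ℝ} {e p : V} {κ r r' : ℝ} (h : PLin φ e p κ r) (h0 : 0 < r')
    (hr : r' ≤ r) : PLin φ e p κ r' :=
  ⟨h.he, h.hκ, h0, fun x hx => h.lin x (hx.trans_le hr)⟩

/-- The truncation of the body at the level `s` of `φ`. -/
noncomputable def ptrunc (f φ : V → ℝ) (κ s : ℝ) (x : V) : ℝ := max (f x) (κ * (φ x - s))

/-- The truncated function, level `φ p + ε / κ`. -/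
noncomputable def pfs (f φ : V → ℝ) (κ : ℝ) (p : V) (ε : ℝ) : V → ℝ :=
  ptrunc f φ κ (φ p + ε / κ)

/-- The function of the cut body. -/
noncomputable def pcutF (f φ : V → ℝ) (κ : ℝ) (u p : V) (η ε r : ℝ) (x : V) : ℝ :=
  max (pfs f φ κ p ε x) (lam u p η r x)

/-- The slab. -/
def pslab (f φ : V → ℝ) (κ : ℝ) (u p : V) (η ε r : ℝ) : Set V :=
  {x | pfs f φ κ p ε x ≤ 0 ∧ 0 ≤ lam u p η r x}

/-- The wall at the level `c = ±η` of `y₁`. -/
def pwall (f φ : V → ℝ) (κ : ℝ) (u p : V) (η ε r c : ℝ) : Set V :=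
  {x | pfs f φ κ p ε x ≤ 0 ∧ lam u p η r x = 0 ∧ ⟪u, x - p⟫ = c}

/-- The family of the neck. -/
noncomputable def pneck (f φ : V → ℝ) (κ : ℝ) (e u p : V) (η ε r ρ R : ℝ) (x : V) : ℝ :=
  max (pfs f φ κ p ε x) (min (lam u p η r x) (tubeF (qn e u p η ε) u (-ρ) (2 * η + ρ) R x))

/-- The situation of `RSlab` with `φ` in place of the height, linear near `p`. -/
structure PSlab (f φ : V → ℝ) (k : ℝ) (P : Finset V) (e u p : V)
    (B : V →L[ℝ] V →L[ℝ] ℝ) (κ μ a r η ε : ℝ) : Prop where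
  cls : PClass f φ k P
  mem : p ∈ P
  top : ∀ p' ∈ P, φ p' ≤ φ p
  sep : ∀ p' ∈ P, p' ≠ p → r ≤ ‖p' - p‖
  low : ∀ x, φ x ≤ k → r ≤ ‖x - p‖
  lin : PLin φ e p κ r
  mod : Mod1 f e u p B μ a r
  hη : 0 < η
  hε : 0 < ε
  hηr : η < r / 8
  hεr : ε < r / 8
  small : ∀ x, mdl1 B μ a e u p x ≤ 0 → ⟪e, x - p⟫ ≤ ε → |⟪u, x - p⟫| ≤ 2 * η → ‖x - p‖ < r / 2

theorem pfs_eq {f φ : V → ℝ} {κ : ℝ} (hκ : 0 < κ) (p : V) (ε : ℝ) (x : V) :
    pfs f φ κ p ε x = max (f x) (κ * (φ x - φ p) - ε) := by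
  unfold pfs ptrunc
  congr 1
  field_simp
  ring

/-- In the ball where `φ` is linear. -/
theorem pfs_lin {f φ : V → ℝ} {e p : V} {κ r : ℝ} (h : PLin φ e p κ r) (ε : ℝ) {x : V}
    (hx : ‖x - p‖ < r) : pfs f φ κ p ε x = max (f x) (⟪e, x - p⟫ - ε) := by
  rw [pfs_eq h.hκ, h.lin x hx]

end Pool.Schoen
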