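import Pool.Agent.H.MP_6c077c_gt.Ph.PStr

/-! Outer normals: straightening of `φ` near one point by a diffeomorphism. -/

set_option autoImplicit false

namespace Pool.Schoen

open Filter Set
open scoped Topology RealInnerProductSpace ContDiff

variable {V : Type*} [NormedAddCommGroup V] [InnerProductSpace ℝ V] [FiniteDimensional ℝ V]

/-- PROOF. Let `g` be the gradient of `φ` at `p` (nonzero, `InwP.ne`), `e = ‖g‖⁻¹ • g`, `κ = ‖g‖⁻¹`,
`R x = κ (φ x - φ p) - ⟪e, x - p⟫`: smooth, `R p = 0`, `DR p = 0`. With the cut-off `χ` of `cutoff_exists`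
(`Ix/ModB`) at a small scale `ρ`, `T x = x + (χ x * R x) • e` is a diffeomorphism (`small_diffeo`, used in
`Al/Start.lean`), the identity outside of the ball of radius `ρ / 2`; let `Φ` be its inverse (`Dif Φ T`).
`Φ p = p`, `DΦ p = id`, and near `p`: `κ (φ (Φ y) - φ p) = ⟪e, y - p⟫`. The scale `ρ` is so small that
`c < φ` on the ball of radius `ρ` and no other point of `P` is in it. `InwP` at `p`: `D(f ∘ Φ) = Df`,
`D²(f ∘ Φ) = D²f + Df (D²Φ)`, the same for `φ`, and `Df + μ Dφ = 0` at `p`. Free points: `Dif.desc1`.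
`Good.comp_dif`, `Dif.bounded`. -/
theorem pdif {f φ : V → ℝ} {c : ℝ} {P : Finset V} (hf : PClass f φ c P) {p : V} (hp : p ∈ P) :
    ∃ (Φ Ψ : V → V) (e : V) (κ r : ℝ), Dif Φ Ψ ∧ PLin (fun x => φ (Φ x)) e p κ r ∧
      PClass (fun x => f (Φ x)) (fun x => φ (Φ x)) c P ∧
      PLow (fun x => f (Φ x)) (fun x => φ (Φ x)) f φ c ∧ ∀ q ∈ P, Φ q = q := by
  obtain ⟨Φ, Ψ, e, κ, r, hd, -, -, -, -, -, hP, hc, hl, hlow, -⟩ := pstr hf hp one_pos
  exact ⟨Ψ, Φ, e, κ, r, hd.symm, hl, hc, hlow, hP⟩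

end Pool.Schoen
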