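import Pool.Agent.H.MP_6c077c_gt.Ph.PTrunc
import Pool.Agent.H.MP_6c077c_gt.Wn.GOut

/-! Outer normals: the cutting step in the relative class of `φ`. -/

set_option autoImplicit false

namespace Pool.Schoen

open Filter Set
open scoped Topology RealInnerProductSpace ContDiff

variable {V : Type*} [NormedAddCommGroup V] [InnerProductSpace ℝ V] [FiniteDimensional ℝ V]

/-- Small radii: within the ball one is above the level `c`. -/
theorem pstep_radius {V : Type*} [NormedAddCommGroup V] {φ : V → ℝ} {p : V} {c r : ℝ} (hφ : Continuous φ) (hp : c < φ p)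
    (hr : 0 < r) : ∃ r' : ℝ, 0 < r' ∧ r' ≤ r ∧ ∀ x, ‖x - p‖ < r' → c < φ x := by
  obtain ⟨δ, hδ, h1⟩ := Metric.eventually_nhds_iff.1 (hφ.continuousAt.eventually_const_lt hp)
  refine ⟨min δ r, lt_min hδ hr, min_le_right _ _, fun x hx => h1 ?_⟩
  rw [dist_eq_norm]
  exact hx.trans_le (min_le_left _ _)

omit [FiniteDimensional ℝ V] in
/-- A piece of the cut body belongs to the class, with fewer inward points. -/
theorem pstep_piece {g A φ : V → ℝ} {P : Finset V} {e p : V} {c κ r : ℝ}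
    (hg : PClass g φ c P) (hp : p ∈ P) (hl : PLin φ e p κ r) (hr : ∀ x, ‖x - p‖ < r → c < φ x)
    (hA : Good A) (hAb : Bornology.IsBounded {x | A x ≤ 0}) (hAg : ∀ x, A x ≤ 0 → g x ≤ 0)
    (hz : ∀ x, A x = 0 → (g x = 0 ∧ x ≠ p ∧ A =ᶠ[𝓝 x] g) ∨
      (‖x - p‖ < r / 2 ∧ ∃ v, Desc1 A x v ∧ ⟪e, v⟫ < 0)) :
    ∃ PA : Finset V, PClass A φ c PA ∧ PA.card < P.card ∧ PLow A φ g φ c := by
  classical
  have hr0 := hl.hr
  refine ⟨(P.erase p).filter fun x => A x = 0 ∧ A =ᶠ[𝓝 x] g, ⟨hg.sm, hAb, hA, ?_, ?_, ?_, ?_⟩,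
    ?_, ?_⟩
  · intro x hx
    rw [Finset.mem_filter, Finset.mem_erase] at hx
    exact (hg.inw x hx.1.2).congr hx.2.2.symm EventuallyEq.rfl
  · intro x hx
    rw [Finset.mem_filter, Finset.mem_erase] at hx
    exact hg.high x hx.1.2
  · intro x hx hc hxP
    rcases hz x hx with ⟨h1, h2, h3⟩ | ⟨h1, v, hv, hv'⟩
    · have hxP' : x ∉ P := fun h4 =>
        hxP (Finset.mem_filter.2 ⟨Finset.mem_erase.2 ⟨h2, h4⟩, hx, h3⟩)
      exact (hg.free x h1 hc hxP').congr h3.symm EventuallyEq.rfl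
    · exact (hl.free_iff (by linarith)).2 ⟨v, hv, hv'⟩
  · intro x hx hc
    exact hg.reg x (hAg x hx) hc
  · exact (Finset.card_le_card (Finset.filter_subset _ _)).trans_lt (Finset.card_erase_lt_of_mem hp)
  · refine ⟨fun _ => Iff.rfl, fun x hx => ⟨EventuallyEq.rfl, hAg x, fun h0 => ?_⟩⟩
    rcases hz x h0 with ⟨h1, h2, h3⟩ | ⟨h1, -⟩
    · exact h3
    · have := hr x (by linarith)
      linarith

/-- PROOF. Shrink `r` so that `r ≤ ‖p' - p‖` for the other points of `P` and `r ≤ ‖x - p‖` whenever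
`φ x ≤ c`. Truncate at `φ p + ε / κ` (`ptrunc_hom`, `ptrunc_class`, `ptrunc_low`): `g = pfs f φ κ p ε` is
`max (mdl1 B μ a e u p) (⟪e, · - p⟫ - ε)` in the ball (`pfs_lin`). Apply `gcut_out` (folder `Wn/`, helper58).
A zero of `A` is either a zero of `g`, germwise and different from `p`, or it is in the ball and there is a
direction `v` with `Desc1 A x v` and `⟪e, v⟫ < 0` (free by `PLin.free_iff`). -/
theorem pcut (hdim : 3 ≤ Module.finrank ℝ V) {f φ : V → ℝ} {P : Finset V} {e u p : V} {c κ : ℝ}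
    {B : V →L[ℝ] V →L[ℝ] ℝ} {μ a r : ℝ} (hf : PClass f φ c P) (hp : p ∈ P)
    (htop : ∀ p' ∈ P, φ p' ≤ φ p) (hl : PLin φ e p κ r) (hm : Mod1 f e u p B μ a r)
    (hs : PSides f) :
    ∃ (A C : V → ℝ) (PA PC : Finset V) (q : V) (ℓ : ℝ), PClass A φ c PA ∧ PClass C φ c PC ∧
      PA.card < P.card ∧ PC.card < P.card ∧ PSides A ∧ PSides C ∧ (∀ x, A x ≤ 0 → 0 < C x) ∧
      0 < ℓ ∧ (∀ᶠ x in 𝓝 q, A x = ⟪u, x - q⟫) ∧
      (∀ᶠ x in 𝓝 (q + ℓ • u), C x = -⟪u, x - (q + ℓ • u)⟫) ∧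
      (∀ s ∈ Ioo (0 : ℝ) ℓ, 0 < A (q + s • u) ∧ 0 < C (q + s • u)) ∧
      (∀ᶠ ρ in 𝓝[>] (0 : ℝ), Hom f (fun x => min (min (A x) (C x)) (tau q u ℓ ρ x))) ∧
      PLow A φ f φ c ∧ PLow C φ f φ c := by
  obtain ⟨r', hr'0, hr'r, hr'⟩ := pstep_radius hf.sm.continuous (hf.high p hp) hm.hr
  have hm' : Mod1 f e u p B μ a r' := hm.mono hr'0 hr'r
  have hl' : PLin φ e p κ r' := hl.mono hr'0 hr'r
  obtain ⟨ε, hε, hεr, hsm⟩ := (gslab_small (f := f) hm').exists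
  have hκ := hl.hκ
  have hεκ : 0 < ε / κ := by positivity
  have hs1 : ∀ p' ∈ P, φ p' < φ p + ε / κ := fun p' hp' => by linarith [htop p' hp']
  have hcs : c < φ p + ε / κ := by linarith [hf.high p hp]
  have hT : Hom f (pfs f φ κ p ε) := ptrunc_hom hf hκ hcs.le hs1
  have hg : PClass (pfs f φ κ p ε) φ c P := ptrunc_class hf hκ hcs.le hs1
  have hlow : PLow (pfs f φ κ p ε) φ f φ c := ptrunc_low hf.good.cont hf.sm hκ hcs
  have hgs : GSlab (pfs f φ κ p ε) e u p B μ a r' ε ε :=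
    GSlab.of_mod hm' hg.good hg.bdd (fun x hx => pfs_lin hl' ε hx) hε hεr hsm
  obtain ⟨A, C, q, ℓ, hA, hC, hAb, hCb, hAs, hCs, hdisj, hℓ, hfA, hfC, hpos, hρ, hAg, hCg, hzA,
    hzC⟩ := gcut_out hdim hgs (hs.hom hdim hT)
  obtain ⟨PA, hPA, hcA, hlA⟩ := pstep_piece hg hp hl' hr' hA hAb hAg hzA
  obtain ⟨PC, hPC, hcC, hlC⟩ := pstep_piece hg hp hl' hr' hC hCb hCg hzC
  refine ⟨A, C, PA, PC, q, ℓ, hPA, hPC, hcA, hcC, hAs, hCs, hdisj, hℓ, hfA, hfC, hpos, ?_,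
    hlA.trans hlow, hlC.trans hlow⟩
  filter_upwards [hρ] with ρ h1
  exact hT.trans h1

end Pool.Schoen
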