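import Pool.Agent.H.MP_6c077c_gt.Ph.PDif
import Pool.Agent.H.MP_6c077c_gt.Ph.PModel
import Pool.Agent.H.MP_6c077c_gt.Ph.PCap
import Pool.Agent.H.MP_6c077c_gt.Ph.PStep

/-! Outer normals: the induction above the level. -/

set_option autoImplicit false

namespace Pool.Schoen

open Filter Set
open scoped Topology RealInnerProductSpace ContDiff

variable {V : Type*} [NormedAddCommGroup V] [InnerProductSpace ℝ V] [FiniteDimensional ℝ V]

theorem PSides.comp_dif {Φ Ψ : V → V} (h : Dif Φ Ψ) {f : V → ℝ} (hf : PSides f) :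
    PSides fun x => f (Φ x) :=
  ⟨h.isConnected hf.conn, h.liftS hf.lift, h.isConnected hf.out, h.liftS hf.olift⟩

/-- The induction: to show that a body of the relative class which is a union of components of the
body of `F` below the level is a ball, it is enough to consider bodies without inward points above
the level. -/
theorem pind (hdim : 3 ≤ Module.finrank ℝ V) {F φ : V → ℝ} {c : ℝ}
    (hbase : ∀ g φ' : V → ℝ, PClass g φ' c ∅ → PLow g φ' F φ c → PSides g → IsBall g)
    {f φ₁ : V → ℝ} {P : Finset V} (hf : PClass f φ₁ c P) (hp : PLow f φ₁ F φ c) (hs : PSides f) :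
    IsBall f := by
  have key : ∀ (n : ℕ) (P : Finset V) (f φ₁ : V → ℝ), P.card = n → PClass f φ₁ c P →
      PLow f φ₁ F φ c → PSides f → IsBall f := by
    intro n
    induction n using Nat.strong_induction_on with
    | _ n ih =>
      intro P f φ₁ hn hf hp hs
      rcases P.eq_empty_or_nonempty with hP | hP
      · subst hP
        exact hbase f φ₁ hf hp hs
      · obtain ⟨p, hpP, htop⟩ := Finset.exists_max_image P φ₁ hP
        obtain ⟨Φ, Ψ, e, κ, r₀, hd, hl, hf', hlow, hfix⟩ := pdif hf hpP
        rw [← isBall_comp_dif hd]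
        have hs' := hs.comp_dif hd
        have htop' : ∀ q ∈ P, (fun x => φ₁ (Φ x)) q ≤ (fun x => φ₁ (Φ x)) p := by
          intro q hq
          show φ₁ (Φ q) ≤ φ₁ (Φ p)
          rw [hfix q hq, hfix p hpP]
          exact htop q hq
        obtain ⟨g, μ, r, hr, hfg, hg, hgf, hmod⟩ := pmodel hl hf' hpP
        have hgs := hs'.hom hdim hfg
        refine Hom.trans hfg ?_
        rcases hmod with ⟨B, hm⟩ | ⟨u, B, a, hm⟩
        · exact pcap hg hpP htop' (hl.mono hm.hr hr) hm hgs.conn
        · obtain ⟨A, C, PA, PC, q, ℓ, hA, hC, hPA, hPC, hAs, hCs, hdisj, hℓ, hflatA,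
            hflatC, hs', hρ, hAg, hCg⟩ := pcut hdim hg hpP htop' (hl.mono hm.hr hr) hm hgs
          have hAb : IsBall A := ih _ (by omega) PA A _ rfl hA
            (((hAg.trans hgf).trans hlow).trans hp) hAs
          have hCb : IsBall C := ih _ (by omega) PC C _ rfl hC
            (((hCg.trans hgf).trans hlow).trans hp) hCs
          have hρ' := glue hAb hC.good hdisj hm.hu hℓ hflatA hflatC hs'
          obtain ⟨ρ, h1, h2⟩ := (hρ.and hρ').exists
          exact (h1.trans h2).trans hCb
  exact key _ P f φ₁ rfl hf hp hs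

end Pool.Schoen
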