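import Pool.Agent.H.MP_6c077c_gt.Ph.PClose
import Pool.Agent.H.MP_6c077c_gt.Ph.PInd
import Pool.Agent.H.MP_6c077c_gt.Ph.PBall
import Pool.Agent.H.MP_6c077c_gt.Lz.Sard

/-! Outer normals: the theorem on the outer normals through a point. -/

set_option autoImplicit false

namespace Pool.Schoen

open Filter Set
open scoped Topology RealInnerProductSpace ContDiff

variable {V : Type*} [NormedAddCommGroup V] [InnerProductSpace ℝ V]

theorem sq_smooth (o : V) : ContDiff ℝ ∞ fun y : V => ‖y - o‖ ^ 2 :=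
  (contDiff_norm_sq ℝ).comp (contDiff_id.sub contDiff_const)

theorem sq_fderiv (o x v : V) : fderiv ℝ (fun y : V => ‖y - o‖ ^ 2) x v = 2 * ⟪x - o, v⟫ := by
  have h1 : HasFDerivAt (fun y : V => y - o) (ContinuousLinearMap.id ℝ V) x :=
    (hasFDerivAt_id x).sub_const o
  have h2 := (hasStrictFDerivAt_norm_sq (x - o)).hasFDerivAt
  have h3 := (HasFDerivAt.comp (g := fun z : V => ‖z‖ ^ 2) x h2 h1).fderiv
  have h4 : fderiv ℝ (fun y : V => ‖y - o‖ ^ 2) x = _ := h3
  rw [h4]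
  simp only [ContinuousLinearMap.comp_apply, smul_apply, innerSL_apply_apply, nsmul_eq_mul,
    ContinuousLinearMap.id_apply]
  push_cast
  ring

theorem sq_hess (o x u w : V) : hess (fun y : V => ‖y - o‖ ^ 2) x u w = 2 * ⟪u, w⟫ := by
  unfold hess
  have h1 : fderiv ℝ (fun y : V => ‖y - o‖ ^ 2) = fun x => (2 : ℝ) • innerSL ℝ (x - o) := by
    funext y
    ext v
    rw [sq_fderiv]
    rfl
  rw [h1]
  have h2 : HasFDerivAt (fun y : V => innerSL ℝ (y - o)) (innerSL ℝ) x := by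
    have h3 : HasFDerivAt (fun y : V => y - o) (ContinuousLinearMap.id ℝ V) x :=
      (hasFDerivAt_id x).sub_const o
    have h4 := (innerSL ℝ (E := V)).hasFDerivAt.comp x h3
    rwa [ContinuousLinearMap.comp_id] at h4
  have h5 : HasFDerivAt (fun y : V => (2 : ℝ) • innerSL ℝ (y - o))
      ((2 : ℝ) • (innerSL ℝ : V →L[ℝ] V →L[ℝ] ℝ)) x := h2.fun_const_smul 2
  rw [h5.fderiv]
  rfl

variable [FiniteDimensional ℝ V]

/-- At no point `x` of the hypersurface whose outer normal points to `o` there are two principal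
curvatures (for the outer normal, positive for spheres) which are at most `-1 / ‖x - o‖`. -/
def NoFocal (F : V → ℝ) (o : V) : Prop :=
  ∀ (x : V) (m : ℝ), F x = 0 → 0 < m → gradient F x = m • (o - x) → ¬ ∃ U : Submodule ℝ V,
    Module.finrank ℝ U = 2 ∧ ∀ u ∈ U, ⟪gradient F x, u⟫ = 0 ∧ hess F x u u ≤ -(m * ‖u‖ ^ 2)

private theorem PFinal_grad (F : V → ℝ) (x w : V) : fderiv ℝ F x w = ⟪gradient F x, w⟫ := by
  rw [gradient, InnerProductSpace.toDual_symm_apply]

/-- The theorem on the outer normals through a point off the hypersurface. -/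
theorem outer_normals_ball (hdim : 3 ≤ Module.finrank ℝ V) {F : V → ℝ} (hF : ContDiff ℝ ∞ F)
    (hb : Bornology.IsBounded {x | F x ≤ 0}) (hreg : ∀ x, F x = 0 → gradient F x ≠ 0)
    (hs : PSides F) {o : V} (ho : F o ≠ 0) (h : NoFocal F o) : IsBall F := by
  have : ProperSpace V := FiniteDimensional.proper ℝ V
  obtain ⟨n, hn⟩ : ∃ n, Module.finrank ℝ V = n + 1 := ⟨Module.finrank ℝ V - 1, by omega⟩
  have hK : IsCompact {x | F x = 0} :=
    Metric.isCompact_of_isClosed_isBounded (isClosed_eq hF.continuous continuous_const)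
      (hb.subset fun x hx => le_of_eq hx)
  obtain ⟨R, hR0, hR⟩ : ∃ R : ℝ, 0 < R ∧ ∀ x, F x = 0 → ‖x‖ ≤ R := by
    obtain ⟨R, hR⟩ := hK.isBounded.exists_norm_le
    exact ⟨max R 1, lt_of_lt_of_le one_pos (le_max_right _ _),
      fun x hx => (hR x hx).trans (le_max_left _ _)⟩
  -- a ball around `o` without zeros
  obtain ⟨r, hr0, hr⟩ : ∃ r : ℝ, 0 < r ∧ ∀ x, ‖x - o‖ ≤ 2 * r → F x ≠ 0 := by
    obtain ⟨r, hr0, hr⟩ := Metric.eventually_nhds_iff.1
      (hF.continuous.continuousAt.eventually_ne ho)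
    refine ⟨r / 4, by positivity, fun x hx => hr ?_⟩
    rw [dist_eq_norm]
    linarith
  set φ : V → ℝ := fun y => ‖y - o‖ ^ 2 with hφdef
  have hφ : ContDiff ℝ ∞ φ := sq_smooth o
  have hxo : ∀ x, F x = 0 → x - o ≠ 0 := by
    intro x hx h0
    rw [sub_eq_zero.1 h0] at hx
    exact ho hx
  obtain ⟨δ, hδ0, hδ⟩ := pclose hF hφ hK hreg (c := -1)
    (fun x hx _ h0 => by
      have h1 := sq_fderiv o x (x - o)
      rw [show fderiv ℝ (fun y : V => ‖y - o‖ ^ 2) x = 0 from h0] at h1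
      have h2 : (0 : V →L[ℝ] ℝ) (x - o) = 0 := rfl
      rw [h2, real_inner_self_eq_norm_sq] at h1
      have h3 : 0 < ‖x - o‖ := norm_pos_iff.2 (hxo x hx)
      have h4 : 0 < ‖x - o‖ ^ 2 := by positivity
      linarith)
    (fun x μ hx _ hin => by
      rintro ⟨U, hU2, hU⟩
      obtain ⟨hμ, hg⟩ := hin
      have hgr : gradient F x = (2 * μ) • (o - x) := by
        refine ext_inner_right ℝ fun w => ?_
        rw [← PFinal_grad F x w, hg w, sq_fderiv, real_inner_smul_left, ← neg_sub x o, inner_neg_left]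
        ring
      refine h x (2 * μ) hx (by positivity) hgr ⟨U, hU2, fun u hu => ?_⟩
      obtain ⟨h1, h2⟩ := hU u hu
      constructor
      · rw [← PFinal_grad, hg u, h1, mul_zero, neg_zero]
      · rw [sq_hess, real_inner_self_eq_norm_sq] at h2
        linarith)
  obtain ⟨a, ha, hgen⟩ := exists_generic n hn hF hφ hreg hK
    (show 0 < min δ (min (2 * r) (1 / R)) by positivity)
  have ha1 : ‖a‖ < δ := ha.trans_le (min_le_left _ _)
  have ha2 : ‖a‖ < 2 * r := ha.trans_le ((min_le_right _ _).trans (min_le_left _ _))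
  have ha3 : ‖a‖ < 1 / R := ha.trans_le ((min_le_right _ _).trans (min_le_right _ _))
  have ha4 : ‖a‖ * R ≤ 1 := by
    rw [lt_div_iff₀ hR0] at ha3
    exact ha3.le
  obtain ⟨o', ho'⟩ : ∃ o' : V, o' = o - (1 / 2 : ℝ) • a := ⟨_, rfl⟩
  have hoo : ‖o' - o‖ ≤ r := by
    rw [ho', sub_sub_cancel_left, norm_neg, norm_smul, Real.norm_of_nonneg (by norm_num)]
    linarith
  have hF' : ∀ x, ‖x - o'‖ ≤ r → F x ≠ 0 := by
    intro x hx
    apply hr
    have h1 := norm_add_le (x - o') (o' - o)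
    rw [sub_add_sub_cancel] at h1
    linarith
  have hfd : ∀ x v, fderiv ℝ (fun y : V => ‖y - o'‖ ^ 2) x v = fderiv ℝ φ x v + ⟪a, v⟫ := by
    intro x v
    rw [sq_fderiv, hφdef, sq_fderiv, ho', ← sub_add, inner_add_left, real_inner_smul_left]
    ring
  have hfd' : ∀ x v, fderiv ℝ (fun y => φ y + ⟪a, y⟫) x v =
      fderiv ℝ (fun y : V => ‖y - o'‖ ^ 2) x v := by
    intro x v
    rw [hfd, lin_fderiv_apply hφ]
  have hcl : ∃ P : Finset V, PClass F (fun y : V => ‖y - o'‖ ^ 2) (r ^ 2) P := by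
    refine pclass_of_generic hF (sq_smooth o') hb hreg ?_ ?_ ?_ ?_
    · intro x _ hx h0
      have h1 := sq_fderiv o' x (x - o')
      rw [h0] at h1
      have h2 : (0 : V →L[ℝ] ℝ) (x - o') = 0 := rfl
      rw [h2, real_inner_self_eq_norm_sq] at h1
      have h4 : 0 < r ^ 2 := by positivity
      linarith
    · intro x μ hx hxr _
      refine hF' x ?_ hx
      rw [← sq_le_sq₀ (norm_nonneg _) hr0.le]
      exact hxr.le
    · intro x μ hx _ hin w hw hww
      by_contra hw0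
      obtain ⟨hμ, hg⟩ := hin
      have hker : ∀ v, fderiv ℝ F x v = 0 ↔ fderiv ℝ (fun y : V => ‖y - o'‖ ^ 2) x v = 0 := by
        intro v
        rw [hg v, neg_eq_zero, mul_eq_zero]
        exact ⟨fun h1 => h1.resolve_left hμ.ne', fun h1 => Or.inr h1⟩
      obtain ⟨w', hw', hne⟩ := hgen x hx μ⁻¹ (inv_pos.2 hμ) (fun v => by
        rw [← hfd, hg v]
        field_simp) w hw0 ((hker w).2 hw)
      apply hne
      have h1 := hww w' ((hker w').1 hw')
      rw [sq_hess] at h1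
      rw [hφdef, sq_hess]
      have h2 : μ⁻¹ * (hess F x w w' + μ * (2 * ⟪w, w'⟫)) = 0 := by rw [h1, mul_zero]
      rw [mul_add, ← mul_assoc, inv_mul_cancel₀ hμ.ne', one_mul] at h2
      linarith
    · intro x μ hx _ hin
      rintro ⟨U, hU2, hU⟩
      refine hδ a ha1 x μ hx ?_ ⟨hin.1, fun v => by rw [hfd' x v]; exact hin.2 v⟩
        ⟨U, hU2, fun u hu hu0 => ?_⟩
      · have h1 := abs_real_inner_le_norm a x
        have h2 : ‖a‖ * ‖x‖ ≤ ‖a‖ * R := mul_le_mul_of_nonneg_left (hR x hx) (norm_nonneg _)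
        have h3 := (abs_le.1 h1).1
        have h4 : 0 ≤ ‖x - o‖ ^ 2 := by positivity
        show -1 ≤ ‖x - o‖ ^ 2 + ⟪a, x⟫
        linarith
      · obtain ⟨h1, h2⟩ := hU u hu hu0
        refine ⟨by rw [hfd' x u]; exact h1, ?_⟩
        rw [lin_hess hφ, hφdef, sq_hess]
        rw [sq_hess] at h2
        exact h2
  obtain ⟨P, hP⟩ := hcl
  exact pind hdim (fun g φ' hg hl hgs => pball hr0 hF' hg hl hgs.conn) hP (PLow.rfl' _ _ _) hs

end Pool.Schoen
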