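import Pool.Agent.H.MP_6c077c_gt.Ph.PBasic
import Pool.Agent.H.MP_6c077c_gt.Ph.PIdx

/-! Outer normals: a smooth function in general position belongs to the class. -/

set_option autoImplicit false

namespace Pool.Schoen

open Filter Set
open scoped Topology RealInnerProductSpace ContDiff

variable {V : Type*} [NormedAddCommGroup V] [InnerProductSpace ℝ V] [FiniteDimensional ℝ V]

/-- At `x` the derivative of `F` is `-μ` times the derivative of `φ`, `μ > 0`. -/
def InwardP (F φ : V → ℝ) (x : V) (μ : ℝ) : Prop :=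
  0 < μ ∧ ∀ v, fderiv ℝ F x v = -(μ * fderiv ℝ φ x v)

/-- PROOF. Let `P` be the set of zeros `x` of `F` with `c ≤ φ x` at which some `μ` has `InwardP F φ x μ`
(`μ` is unique as `Dφ x ≠ 0`).
(1) `InwP F φ x`: linear algebra, the symmetric form `D²F + μ D²φ` on the hyperplane `ker Dφ x` is
nondegenerate (`hnd`) and has no two-dimensional negative subspace (`hidx`); diagonalise it (as `idx_of_gaussK`,
`inw_of_idx`, `inw_of_not_twoNeg` in `IxB`, `Gd/Index`; or apply those to the form directly).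
(2) `P` is finite: it is compact (`μ` is bounded above and below on it) and its points are isolated: the map
`(x, l) ↦ (∇φ x + l • ∇F x, F x)` of `V × ℝ` is injective near `(x, μ⁻¹)` as its derivative is injective
(`hnd`); see `IxB/Isol.lean`.
(3) a zero `x` of `F`, `c ≤ φ x`, not in `P`: `DF x` and `Dφ x` are nonzero and `DF x` is not a negative
multiple of `Dφ x`, so there is `v` with `DF x v < 0`, `Dφ x v < 0` (`v = -(‖∇φ‖ • ∇F + ‖∇F‖ • ∇φ)`).
(4) `Good F`: `good_of_regular` (Ix/HomB). -/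
theorem pclass_of_generic {F φ : V → ℝ} (hF : ContDiff ℝ ∞ F) (hφ : ContDiff ℝ ∞ φ)
    (hb : Bornology.IsBounded {x | F x ≤ 0}) (hreg : ∀ x, F x = 0 → gradient F x ≠ 0) {c : ℝ}
    (hr : ∀ x, F x ≤ 0 → c ≤ φ x → fderiv ℝ φ x ≠ 0)
    (hc : ∀ x μ, F x = 0 → φ x = c → ¬ InwardP F φ x μ)
    (hnd : ∀ x μ, F x = 0 → c < φ x → InwardP F φ x μ → ∀ w, fderiv ℝ φ x w = 0 →
      (∀ w', fderiv ℝ φ x w' = 0 → hess F x w w' + μ * hess φ x w w' = 0) → w = 0)
    (hidx : ∀ x μ, F x = 0 → c < φ x → InwardP F φ x μ → ¬ ∃ U : Submodule ℝ V,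
      Module.finrank ℝ U = 2 ∧ ∀ u ∈ U, u ≠ 0 → fderiv ℝ φ x u = 0 ∧
        hess F x u u + μ * hess φ x u u < 0) :
    ∃ P : Finset V, PClass F φ c P := by
  have hcx : ∀ x μ, RelCrit F φ μ x → φ x ≠ c := fun x μ h h0 => hc x μ h.1 h0 ⟨h.2.1, h.2.2⟩
  refine pclass_of_nondeg hF hφ hb hreg c hr (fun x μ h hx => ?_) (fun x μ h hx => ?_) hcx
  · exact hnd x μ h.1 (lt_of_le_of_ne hx (hcx x μ h).symm) ⟨h.2.1, h.2.2⟩
  · exact hidx x μ h.1 (lt_of_le_of_ne hx (hcx x μ h).symm) ⟨h.2.1, h.2.2⟩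

end Pool.Schoen
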