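import Pool.Agent.H.MP_6c077c_gt.Ph.PDefs

/-! Outer normals: general position. -/

set_option autoImplicit false

namespace Pool.Schoen

open Filter Set
open scoped Topology RealInnerProductSpace ContDiff

variable {V : Type*} [NormedAddCommGroup V] [InnerProductSpace ℝ V] [FiniteDimensional ℝ V]

/-- PROOF. The map `G (x, l) = (-(∇φ x + l • ∇F x), F x)` of `V × ℝ` to itself is smooth, so the image of
the set of points where its derivative is not injective (determinant zero) has measure zero
(`MeasureTheory.addHaar_image_eq_zero_of_det_fderiv_eq_zero` for an additive Haar measure on `V × ℝ`), so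
there is `(a, s)` near `(0, 0)` outside of it. If `F x = s` and `∇φ x + a + l • ∇F x = 0`, then
`G (x, l) = (a, s)`, so the derivative at `(x, l)` is injective. If `w` is orthogonal to `∇F x` and
`D²φ (w, w') + l D²F (w, w') = 0` for all `w'` orthogonal to `∇F x`, then the vector
`D²φ w + l D²F w` is a multiple `-t • ∇F x`, so `DG (w, t) = 0`, so `w = 0`. (If `∇F x = 0` this is also
right: then `D²φ w + l D²F w = 0`, take `t = 0`.) -/
theorem psard {F φ : V → ℝ} (hF : ContDiff ℝ ∞ F) (hφ : ContDiff ℝ ∞ φ) {δ : ℝ} (hδ : 0 < δ) :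
    ∃ (a : V) (s : ℝ), ‖a‖ < δ ∧ |s| < δ ∧ ∀ (x : V) (l : ℝ), F x = s →
      gradient φ x + a + l • gradient F x = 0 → ∀ w, ⟪gradient F x, w⟫ = 0 →
      (∀ w', ⟪gradient F x, w'⟫ = 0 → hess φ x w w' + l * hess F x w w' = 0) → w = 0 := by
  sorry

end Pool.Schoen
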