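import Pool.Agent.H.MP_6c077c_gt.Ph.PBasic

/-! Outer normals: truncation and parts in the relative class of `φ` (copy of `Gd/RTrunc.lean`). -/

set_option autoImplicit false

namespace Pool.Schoen

open Filter Set
open scoped Topology RealInnerProductSpace ContDiff

variable {V : Type*} [NormedAddCommGroup V] [InnerProductSpace ℝ V]

private theorem PTrunc_near {f φ : V → ℝ} (hf : Continuous f) (hφ : ContDiff ℝ ∞ φ) {κ s : ℝ}
    (hκ : 0 < κ) {x : V} (hx : f x = 0) (h : φ x < s) : f =ᶠ[𝓝 x] ptrunc f φ κ s := by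
  have h1 : κ * (φ x - s) < f x := by
    rw [hx]
    exact mul_neg_of_pos_of_neg hκ (by linarith)
  filter_upwards [(phi_cont hφ κ s).continuousAt.eventually_lt hf.continuousAt h1] with y hy
  unfold ptrunc
  exact (max_eq_left hy.le).symm

private theorem PTrunc_val {f φ : V → ℝ} {κ s : ℝ} (hκ : 0 < κ) {x : V}
    (hx : ptrunc f φ κ s x = 0) (h0 : f x ≠ 0) : f x < 0 ∧ κ * (φ x - s) = 0 ∧ φ x = s := by
  have h1 : f x ≤ 0 := by
    rw [← hx]
    exact le_max_left _ _
  have h2 : f x < 0 := lt_of_le_of_ne h1 h0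
  have h3 : κ * (φ x - s) = 0 := by
    unfold ptrunc at hx
    rcases max_choice (f x) (κ * (φ x - s)) with h4 | h4
    · rw [h4] at hx
      exact absurd hx h0
    · rw [h4] at hx
      exact hx
  refine ⟨h2, h3, ?_⟩
  rcases mul_eq_zero.1 h3 with h4 | h4
  · exact absurd h4 hκ.ne'
  · linarith

private theorem PTrunc_free {f φ : V → ℝ} (hf : Continuous f) (hφ : ContDiff ℝ ∞ φ) {κ s : ℝ}
    (hκ : 0 < κ) {x : V} (hx : ptrunc f φ κ s x = 0) (hr : f x ≤ 0 → fderiv ℝ φ x ≠ 0)
    (h : f x = 0 → FreeP f φ x) : FreeP (ptrunc f φ κ s) φ x := by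
  by_cases h0 : f x = 0
  · obtain ⟨v, hv, hv'⟩ := h h0
    exact ⟨v, desc1_max hv (desc1_phi hφ hκ s hv'), hv'⟩
  · obtain ⟨h2, h3, -⟩ := PTrunc_val hκ hx h0
    obtain ⟨v, hv⟩ := exists_down (hr h2.le)
    refine ⟨v, ?_, hv⟩
    exact desc1_max_right hf.continuousAt (phi_cont hφ κ s).continuousAt (desc1_phi hφ hκ s hv)
      (by rw [h3]; exact h2)

/-- Below the level of truncation the zeros are the zeros of `f`. -/
private theorem PTrunc_zero {f φ : V → ℝ} {κ s : ℝ} (hκ : 0 < κ) {x : V} (h : φ x < s) :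
    ptrunc f φ κ s x = 0 ↔ f x = 0 := by
  have h1 : κ * (φ x - s) < 0 := mul_neg_of_pos_of_neg hκ (by linarith)
  unfold ptrunc
  constructor
  · intro hx
    rcases max_choice (f x) (κ * (φ x - s)) with h5 | h5
    · rw [h5] at hx
      exact hx
    · rw [h5] at hx
      linarith
  · intro hx
    rw [hx]
    exact max_eq_left h1.le

theorem ptrunc_class {f φ : V → ℝ} {c : ℝ} {P : Finset V} (hf : PClass f φ c P) {κ s : ℝ}
    (hκ : 0 < κ) (hcs : c ≤ s) (hs : ∀ p ∈ P, φ p < s) : PClass (ptrunc f φ κ s) φ c P := by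
  have hle : ∀ x, ptrunc f φ κ s x ≤ 0 → f x ≤ 0 := fun x hx => (le_max_left _ _).trans hx
  have hinw : ∀ p ∈ P, InwP (ptrunc f φ κ s) φ p := fun p hp =>
    (hf.inw p hp).congr (PTrunc_near hf.good.cont hf.sm hκ (hf.inw p hp).zero (hs p hp))
      EventuallyEq.rfl
  have hfree : ∀ x, ptrunc f φ κ s x = 0 → c ≤ φ x → x ∉ P → FreeP (ptrunc f φ κ s) φ x :=
    fun x hx hxc hP => PTrunc_free hf.good.cont hf.sm hκ hx (fun h => hf.reg x h hxc)
      fun h0 => hf.free x h0 hxc hP
  refine ⟨hf.sm, ?_, ⟨?_, ?_, ?_⟩, hinw, hf.high, hfree, fun x hx hxc => hf.reg x (hle x hx) hxc⟩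
  · exact hf.bdd.subset fun x hx => hle x hx
  · exact hf.good.cont.max (phi_cont hf.sm κ s)
  · exact hf.bdd.subset fun x hx => hle x (le_of_eq hx)
  · intro x hx
    by_cases hP : x ∈ P
    · exact (hinw x hP).desc
    · rcases le_or_gt c (φ x) with hc | hc
      · obtain ⟨v, hv, -⟩ := hfree x hx hc hP
        exact ⟨v, hv⟩
      · have h1 : φ x < s := hc.trans_le hcs
        have h2 : f x = 0 := (PTrunc_zero hκ h1).1 hx
        obtain ⟨v, hv⟩ := hf.good.desc x h2
        exact ⟨v, hv.congr (PTrunc_near hf.good.cont hf.sm hκ h2 h1)⟩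

private theorem PTrunc_fam {f φ : V → ℝ} {c : ℝ} {P : Finset V}
    (hf : PClass f φ c P) {κ s S : ℝ} (hκ : 0 < κ) (hcs : c ≤ s) (hs : ∀ p ∈ P, φ p < s) {t : ℝ}
    (hst : s ≤ t) {x : V} (hx : ptrunc f φ κ t x = 0) :
    ∃ v, Desc (fun σ => ptrunc f φ κ σ) (𝓝[Icc s S] t) x v := by
  have hK : ∀ v, fderiv ℝ φ x v < 0 →
      Desc (fun (σ : ℝ) (y : V) => κ * (φ y - σ)) (𝓝[Icc s S] t) x v := by
    intro v hv
    have h := desc_add_const ((desc1_phi (x := x) hf.sm hκ 0 hv).const (𝓝[Icc s S] t))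
      (fun σ => -(κ * σ))
    refine h.congr (Eventually.of_forall fun p => ?_)
    ring
  have hlow : f x = 0 → φ x < s → ∀ v, Desc1 f x v →
      Desc (fun σ => ptrunc f φ κ σ) (𝓝[Icc s S] t) x v := by
    intro h0 hlt v hv
    refine desc_max_left (H := fun _ => f) (K := fun σ y => κ * (φ y - σ)) (hv.const _) ?_
    have h1 : κ * (φ x - s) < f x := by
      rw [h0]
      exact mul_neg_of_pos_of_neg hκ (by linarith)
    have h2 : ∀ᶠ y in 𝓝 x, κ * (φ y - s) < f y :=
      (phi_cont hf.sm κ s).continuousAt.eventually_lt hf.good.cont.continuousAt h1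
    have h3 : ∀ᶠ σ in 𝓝[Icc s S] t, σ ∈ Icc s S := self_mem_nhdsWithin
    filter_upwards [h3.prod_mk h2] with p hp
    have h4 : κ * s ≤ κ * p.1 := mul_le_mul_of_nonneg_left hp.1.1 hκ.le
    have h5 : κ * (φ p.2 - s) < f p.2 := hp.2
    show κ * (φ p.2 - p.1) ≤ f p.2
    rw [mul_sub] at h5 ⊢
    linarith
  by_cases h0 : f x = 0
  · by_cases hP : x ∈ P
    · obtain ⟨v, hv⟩ := (hf.inw x hP).desc
      exact ⟨v, hlow h0 (hs x hP) v hv⟩
    · rcases le_or_gt c (φ x) with hc | hc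
      · obtain ⟨v, hv, hv'⟩ := hf.free x h0 hc hP
        exact ⟨v, desc_max (hv.const _) (hK v hv')⟩
      · obtain ⟨v, hv⟩ := hf.good.desc x h0
        exact ⟨v, hlow h0 (hc.trans_le hcs) v hv⟩
  · obtain ⟨h2, h3, h3'⟩ := PTrunc_val hκ hx h0
    obtain ⟨v, hv⟩ := exists_down (hf.reg x h2.le (by rw [h3']; exact hcs.trans hst))
    refine ⟨v, desc_max_right (H := fun _ => f) (K := fun σ y => κ * (φ y - σ)) (hK _ hv) ?_⟩
    have hc : Continuous fun p : ℝ × V => κ * (φ p.2 - p.1) :=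
      continuous_const.mul ((hf.sm.continuous.comp continuous_snd).sub continuous_fst)
    have hc2 : Continuous fun p : ℝ × V => f p.2 := hf.good.cont.comp continuous_snd
    have h6 : ∀ᶠ p in 𝓝 (t, x), f p.2 < κ * (φ p.2 - p.1) :=
      hc2.continuousAt.eventually_lt hc.continuousAt (by
        show f x < κ * (φ x - t)
        rw [h3]
        exact h2)
    rw [nhds_prod_eq] at h6
    exact (h6.filter_mono (Filter.prod_mono nhdsWithin_le_nhds le_rfl)).mono fun p hp => hp.le

theorem ptrunc_hom [FiniteDimensional ℝ V] {f φ : V → ℝ} {c : ℝ} {P : Finset V}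
    (hf : PClass f φ c P) {κ s : ℝ} (hκ : 0 < κ) (hcs : c ≤ s) (hs : ∀ p ∈ P, φ p < s) :
    Hom f (ptrunc f φ κ s) := by
  have : ProperSpace V := FiniteDimensional.proper ℝ V
  obtain ⟨R, hR⟩ := hf.bdd.exists_norm_le
  obtain ⟨R', hR'⟩ : ∃ R' : ℝ, ∀ x, f x ≤ 0 → φ x ≤ R' := by
    obtain ⟨R', hR'⟩ := (isCompact_closedBall (0 : V) R).exists_bound_of_continuousOn
      hf.sm.continuous.continuousOn
    refine ⟨R', fun x hx => ?_⟩
    have h1 := hR' x (by
      rw [Metric.mem_closedBall, dist_zero_right]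
      exact hR x hx)
    exact (le_abs_self _).trans h1
  obtain ⟨S, hsS, hRS⟩ : ∃ S, s ≤ S ∧ R' < S :=
    ⟨max s (R' + 1), le_max_left _ _, lt_of_lt_of_le (by linarith) (le_max_right _ _)⟩
  have hneg : ∀ x, f x ≤ 0 → κ * (φ x - S) < 0 := fun x hx =>
    mul_neg_of_pos_of_neg hκ (by linarith [hR' x hx])
  have h1 : Hom f (ptrunc f φ κ S) := by
    apply Hom.of_eq_near' hf.good (hf.good.cont.max (phi_cont hf.sm κ S))
    · intro x hx
      have h2 : f x ≤ 0 := by
        rcases hx with h | h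
        · exact h.le
        · exact (le_max_left (f x) (κ * (φ x - S))).trans (le_of_eq h)
      have h3 := hR' x h2
      have h4 : f x = 0 := by
        rcases hx with h | h
        · exact h
        · rcases max_choice (f x) (κ * (φ x - S)) with h5 | h5
          · rw [h5] at h
            exact h
          · rw [h5] at h
            linarith [hneg x h2]
      exact PTrunc_near hf.good.cont hf.sm hκ h4 (by linarith)
    · intro x hx hx'
      rcases lt_or_gt_of_ne hx with h | h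
      · have h4 : max (f x) (κ * (φ x - S)) < 0 := max_lt h (hneg x h.le)
        exact mul_pos_of_neg_of_neg h h4
      · exact mul_pos h (lt_of_lt_of_le h (le_max_left _ _))
  have h2 : Hom (ptrunc f φ κ s) (ptrunc f φ κ S) := by
    apply Hom.of_family hsS (fun σ => ptrunc f φ κ σ)
    · refine Continuous.continuousOn ?_
      exact (hf.good.cont.comp continuous_snd).max
        (continuous_const.mul ((hf.sm.continuous.comp continuous_snd).sub continuous_fst))
    · exact ⟨R, fun t _ x hx => hR x ((le_max_left (f x) (κ * (φ x - t))).trans (le_of_eq hx))⟩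
    · intro t ht x hx
      exact PTrunc_fam hf hκ hcs hs ht.1 hx
  exact h1.trans h2.symm

/-- Near and below `c` the truncation changes nothing. -/
theorem ptrunc_low {f φ : V → ℝ} (hf : Continuous f) (hφ : ContDiff ℝ ∞ φ) {κ c s : ℝ}
    (hκ : 0 < κ) (hcs : c < s) : PLow (ptrunc f φ κ s) φ f φ c := by
  refine ⟨fun _ => Iff.rfl, fun x hx => ⟨EventuallyEq.rfl, fun h => (le_max_left _ _).trans h,
    fun h => ?_⟩⟩
  have h1 : φ x < s := hx.trans_lt hcs
  exact (PTrunc_near hf hφ hκ ((PTrunc_zero hκ h1).1 h) h1).symm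

private theorem PTrunc_pcont {f : V → ℝ} (hf : Continuous f) (A C : Set V) :
    Continuous (partF f A C) :=
  hf.max ((Metric.continuous_infDist_pt A).sub (Metric.continuous_infDist_pt C))

theorem ppart_zero {f : V → ℝ} {A C : Set V} (hA : IsClosed A) (hC : IsClosed C)
    (hd : Disjoint A C) (hA0 : A.Nonempty) (hC0 : C.Nonempty) (h : A ∪ C = {x | f x ≤ 0}) {x : V}
    (hx : partF f A C x = 0) : x ∈ A ∧ f x = 0 := by
  have h1 : x ∈ A := (partF_le hA hC hd hA0 hC0 h x).1 hx.le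
  refine ⟨h1, ?_⟩
  have h2 : Metric.infDist x A = 0 := Metric.infDist_zero_of_mem h1
  have h3 : 0 < Metric.infDist x C :=
    (hC.notMem_iff_infDist_pos hC0).1 (Set.disjoint_left.1 hd h1)
  unfold partF at hx
  rcases max_choice (f x) (Metric.infDist x A - Metric.infDist x C) with h4 | h4
  · rw [h4] at hx
    exact hx
  · rw [h4] at hx
    linarith

theorem ppart_class {f φ : V → ℝ} {c : ℝ} {P : Finset V}
    (hf : PClass f φ c P) {A C : Set V} (hA : IsClosed A) (hC : IsClosed C)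
    (hd : Disjoint A C) (hA0 : A.Nonempty) (hC0 : C.Nonempty) (h : A ∪ C = {x | f x ≤ 0}) :
    ∃ PA ⊆ P, PClass (partF f A C) φ c PA := by
  classical
  have hnear : ∀ x ∈ A, f x = 0 → f =ᶠ[𝓝 x] partF f A C := fun x hx hx0 =>
    (partF_near hf.good.cont hC hd hC0 hx hx0).mono fun y hy => hy.symm
  refine ⟨P.filter fun p => p ∈ A, Finset.filter_subset _ _, ⟨hf.sm, ?_, ⟨?_, ?_, ?_⟩, ?_, ?_, ?_,
    ?_⟩⟩
  · refine hf.bdd.subset fun x hx => ?_
    have h1 : max (f x) (Metric.infDist x A - Metric.infDist x C) ≤ 0 := hx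
    exact (le_max_left _ _).trans h1
  · exact PTrunc_pcont hf.good.cont A C
  · exact hf.bdd.subset fun x hx => (ppart_zero hA hC hd hA0 hC0 h hx).2.le
  · intro x hx
    obtain ⟨h1, h2⟩ := ppart_zero hA hC hd hA0 hC0 h hx
    obtain ⟨v, hv⟩ := hf.good.desc x h2
    exact ⟨v, hv.congr (hnear x h1 h2)⟩
  · intro p hp
    obtain ⟨hp1, hp2⟩ := Finset.mem_filter.1 hp
    exact (hf.inw p hp1).congr (hnear p hp2 (hf.inw p hp1).zero) EventuallyEq.rfl
  · intro p hp
    exact hf.high p (Finset.mem_filter.1 hp).1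
  · intro x hx hxc hxP
    obtain ⟨h1, h2⟩ := ppart_zero hA hC hd hA0 hC0 h hx
    exact (hf.free x h2 hxc fun h3 => hxP (Finset.mem_filter.2 ⟨h3, h1⟩)).congr (hnear x h1 h2)
      EventuallyEq.rfl
  · intro x hx hxc
    have h1 : max (f x) (Metric.infDist x A - Metric.infDist x C) ≤ 0 := hx
    exact hf.reg x ((le_max_left _ _).trans h1) hxc

end Pool.Schoen
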