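import Pool.Agent.H.MP_6c077c_gt.Ph.PTrunc

/-! Concentric facing pairs: definitions. -/

set_option autoImplicit false

namespace Pool.Schoen

open Filter Set
open scoped Topology RealInnerProductSpace ContDiff

variable {V : Type*} [NormedAddCommGroup V] [InnerProductSpace ℝ V]

/-- The two-sided relative class of `φ`: above `b` there are finitely many inward points for `φ`, all
of relative index at most one, below `a` finitely many inward points for `-φ`, all of relative index at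
most one, and all other zeros are free (in both directions between `a` and `b`). -/
structure PTwo (f φ : V → ℝ) (a b : ℝ) (P Q : Finset V) : Prop where
  sm : ContDiff ℝ ∞ φ
  bdd : Bornology.IsBounded {x | f x ≤ 0}
  good : Good f
  inwP : ∀ p ∈ P, InwP f φ p
  inwQ : ∀ q ∈ Q, InwP f (fun x => -φ x) q
  highP : ∀ p ∈ P, b < φ p
  lowQ : ∀ q ∈ Q, φ q < a
  freeP : ∀ x, f x = 0 → a ≤ φ x → x ∉ P → FreeP f φ x
  freeQ : ∀ x, f x = 0 → φ x ≤ b → x ∉ Q → FreeP f (fun x => -φ x) x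
  reg : ∀ x, f x ≤ 0 → fderiv ℝ φ x ≠ 0

/-- Between the levels `a` and `b` nothing has changed. -/
def PMid (g φ' f φ : V → ℝ) (a b : ℝ) : Prop :=
  (∀ x, (a ≤ φ' x ∧ φ' x ≤ b) ↔ (a ≤ φ x ∧ φ x ≤ b)) ∧
    ∀ x, a ≤ φ x → φ x ≤ b → φ' =ᶠ[𝓝 x] φ ∧ (g x ≤ 0 → f x ≤ 0) ∧ (g x = 0 → g =ᶠ[𝓝 x] f)

/-- The part of the body between the levels `t₁` and `t₂` of `φ`. -/
def pshell (f φ : V → ℝ) (t₁ t₂ : ℝ) (x : V) : ℝ := max (max (f x) (φ x - t₂)) (t₁ - φ x)

/-- A body in the shell `t₁ ≤ ‖x - o‖ ^ 2 ≤ t₂`, free downwards except at the bottom, and free upwards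
except at the top. -/
structure Shell (K : V → ℝ) (o : V) (t₁ t₂ : ℝ) : Prop where
  good : Good K
  sub : ∀ x, K x ≤ 0 → t₁ ≤ ‖x - o‖ ^ 2 ∧ ‖x - o‖ ^ 2 ≤ t₂
  down : ∀ x, K x = 0 → t₁ < ‖x - o‖ ^ 2 → FreeP K (fun y => ‖y - o‖ ^ 2) x
  up : ∀ x, K x = 0 → ‖x - o‖ ^ 2 < t₂ → FreeP K (fun y => -‖y - o‖ ^ 2) x

/-- The polar-stereographic chart: `y + t • z ↦ o + e^t σ(y)`, `σ` the inverse of the stereographic
projection of the unit sphere from `z`. -/
noncomputable def polTh (z o x : V) : V :=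
  o + Real.exp ⟪z, x⟫ • ((‖orth z x‖ ^ 2 + 1)⁻¹ • ((2 : ℝ) • orth z x +
    (‖orth z x‖ ^ 2 - 1) • z))

/-- The inverse of the chart. -/
noncomputable def polPs (z o x : V) : V :=
  (‖x - o‖ - ⟪z, x - o⟫)⁻¹ • orth z (x - o) + Real.log ‖x - o‖ • z

end Pool.Schoen
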