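import Pool.Agent.H.MP_6c077c_gt.Ph.PClose
import Pool.Agent.H.MP_6c077c_gt.Lz.SardN

/-! Facing pairs for a smooth function: general position for the two-sided theorem. -/

set_option autoImplicit false

namespace Pool.Schoen

open Filter Set
open scoped Topology RealInnerProductSpace ContDiff

variable {V : Type*} [NormedAddCommGroup V] [InnerProductSpace ℝ V] [FiniteDimensional ℝ V]

/-- Nondegenerate relative critical points are finite in number. -/
theorem relCrit_finite {F φ : V → ℝ} (hF : ContDiff ℝ ∞ F) (hφ : ContDiff ℝ ∞ φ)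
    (hK : IsCompact {x | F x = 0}) (hreg : ∀ x, F x = 0 → gradient F x ≠ 0)
    (hφr : ∀ x, F x = 0 → fderiv ℝ φ x ≠ 0)
    (hnd : ∀ x μ, RelCrit F φ μ x → ∀ w, fderiv ℝ φ x w = 0 →
      (∀ w', fderiv ℝ φ x w' = 0 → hess F x w w' + μ * hess φ x w w' = 0) → w = 0) :
    {x | ∃ μ, RelCrit F φ μ x}.Finite := by
  have hfd : ∀ x, F x = 0 → fderiv ℝ F x ≠ 0 := fun x hx h0 => hreg x hx (by
    rw [gradient, h0, map_zero])
  have hF2 : Continuous (fderiv ℝ F) := (hF.fderiv_right (m := 1) (by norm_cast)).continuous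
  have hφ2 : Continuous (fderiv ℝ φ) := (hφ.fderiv_right (m := 1) (by norm_cast)).continuous
  by_contra hinf
  obtain ⟨x, hx, hacc⟩ := Set.Infinite.exists_accPt_of_subset_isCompact hinf hK fun y hy => by
    obtain ⟨μ, h⟩ := hy
    exact h.1
  have hx0 : F x = 0 := hx
  have hfr := accPt_iff_frequently_nhdsNE.1 hacc
  rcases free_or_rel (φ := φ) hx0 (hfd x hx0) (hφr x hx0) with ⟨v, h1, h2⟩ | ⟨μ, hμ⟩
  · have e1 : ∀ᶠ y in 𝓝 x, fderiv ℝ F y v < 0 :=
      (hF2.clm_apply continuous_const).continuousAt.eventually_lt_const h1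
    have e2 : ∀ᶠ y in 𝓝 x, fderiv ℝ φ y v < 0 :=
      (hφ2.clm_apply continuous_const).continuousAt.eventually_lt_const h2
    obtain ⟨y, hyZ, hy1, hy2⟩ := (hfr.and_eventually
      (nhdsWithin_le_nhds (e1.and e2))).exists
    obtain ⟨ν, -, hν, hgy⟩ := hyZ
    rw [hgy v] at hy1
    have := mul_pos_of_neg_of_neg (neg_neg_of_pos hν) hy2
    linarith
  · have h1 := relCrit_isolated hF hφ hμ (hφr x hx0) (hnd x μ hμ)
    obtain ⟨y, hyZ, hy1⟩ := (hfr.and_eventually h1).exists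
    exact hy1 hyZ

/-- At some point of the levels at least `t` the function `φ` is relatively critical from below with
two nonpositive directions. -/
def RelSad (F φ : V → ℝ) (t : ℝ) : Prop :=
  ∃ x μ, F x = 0 ∧ t ≤ φ x ∧ InwardP F φ x μ ∧ ∃ U : Submodule ℝ V, Module.finrank ℝ U = 2 ∧
    ∀ u ∈ U, fderiv ℝ φ x u = 0 ∧ hess F x u u + μ * hess φ x u u ≤ 0

omit [FiniteDimensional ℝ V] in
theorem neg_lin (φ : V → ℝ) (a : V) :
    (fun y => -(φ y + ⟪a, y⟫)) = fun y => -φ y + ⟪-a, y⟫ := by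
  funext y
  rw [inner_neg_left]
  ring

omit [FiniteDimensional ℝ V] in
theorem fderiv_neg_apply' (φ : V → ℝ) (x v : V) :
    fderiv ℝ (fun y => -φ y) x v = -fderiv ℝ φ x v := by
  have h1 : fderiv ℝ (fun y => -φ y) x = -fderiv ℝ φ x := fderiv_fun_neg
  rw [h1]
  rfl

omit [FiniteDimensional ℝ V] in
theorem hess_neg' (φ : V → ℝ) (x u v : V) : hess (fun y => -φ y) x u v = -hess φ x u v := by
  unfold hess
  have h1 : fderiv ℝ (fun y => -φ y) = fun x => -fderiv ℝ φ x := funext fun x => fderiv_fun_neg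
  have h2 : fderiv ℝ (fun x => -fderiv ℝ φ x) x = -fderiv ℝ (fderiv ℝ φ) x := fderiv_fun_neg
  rw [h1, h2]
  rfl

/-- **General position for the two-sided theorem.** -/
theorem two_perturb {F φ : V → ℝ} (hF : ContDiff ℝ ∞ F) (hφ : ContDiff ℝ ∞ φ)
    (hb : Bornology.IsBounded {x | F x ≤ 0}) (hreg : ∀ x, F x = 0 → gradient F x ≠ 0)
    (hr : ∀ x, F x ≤ 0 → fderiv ℝ φ x ≠ 0) {t : ℝ} (h1 : ¬ RelSad F φ t)
    (h2 : ¬ RelSad F (fun x => -φ x) (-t)) {ε : ℝ} (hε : 0 < ε) :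
    ∃ (a : V) (t' : ℝ) (P Q : Finset V), ‖a‖ < ε ∧ |t' - t| < ε ∧
      PClass F (fun y => φ y + ⟪a, y⟫) t' P ∧
      PClass F (fun y => -(φ y + ⟪a, y⟫)) (-t') Q := by
  have : ProperSpace V := FiniteDimensional.proper ℝ V
  have hB : IsCompact {x | F x ≤ 0} := Metric.isCompact_of_isClosed_isBounded
    (isClosed_le hF.continuous continuous_const) hb
  have hK : IsCompact {x | F x = 0} :=
    Metric.isCompact_of_isClosed_isBounded (isClosed_eq hF.continuous continuous_const)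
      (hb.subset fun x hx => le_of_eq hx)
  have hr' : ∀ x, F x ≤ 0 → fderiv ℝ (fun y => -φ y) x ≠ 0 := fun x hx h0 => hr x hx (by
    have h3 : fderiv ℝ (fun y => -φ y) x = -fderiv ℝ φ x := fderiv_fun_neg
    rwa [h3, neg_eq_zero] at h0)
  obtain ⟨m, hm0, hm⟩ : ∃ m : ℝ, 0 < m ∧ ∀ x, F x ≤ 0 → m ≤ ‖fderiv ℝ φ x‖ := by
    obtain ⟨m, hm0, hm⟩ := hB.exists_forall_le' (f := fun x => ‖fderiv ℝ φ x‖)
      (hφ.continuous_fderiv (by simp)).norm.continuousOn (a := 0)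
      (fun x hx => norm_pos_iff.2 (hr x hx))
    exact ⟨m, hm0, fun x hx => hm x hx⟩
  obtain ⟨δ₁, hδ₁, hd₁⟩ := pclose_margin hF hφ hK hreg (c := t)
    (fun x hx _ => hr x (le_of_eq hx))
    (fun x μ hx hc hin hU => h1 ⟨x, μ, hx, hc, hin, hU⟩)
  obtain ⟨δ₂, hδ₂, hd₂⟩ := pclose_margin hF hφ.neg hK hreg (c := -t)
    (fun x hx _ => hr' x (le_of_eq hx))
    (fun x μ hx hc hin hU => h2 ⟨x, μ, hx, hc, hin, hU⟩)
  obtain ⟨a, ha, hgen⟩ := sard_exists' hF hφ hreg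
    (show 0 < min (min ε m) (min δ₁ δ₂) by positivity)
  have ha1 : ‖a‖ < ε := ha.trans_le ((min_le_left _ _).trans (min_le_left _ _))
  have ha2 : ‖a‖ < m := ha.trans_le ((min_le_left _ _).trans (min_le_right _ _))
  have ha3 : ‖a‖ < δ₁ := ha.trans_le ((min_le_right _ _).trans (min_le_left _ _))
  have ha4 : ‖a‖ < δ₂ := ha.trans_le ((min_le_right _ _).trans (min_le_right _ _))
  obtain ⟨χ, hχ⟩ : ∃ χ : V → ℝ, χ = fun y => φ y + ⟪a, y⟫ := ⟨_, rfl⟩
  have hχs : ContDiff ℝ ∞ χ := by rw [hχ]; exact lin_smooth hφ a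
  have hχd : ∀ x v, fderiv ℝ χ x v = fderiv ℝ φ x v + ⟪a, v⟫ := fun x v => by
    rw [hχ, lin_fderiv_apply hφ]
  have hχh : ∀ x u v, hess χ x u v = hess φ x u v := fun x u v => by rw [hχ, lin_hess hφ]
  have hχr : ∀ x, F x ≤ 0 → fderiv ℝ χ x ≠ 0 := by
    intro x hx h0
    have h3 : fderiv ℝ φ x = -innerSL ℝ a := by
      ext v
      have h4 := hχd x v
      rw [h0] at h4
      have h5 : (0 : V →L[ℝ] ℝ) v = 0 := rfl
      rw [h5] at h4
      show fderiv ℝ φ x v = -⟪a, v⟫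
      linarith
    have h4 := hm x hx
    rw [h3, norm_neg, innerSL_apply_norm] at h4
    linarith
  -- nondegeneracy
  have hnd1 : ∀ x μ, InwardP F χ x μ → F x = 0 → ∀ w, fderiv ℝ χ x w = 0 →
      (∀ w', fderiv ℝ χ x w' = 0 → hess F x w w' + μ * hess χ x w w' = 0) → w = 0 := by
    intro x μ hin hx w hw hww
    obtain ⟨hμ, hg⟩ := hin
    have hker : ∀ v, fderiv ℝ F x v = 0 ↔ fderiv ℝ χ x v = 0 := by
      intro v
      rw [hg v, neg_eq_zero, mul_eq_zero]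
      exact ⟨fun h => h.resolve_left hμ.ne', fun h => Or.inr h⟩
    refine hgen x μ⁻¹ hx (fun v => ?_) w ((hker w).2 hw) fun w' hw' => ?_
    · rw [← hχd, hg v]
      field_simp
    · have h3 := hww w' ((hker w').1 hw')
      rw [hχh] at h3
      have h4 : μ⁻¹ * (hess F x w w' + μ * hess φ x w w') = 0 := by rw [h3, mul_zero]
      rw [mul_add, ← mul_assoc, inv_mul_cancel₀ hμ.ne', one_mul] at h4
      linarith
  have hnd2 : ∀ x μ, InwardP F (fun y => -χ y) x μ → F x = 0 → ∀ w,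
      fderiv ℝ (fun y => -χ y) x w = 0 → (∀ w', fderiv ℝ (fun y => -χ y) x w' = 0 →
        hess F x w w' + μ * hess (fun y => -χ y) x w w' = 0) → w = 0 := by
    intro x μ hin hx w hw hww
    obtain ⟨hμ, hg⟩ := hin
    have hker : ∀ v, fderiv ℝ F x v = 0 ↔ fderiv ℝ (fun y => -χ y) x v = 0 := by
      intro v
      rw [hg v, neg_eq_zero, mul_eq_zero]
      exact ⟨fun h => h.resolve_left hμ.ne', fun h => Or.inr h⟩
    refine hgen x (-μ⁻¹) hx (fun v => ?_) w ((hker w).2 hw) fun w' hw' => ?_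
    · rw [← hχd, hg v, fderiv_neg_apply']
      field_simp
    · have h3 := hww w' ((hker w').1 hw')
      rw [hess_neg', hχh] at h3
      have h4 : μ⁻¹ * (hess F x w w' + μ * -hess φ x w w') = 0 := by rw [h3, mul_zero]
      rw [mul_add, ← mul_assoc, inv_mul_cancel₀ hμ.ne', one_mul] at h4
      linarith
  have hf1 : {x | ∃ μ, RelCrit F χ μ x}.Finite :=
    relCrit_finite hF hχs hK hreg (fun x hx => hχr x (le_of_eq hx))
      fun x μ h => hnd1 x μ ⟨h.2.1, h.2.2⟩ h.1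
  have hχr' : ∀ x, F x ≤ 0 → fderiv ℝ (fun y => -χ y) x ≠ 0 := fun x hx h0 => hχr x hx (by
    have h3 : fderiv ℝ (fun y => -χ y) x = -fderiv ℝ χ x := fderiv_fun_neg
    rwa [h3, neg_eq_zero] at h0)
  have hf2 : {x | ∃ μ, RelCrit F (fun y => -χ y) μ x}.Finite :=
    relCrit_finite hF hχs.neg hK hreg (fun x hx => hχr' x (le_of_eq hx))
      fun x μ h => hnd2 x μ ⟨h.2.1, h.2.2⟩ h.1
  -- the level
  obtain ⟨t', ht1, ht2⟩ : ∃ t' ∈ Ioo (t - min ε (min δ₁ δ₂)) (t + min ε (min δ₁ δ₂)),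
      t' ∉ χ '' ({x | ∃ μ, RelCrit F χ μ x} ∪ {x | ∃ μ, RelCrit F (fun y => -χ y) μ x}) := by
    have h3 : (χ '' ({x | ∃ μ, RelCrit F χ μ x} ∪
        {x | ∃ μ, RelCrit F (fun y => -χ y) μ x})).Finite := (hf1.union hf2).image χ
    have h4 : (Ioo (t - min ε (min δ₁ δ₂)) (t + min ε (min δ₁ δ₂))).Infinite := by
      apply Set.Ioo_infinite
      have : 0 < min ε (min δ₁ δ₂) := by positivity
      linarith
    obtain ⟨t', h5, h6⟩ := (h4.diff h3).nonempty
    exact ⟨t', h5, h6⟩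
  have hε1 : min ε (min δ₁ δ₂) ≤ ε := min_le_left _ _
  have hε2 : min ε (min δ₁ δ₂) ≤ δ₁ := (min_le_right _ _).trans (min_le_left _ _)
  have hε3 : min ε (min δ₁ δ₂) ≤ δ₂ := (min_le_right _ _).trans (min_le_right _ _)
  obtain ⟨hta, htb⟩ := ht1
  obtain ⟨P, hP⟩ := pclass_of_generic hF hχs hb hreg (c := t')
    (fun x hx _ => hχr x hx)
    (fun x μ hx hxt hin => ht2 ⟨x, Or.inl ⟨μ, hx, hin.1, hin.2⟩, hxt⟩)
    (fun x μ hx _ hin => hnd1 x μ hin hx)
    (fun x μ hx hxt hin => by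
      have h3 := hd₁ a ha3 x μ hx (by
        have h4 : χ x = φ x + ⟪a, x⟫ := by rw [hχ]
        rw [← h4]
        linarith) (by rw [← hχ]; exact hin)
      rw [← hχ] at h3
      exact h3)
  obtain ⟨Q, hQ⟩ := pclass_of_generic hF hχs.neg hb hreg (c := -t')
    (fun x hx _ => hχr' x hx)
    (fun x μ hx hxt hin => ht2 ⟨x, Or.inr ⟨μ, hx, hin.1, hin.2⟩, by
      have h3 : -χ x = -t' := hxt
      linarith⟩)
    (fun x μ hx _ hin => hnd2 x μ hin hx)
    (fun x μ hx hxt hin => by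
      have e1 : (fun y => -φ y + ⟪-a, y⟫) = fun y => -χ y := by rw [hχ, neg_lin]
      have h3 := hd₂ (-a) (by rwa [norm_neg]) x μ hx (by
        have h4 : -χ x = -φ x + ⟪-a, x⟫ := by rw [hχ, inner_neg_left]; ring
        have h5 : -t' < -χ x := hxt
        rw [h4] at h5
        linarith) (by rw [e1]; exact hin)
      rw [e1] at h3
      exact h3)
  rw [hχ] at hP hQ
  exact ⟨a, t', P, Q, ha1, by rw [abs_lt]; constructor <;> linarith, hP, hQ⟩

end Pool.Schoen
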