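import Pool.Agent.H.MP_6c077c_gt.Ph.QBase
import Pool.Agent.H.MP_6c077c_gt.Ph.QGen
import Pool.Agent.H.MP_6c077c_gt.Ph.PFinal

/-! Concentric facing pairs: the theorem. -/

set_option autoImplicit false

namespace Pool.Schoen

open Filter Set
open scoped Topology RealInnerProductSpace ContDiff

variable {V : Type*} [NormedAddCommGroup V] [InnerProductSpace ℝ V]

/-- The class does not see additive constants. -/
theorem PClass.shift {f φ ψ : V → ℝ} {k c : ℝ} {P : Finset V} (h : PClass f φ c P)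
    (hψ : ∀ x, φ x = ψ x + k) : PClass f ψ (c - k) P := by
  have e0 : φ = fun x => ψ x + k := funext hψ
  have e1 : fderiv ℝ φ = fderiv ℝ ψ := by
    rw [e0]
    exact funext fun x => fderiv_add_const k
  have e2 : ∀ x u v, hess φ x u v = hess ψ x u v := by
    intro x u v
    unfold hess
    rw [e1]
  have hs : ContDiff ℝ ∞ ψ := by
    have e3 : ψ = fun x => φ x - k := funext fun x => by rw [hψ]; ring
    rw [e3]
    exact h.sm.sub contDiff_const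
  refine ⟨hs, h.bdd, h.good, fun p hp => ?_, fun p hp => ?_, fun x hx hxc hxP => ?_,
    fun x hx hxc => ?_⟩
  · have h1 := h.inw p hp
    refine ⟨h1.smooth, h1.zero, by rw [← e1]; exact h1.ne, ?_⟩
    have h2 := h1.idx
    simp only [e2, e1] at h2
    exact h2
  · have h1 := h.high p hp
    rw [hψ] at h1
    linarith
  · obtain ⟨v, hv, h1⟩ := h.free x hx (by rw [hψ]; linarith) hxP
    exact ⟨v, hv, by rw [← e1]; exact h1⟩
  · rw [← e1]
    exact h.reg x hx (by rw [hψ]; linarith)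

theorem RelSad.mono {F φ : V → ℝ} {t t' : ℝ} (h : RelSad F φ t) (ht : t' ≤ t) :
    RelSad F φ t' := by
  obtain ⟨x, μ, hx, hxt, h1⟩ := h
  exact ⟨x, μ, hx, ht.trans hxt, h1⟩

variable [FiniteDimensional ℝ V]

/-- **Concentric facing pairs.** -/
theorem concentric_ball (hdim : Module.finrank ℝ V = 4) {F : V → ℝ} (hF : ContDiff ℝ ∞ F)
    (hb : Bornology.IsBounded {x | F x ≤ 0}) (hreg : ∀ x, F x = 0 → gradient F x ≠ 0)
    (hs : PSides F) {o : V} (ho : 0 < F o) {t : ℝ} (h1 : ¬ RelSad F (fun x => ‖x - o‖ ^ 2) t)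
    (h2 : ¬ RelSad F (fun x => -‖x - o‖ ^ 2) (-t)) : IsBall F := by
  -- a ball around `o` without points of the body
  obtain ⟨r, hr0, hr⟩ : ∃ r : ℝ, 0 < r ∧ ∀ x, ‖x - o‖ ≤ r → 0 < F x := by
    obtain ⟨r, hr0, hr⟩ := Metric.eventually_nhds_iff.1
      (hF.continuous.continuousAt.eventually_const_lt ho)
    refine ⟨r / 2, by positivity, fun x hx => hr ?_⟩
    rw [dist_eq_norm]
    linarith
  obtain ⟨T, hT⟩ : ∃ T : ℝ, T = max t (r ^ 2) := ⟨_, rfl⟩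
  have hTr : r ^ 2 ≤ T := hT ▸ le_max_right _ _
  have hTt : t ≤ T := hT ▸ le_max_left _ _
  have hr2 : 0 < r ^ 2 := by positivity
  have h1' : ¬ RelSad F (fun x => ‖x - o‖ ^ 2) T := fun h => h1 (h.mono hTt)
  have h2' : ¬ RelSad F (fun x => -‖x - o‖ ^ 2) (-T) := by
    rintro ⟨x, μ, hx, hxt, h3⟩
    rcases max_choice t (r ^ 2) with h4 | h4
    · exact h2 ⟨x, μ, hx, by rw [hT, h4] at hxt; exact hxt, h3⟩
    · rw [hT, h4] at hxt
      have h5 : ‖x - o‖ ^ 2 ≤ r ^ 2 := by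
        have h6 : -r ^ 2 ≤ -‖x - o‖ ^ 2 := hxt
        linarith
      have h6 := hr x ((sq_le_sq₀ (norm_nonneg _) hr0.le).1 h5)
      linarith
  have hreg' : ∀ x, F x ≤ 0 → fderiv ℝ (fun x => ‖x - o‖ ^ 2) x ≠ 0 := by
    intro x hx h0
    have h3 := sq_fderiv o x (x - o)
    rw [h0] at h3
    have h4 : (0 : V →L[ℝ] ℝ) (x - o) = 0 := rfl
    rw [h4, real_inner_self_eq_norm_sq] at h3
    have h5 : ‖x - o‖ = 0 := by nlinarith [norm_nonneg (x - o)]
    have h6 := hr x (by rw [h5]; exact hr0.le)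
    linarith
  obtain ⟨ε, hε0, hε1, hε2, hε3⟩ : ∃ ε : ℝ, 0 < ε ∧ ε ≤ 1 ∧ ε ≤ r ^ 2 / 4 ∧
      ε * ‖o‖ ≤ r ^ 2 / 4 := by
    refine ⟨min 1 (min (r ^ 2 / 4) (r ^ 2 / (4 * (‖o‖ + 1)))), by positivity, min_le_left _ _,
      (min_le_right _ _).trans (min_le_left _ _), ?_⟩
    have h3 : min 1 (min (r ^ 2 / 4) (r ^ 2 / (4 * (‖o‖ + 1)))) ≤ r ^ 2 / (4 * (‖o‖ + 1)) :=
      (min_le_right _ _).trans (min_le_right _ _)
    calc _ ≤ r ^ 2 / (4 * (‖o‖ + 1)) * ‖o‖ := mul_le_mul_of_nonneg_right h3 (norm_nonneg _)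
      _ ≤ r ^ 2 / (4 * (‖o‖ + 1)) * (‖o‖ + 1) := by
          apply mul_le_mul_of_nonneg_left (by linarith)
          positivity
      _ = r ^ 2 / 4 := by field_simp
  obtain ⟨a, t', P, Q, ha, ht', hP, hQ⟩ := two_perturb hF (sq_smooth o) hb hreg hreg' h1' h2' hε0
  obtain ⟨o', ho'⟩ : ∃ o' : V, o' = o - (1 / 2 : ℝ) • a := ⟨_, rfl⟩
  obtain ⟨k, hk⟩ : ∃ k : ℝ, k = ⟪a, o⟫ - ‖a‖ ^ 2 / 4 := ⟨_, rfl⟩
  have hsq : ∀ x, ‖x - o‖ ^ 2 + ⟪a, x⟫ = ‖x - o'‖ ^ 2 + k := by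
    intro x
    have h3 : x - o' = (x - o) + (1 / 2 : ℝ) • a := by rw [ho']; abel
    rw [h3, norm_add_sq_real, norm_smul, mul_pow, hk, inner_smul_right,
      real_inner_comm a (x - o), inner_sub_right]
    norm_num
    ring
  have hkle : |k| ≤ r ^ 2 / 4 + r ^ 2 / 16 := by
    have h3 := abs_real_inner_le_norm a o
    have h4 : ‖a‖ * ‖o‖ ≤ ε * ‖o‖ := mul_le_mul_of_nonneg_right ha.le (norm_nonneg _)
    have h5 : ‖a‖ ^ 2 ≤ ε := by nlinarith [norm_nonneg a]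
    have h6 := abs_le.1 h3
    rw [hk, abs_le]
    constructor <;> nlinarith [norm_nonneg a, sq_nonneg ‖a‖]
  have hP' := hP.shift hsq
  have hQ' := hQ.shift (ψ := fun x => -‖x - o'‖ ^ 2) (k := -k) fun x => by rw [hsq]; ring
  have h3 := abs_lt.1 ht'
  have h4 := abs_le.1 hkle
  have e1 : -(t' - k) = -t' - -k := by ring
  rw [← e1] at hQ'
  have ht0 : 0 < t' - k := by nlinarith
  exact concentric_class hdim ht0 hP' hQ' hs

end Pool.Schoen
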