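import Pool.Agent.H.MP_6c077c_gt.Ph.QDefs

/-! Concentric facing pairs: the complement of the body in a sphere is connected. -/

set_option autoImplicit false

namespace Pool.Schoen

open Filter Set
open scoped Topology RealInnerProductSpace ContDiff

variable {V : Type*} [NormedAddCommGroup V] [InnerProductSpace ℝ V] [FiniteDimensional ℝ V]

/-- A closed set `S` is preconnected if it contains a preconnected part `W` such that all other
points of `S` lie in a compact set and are limits of higher points of `S`. -/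
private theorem QShell_pre {X : Type*} [TopologicalSpace X] {S W C : Set X} (hS : IsClosed S)
    (hC : IsCompact C) (hW : IsPreconnected W) (hWS : W ⊆ S) (hSC : ∀ x ∈ S, x ∉ W → x ∈ C)
    {h : X → ℝ} (hh : Continuous h)
    (hup : ∀ x ∈ S, x ∉ W → ∃ᶠ y in 𝓝 x, y ∈ S ∧ h x < h y) : IsPreconnected S := by
  rw [isPreconnected_closed_iff]
  intro A B hA hB hAB hSA hSB
  by_contra hne
  rw [Set.not_nonempty_iff_eq_empty] at hne
  have key : ∀ A B : Set X, IsClosed A → IsClosed B → S ⊆ A ∪ B → S ∩ (A ∩ B) = ∅ →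
      (S ∩ B).Nonempty → (W ∩ B).Nonempty := by
    intro A B hA hB hAB hne hSB
    by_contra hWB
    rw [Set.not_nonempty_iff_eq_empty] at hWB
    have hnW : ∀ x ∈ S ∩ B, x ∉ W := by
      intro x hx hxW
      have h1 : x ∈ W ∩ B := ⟨hxW, hx.2⟩
      rw [hWB] at h1
      exact h1
    have hcp : IsCompact (S ∩ B) := by
      have h1 : C ∩ (S ∩ B) = S ∩ B :=
        Set.inter_eq_right.2 fun x hx => hSC x hx.1 (hnW x hx)
      rw [← h1]
      exact hC.inter_right (hS.inter hB)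
    obtain ⟨x, hx, hmax⟩ := hcp.exists_isMaxOn hSB hh.continuousOn
    have hxA : x ∉ A := fun hxA => by
      have h1 : x ∈ S ∩ (A ∩ B) := ⟨hx.1, hxA, hx.2⟩
      rw [hne] at h1
      exact h1
    have hev : ∀ᶠ y in 𝓝 x, y ∉ A := hA.isOpen_compl.mem_nhds hxA
    obtain ⟨y, ⟨hyS, hyh⟩, hyA⟩ := ((hup x hx.1 (hnW x hx)).and_eventually hev).exists
    exact absurd (hmax (⟨hyS, (hAB hyS).resolve_left hyA⟩ : y ∈ S ∩ B)) (not_le.2 hyh)
  have h1 := key A B hA hB hAB hne hSB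
  have h2 := key B A hB hA (by rwa [Set.union_comm]) (by rwa [Set.inter_comm B A]) hSA
  obtain ⟨x, hx, hx'⟩ := isPreconnected_closed_iff.1 hW A B hA hB (hWS.trans hAB) h2 h1
  have h3 : x ∈ S ∩ (A ∩ B) := ⟨hWS hx, hx'⟩
  rw [hne] at h3
  exact h3

omit [FiniteDimensional ℝ V] in
/-- Near a free zero there are higher points outside the body. -/
private theorem QShell_free {K ψ : V → ℝ} {x : V} (hf : FreeP K ψ x) (hx : K x = 0)
    (hψ : DifferentiableAt ℝ ψ x) : ∃ᶠ y in 𝓝 x, 0 ≤ K y ∧ ψ x < ψ y := by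
  obtain ⟨v, ⟨κ, hκ, hD⟩, hv⟩ := hf
  have hγt : Tendsto (fun s : ℝ => x - s • v) (𝓝[>] (0 : ℝ)) (𝓝 x) := by
    have h1 : Continuous (fun s : ℝ => x - s • v) := by fun_prop
    have h2 := h1.tendsto 0
    simp only [zero_smul, sub_zero] at h2
    exact h2.mono_left nhdsWithin_le_nhds
  have hT : Tendsto (fun s : ℝ => (((), (x - s • v, (v, s))) : Unit × (V × (V × ℝ))))
      (𝓝[>] (0 : ℝ)) ((⊤ : Filter Unit) ×ˢ (𝓝 x ×ˢ (𝓝 v ×ˢ 𝓝[>] (0 : ℝ)))) :=
    tendsto_top.prodMk (hγt.prodMk (tendsto_const_nhds.prodMk tendsto_id))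
  have hd : HasDerivAt (fun s : ℝ => ψ (x - s • v)) (-(fderiv ℝ ψ x v)) 0 := by
    have h1 : HasDerivAt (fun s : ℝ => x - s • v) (-v) 0 := by
      have h2 : HasDerivAt (fun s : ℝ => s • v) ((1 : ℝ) • v) 0 :=
        (hasDerivAt_id (0 : ℝ)).smul_const v
      rw [one_smul] at h2
      exact h2.const_sub x
    have h3 : HasFDerivAt ψ (fderiv ℝ ψ x) (x - (0 : ℝ) • v) := by
      rw [zero_smul, sub_zero]
      exact hψ.hasFDerivAt
    have h4 := h3.comp_hasDerivAt (0 : ℝ) h1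
    rw [map_neg] at h4
    exact h4
  have hslope := hd.tendsto_slope_zero_right
  have hpos : ∀ᶠ s in 𝓝[>] (0 : ℝ), (0 : ℝ) < s⁻¹ • (ψ (x - (0 + s) • v) - ψ (x - (0 : ℝ) • v)) :=
    hslope.eventually (eventually_gt_nhds (by linarith))
  refine hγt.frequently (Eventually.frequently ?_)
  filter_upwards [hT.eventually hD, hpos, self_mem_nhdsWithin] with s hs1 hs2 hs3
  have hs3' : (0 : ℝ) < s := hs3
  refine ⟨?_, ?_⟩
  · simp only [sub_add_cancel] at hs1
    rw [hx] at hs1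
    have : 0 < κ * s := by positivity
    linarith
  · rw [zero_add, zero_smul, sub_zero, smul_eq_mul] at hs2
    have h1 := (pos_iff_pos_of_mul_pos hs2).1 (inv_pos.2 hs3')
    linarith

omit [FiniteDimensional ℝ V] in
/-- At a point of the complement of the body different from `o` one can move away from `o` and
towards `o`. -/
private theorem QShell_pos {K : V → ℝ} {o x : V} (hK : Continuous K) (hx : 0 < K x)
    (h0 : 0 < ‖x - o‖ ^ 2) :
    (∃ᶠ y in 𝓝 x, 0 ≤ K y ∧ ‖x - o‖ ^ 2 < ‖y - o‖ ^ 2) ∧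
      ∃ᶠ y in 𝓝 x, 0 ≤ K y ∧ ‖y - o‖ ^ 2 < ‖x - o‖ ^ 2 := by
  have hgen : ∀ a : ℝ, Tendsto (fun s : ℝ => x + (a * s) • (x - o)) (𝓝[>] (0 : ℝ)) (𝓝 x) := by
    intro a
    have h1 : Continuous (fun s : ℝ => x + (a * s) • (x - o)) := by fun_prop
    have h2 := h1.tendsto 0
    simp only [mul_zero, zero_smul, add_zero] at h2
    exact h2.mono_left nhdsWithin_le_nhds
  have hn : ∀ a s : ℝ, ‖x + (a * s) • (x - o) - o‖ ^ 2 = (1 + a * s) ^ 2 * ‖x - o‖ ^ 2 := by
    intro a s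
    have h1 : x + (a * s) • (x - o) - o = (1 + a * s) • (x - o) := by
      rw [add_smul, one_smul]
      abel
    rw [h1, norm_smul, mul_pow, Real.norm_eq_abs, sq_abs]
  constructor
  · refine (hgen 1).frequently (Eventually.frequently ?_)
    have h3 := ((hK.tendsto x).comp (hgen 1)).eventually (eventually_gt_nhds hx)
    filter_upwards [h3, self_mem_nhdsWithin] with s hs1 hs2
    have hs2' : (0 : ℝ) < s := hs2
    refine ⟨le_of_lt hs1, ?_⟩
    rw [hn]
    have h5 : 1 < (1 + 1 * s) ^ 2 := by nlinarith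
    nlinarith
  · refine (hgen (-1)).frequently (Eventually.frequently ?_)
    have h3 := ((hK.tendsto x).comp (hgen (-1))).eventually (eventually_gt_nhds hx)
    have h4 : ∀ᶠ s in 𝓝[>] (0 : ℝ), s < 1 :=
      mem_nhdsWithin_of_mem_nhds (eventually_lt_nhds one_pos)
    filter_upwards [h3, h4, self_mem_nhdsWithin] with s hs1 hs4 hs2
    have hs2' : (0 : ℝ) < s := hs2
    refine ⟨le_of_lt hs1, ?_⟩
    rw [hn]
    have h5 : (1 + -1 * s) ^ 2 < 1 := by nlinarith
    nlinarith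

/-- The outside of a ball is preconnected. -/
private theorem QShell_out (hdim : 2 ≤ Module.finrank ℝ V) (o : V) {t : ℝ} (ht : 0 ≤ t) :
    IsPreconnected {x : V | t < ‖x - o‖ ^ 2} := by
  have hrank : 1 < Module.rank ℝ V := by
    rw [← Module.finrank_eq_rank]
    exact_mod_cast hdim
  have h1 := ((isPreconnected_sphere hrank (0 : V) 1).prod
    (isPreconnected_Ioi (a := √t))).image (fun p : V × ℝ => o + p.2 • p.1)
    (by fun_prop)
  have h2 : {x : V | t < ‖x - o‖ ^ 2} =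
      (fun p : V × ℝ => o + p.2 • p.1) '' (Metric.sphere (0 : V) 1 ×ˢ Ioi √t) := by
    ext x
    constructor
    · intro hx
      have hx' : t < ‖x - o‖ ^ 2 := hx
      have h3 : √t < ‖x - o‖ := by
        rw [← Real.sqrt_sq (norm_nonneg (x - o))]
        exact Real.sqrt_lt_sqrt ht hx'
      have h4 : 0 < ‖x - o‖ := (Real.sqrt_nonneg t).trans_lt h3
      refine ⟨(‖x - o‖⁻¹ • (x - o), ‖x - o‖), ⟨?_, h3⟩, ?_⟩
      · rw [mem_sphere_zero_iff_norm, norm_smul, norm_inv, norm_norm,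
          inv_mul_cancel₀ h4.ne']
      · show o + ‖x - o‖ • ‖x - o‖⁻¹ • (x - o) = x
        rw [smul_smul, mul_inv_cancel₀ h4.ne', one_smul]
        abel
    · rintro ⟨⟨w, r⟩, ⟨hw, hr⟩, rfl⟩
      have hw' : ‖w‖ = 1 := mem_sphere_zero_iff_norm.1 hw
      have hr' : √t < r := hr
      show t < ‖o + r • w - o‖ ^ 2
      rw [add_sub_cancel_left, norm_smul, hw', mul_one, Real.norm_eq_abs, sq_abs]
      exact (Real.sqrt_lt' ((Real.sqrt_nonneg t).trans_lt hr')).1 hr'
  rw [h2]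
  exact h1

/-- The set of `x` with `‖x - o‖ ^ 2 ≤ t` is compact. -/
private theorem QShell_compact (o : V) (t : ℝ) : IsCompact {x : V | ‖x - o‖ ^ 2 ≤ t} := by
  have hcl : IsClosed {x : V | ‖x - o‖ ^ 2 ≤ t} := isClosed_le (by fun_prop) continuous_const
  refine Metric.isCompact_of_isClosed_isBounded hcl ?_
  refine (Metric.isBounded_closedBall (x := o) (r := √t)).subset ?_
  intro x hx
  have hx' : ‖x - o‖ ^ 2 ≤ t := hx
  rw [mem_closedBall_iff_norm]
  exact Real.le_sqrt_of_sq_le hx'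

private theorem QShell_U (hdim : 2 ≤ Module.finrank ℝ V) {K : V → ℝ} {o : V} {t₁ t₂ t : ℝ}
    (h0 : 0 < t₁) (hK : Shell K o t₁ t₂) (h1 : t₁ < t) (h2 : t < t₂) :
    IsPreconnected {x | 0 ≤ K x ∧ t ≤ ‖x - o‖ ^ 2} := by
  have hKc := hK.good.cont
  have hpos : ∀ x, t₂ < ‖x - o‖ ^ 2 → 0 < K x := by
    intro x hx
    by_contra hle
    exact absurd (hK.sub x (not_lt.1 hle)).2 (not_le.2 hx)
  refine QShell_pre (W := {x : V | t₂ < ‖x - o‖ ^ 2}) (C := {x : V | ‖x - o‖ ^ 2 ≤ t₂})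
    (h := fun x => ‖x - o‖ ^ 2) ?_ (QShell_compact o t₂) (QShell_out hdim o (by linarith)) ?_ ?_
    ((continuous_id.sub continuous_const).norm.pow 2) ?_
  · exact (isClosed_le continuous_const hKc).inter
      (isClosed_le continuous_const ((continuous_id.sub continuous_const).norm.pow 2))
  · intro x hx
    have hx' : t₂ < ‖x - o‖ ^ 2 := hx
    exact ⟨(hpos x hx').le, by linarith⟩
  · intro x _ hx
    have hx' : ¬ t₂ < ‖x - o‖ ^ 2 := hx
    exact not_lt.1 hx'
  · rintro x ⟨hx0, hxt⟩ -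
    rcases hx0.lt_or_eq with hx1 | hx1
    · refine (QShell_pos hKc hx1 (by linarith)).1.mono fun y hy => ⟨⟨hy.1, ?_⟩, hy.2⟩
      linarith [hy.2]
    · have h3 := QShell_free (hK.down x hx1.symm (by linarith)) hx1.symm
        ((differentiableAt_id.sub_const o).norm_sq ℝ)
      refine h3.mono fun y hy => ⟨⟨hy.1, ?_⟩, hy.2⟩
      have h4 : ‖x - o‖ ^ 2 < ‖y - o‖ ^ 2 := hy.2
      linarith

private theorem QShell_L {K : V → ℝ} {o : V} {t₁ t₂ t : ℝ}
    (h0 : 0 < t₁) (hK : Shell K o t₁ t₂) (h1 : t₁ < t) (h2 : t < t₂) :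
    IsPreconnected {x | 0 ≤ K x ∧ ‖x - o‖ ^ 2 ≤ t} := by
  have hKc := hK.good.cont
  have hpos : ∀ x, ‖x - o‖ ^ 2 < t₁ → 0 < K x := by
    intro x hx
    by_contra hle
    exact absurd (hK.sub x (not_lt.1 hle)).1 (not_le.2 hx)
  have hball : {x : V | ‖x - o‖ ^ 2 < t₁} = Metric.ball o √t₁ := by
    ext x
    rw [mem_ball_iff_norm, Real.lt_sqrt (norm_nonneg _)]
    exact Iff.rfl
  refine QShell_pre (W := {x : V | ‖x - o‖ ^ 2 < t₁}) (C := {x : V | ‖x - o‖ ^ 2 ≤ t})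
    (h := fun x => -‖x - o‖ ^ 2) ?_ (QShell_compact o t) ?_ ?_ ?_
    ((continuous_id.sub continuous_const).norm.pow 2).neg ?_
  · exact (isClosed_le continuous_const hKc).inter
      (isClosed_le ((continuous_id.sub continuous_const).norm.pow 2) continuous_const)
  · rw [hball]
    exact (convex_ball o √t₁).isPreconnected
  · intro x hx
    have hx' : ‖x - o‖ ^ 2 < t₁ := hx
    exact ⟨(hpos x hx').le, by linarith⟩
  · intro x hx _
    exact hx.2
  · rintro x ⟨hx0, hxt⟩ hxW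
    have hxW' : t₁ ≤ ‖x - o‖ ^ 2 := not_lt.1 hxW
    rcases hx0.lt_or_eq with hx1 | hx1
    · refine (QShell_pos hKc hx1 (by linarith)).2.mono fun y hy => ⟨⟨hy.1, ?_⟩, ?_⟩
      · linarith [hy.2]
      · exact neg_lt_neg hy.2
    · have h3 := QShell_free (hK.up x hx1.symm (by linarith)) hx1.symm
        ((differentiableAt_id.sub_const o).norm_sq ℝ).neg
      refine h3.mono fun y hy => ⟨⟨hy.1, ?_⟩, hy.2⟩
      have h4 : -‖x - o‖ ^ 2 < -‖y - o‖ ^ 2 := hy.2
      linarith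

/-- PROOF. Unicoherence: `{0 ≤ K}` is closed with the lifting property (`hs.olift`) and is the union of the
closed sets `U = {0 ≤ K, t ≤ ‖x - o‖ ^ 2}` and `L = {0 ≤ K, ‖x - o‖ ^ 2 ≤ t}`; if both are preconnected, the
intersection is (`alu_unicoherent`, Al/Unico.lean).
`U`: let `U` be the disjoint union of closed `U₁`, `U₂` (`isPreconnected_closed_iff` or so), both nonempty;
`{t₂ < ‖x - o‖ ^ 2}` is connected (complement of a ball, dimension at least 2) and in `{0 < K}` (`hK.sub`), so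
it is in one of them, say `U₂`; `U₁` is compact; let `x` be a point of `U₁` where `‖x - o‖` is maximal
(it is not `o`, as `t > 0`). If `0 < K x`, the points `x + s • (x - o)` are in `U` and, near `x`, in `U₁`:
contradiction. If `K x = 0`: `hK.down x` gives `v` with `Desc1 K x v` and `⟪x - o, v⟫ < 0`; then
`K (x - s • v) > 0` and `‖x - s • v - o‖ > ‖x - o‖` for small `s > 0`: contradiction.
`L`: the same with `{‖x - o‖ ^ 2 < t₁}` (a ball in `{0 < K}`), a point of `U₁` where `‖x - o‖` is minimal, and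
`hK.up`. (Compare Gd/UpConn.lean.) -/
theorem shell_level_out (hdim : 2 ≤ Module.finrank ℝ V) {K : V → ℝ} {o : V} {t₁ t₂ t : ℝ}
    (h0 : 0 < t₁) (hK : Shell K o t₁ t₂) (hs : PSides K) (h1 : t₁ < t) (h2 : t < t₂) :
    IsPreconnected {x | 0 ≤ K x ∧ ‖x - o‖ ^ 2 = t} := by
  have hU := QShell_U hdim h0 hK h1 h2
  have hL := QShell_L h0 hK h1 h2
  have hlift : LiftS (univ : Set {x | 0 ≤ K x}) :=
    LiftS.homeo (Homeomorph.Set.univ {x | 0 ≤ K x}).symm hs.olift
  have hφ : Continuous fun y : {x | 0 ≤ K x} => ‖(y : V) - o‖ ^ 2 := by fun_prop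
  have hA : IsPreconnected {y : {x | 0 ≤ K x} | t ≤ ‖(y : V) - o‖ ^ 2} := by
    rw [← Topology.IsInducing.subtypeVal.isPreconnected_image]
    have e : Subtype.val '' {y : {x | 0 ≤ K x} | t ≤ ‖(y : V) - o‖ ^ 2} =
        {x | 0 ≤ K x ∧ t ≤ ‖x - o‖ ^ 2} := by
      ext x
      constructor
      · rintro ⟨y, hy, rfl⟩
        exact ⟨y.2, hy⟩
      · rintro ⟨hx1, hx2⟩
        exact ⟨⟨x, hx1⟩, hx2, rfl⟩
    rw [e]
    exact hU
  have hB : IsPreconnected {y : {x | 0 ≤ K x} | ‖(y : V) - o‖ ^ 2 ≤ t} := by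
    rw [← Topology.IsInducing.subtypeVal.isPreconnected_image]
    have e : Subtype.val '' {y : {x | 0 ≤ K x} | ‖(y : V) - o‖ ^ 2 ≤ t} =
        {x | 0 ≤ K x ∧ ‖x - o‖ ^ 2 ≤ t} := by
      ext x
      constructor
      · rintro ⟨y, hy, rfl⟩
        exact ⟨y.2, hy⟩
      · rintro ⟨hx1, hx2⟩
        exact ⟨⟨x, hx1⟩, hx2, rfl⟩
    rw [e]
    exact hL
  have hAB := alu_unicoherent hlift (isClosed_le continuous_const hφ)
    (isClosed_le hφ continuous_const) hA hB
    (Set.eq_univ_of_forall fun y => le_total t (‖(y : V) - o‖ ^ 2))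
  have h3 := hAB.image Subtype.val continuous_subtype_val.continuousOn
  have e : Subtype.val '' ({y : {x | 0 ≤ K x} | t ≤ ‖(y : V) - o‖ ^ 2} ∩
      {y : {x | 0 ≤ K x} | ‖(y : V) - o‖ ^ 2 ≤ t}) = {x | 0 ≤ K x ∧ ‖x - o‖ ^ 2 = t} := by
    ext x
    constructor
    · rintro ⟨y, ⟨hy1, hy2⟩, rfl⟩
      exact ⟨y.2, le_antisymm hy2 hy1⟩
    · rintro ⟨hx1, hx2⟩
      exact ⟨⟨x, hx1⟩, ⟨hx2.ge, hx2.le⟩, rfl⟩
  rw [e] at h3
  exact h3

end Pool.Schoen
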