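import Pool.Agent.H.MP_6c077c_gt.Ph.QDefs
import Pool.Agent.H.MP_6c077c_gt.Ph.PInd

/-! Concentric facing pairs: the two-sided reduction. -/

set_option autoImplicit false

namespace Pool.Schoen

open Filter Set
open scoped Topology RealInnerProductSpace ContDiff

variable {V : Type*} [NormedAddCommGroup V] [InnerProductSpace ℝ V]

theorem neg_germ {φ ψ : V → ℝ} {x : V} (h : φ =ᶠ[𝓝 x] ψ) :
    (fun y => -φ y) =ᶠ[𝓝 x] fun y => -ψ y := h.mono fun y hy => by
  show -φ y = -ψ y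
  rw [hy]

theorem neg_fderiv_ne {φ : V → ℝ} {x : V} (h : fderiv ℝ φ x ≠ 0) :
    fderiv ℝ (fun y => -φ y) x ≠ 0 := by
  have h1 : fderiv ℝ (fun y => -φ y) x = -fderiv ℝ φ x := fderiv_fun_neg
  rw [h1]
  exact neg_ne_zero.2 h

/-- The lower side of a body of the upper class. -/
theorem PTwo.lower {f φ g φ' : V → ℝ} {a b : ℝ} (hab : a ≤ b) {P Q : Finset V}
    (hf : PTwo f φ a b P Q) (hg : PClass g φ' b ∅) (hp : PLow g φ' f φ b) :
    ∃ Q' : Finset V, PClass g (fun x => -φ' x) (-a) Q' := by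
  classical
  have hle : ∀ x, -a ≤ -φ' x → φ x ≤ b := fun x hx => (hp.1 x).1 (by linarith)
  refine ⟨Q.filter fun q => g q = 0, hg.sm.neg, hg.bdd, hg.good, ?_, ?_, ?_, ?_⟩
  · intro q hq
    rw [Finset.mem_filter] at hq
    obtain ⟨h1, -, h3⟩ := hp.2 q ((hf.lowQ q hq.1).le.trans hab)
    exact (hf.inwQ q hq.1).congr (h3 hq.2).symm (neg_germ h1.symm)
  · intro q hq
    rw [Finset.mem_filter] at hq
    obtain ⟨h1, -, -⟩ := hp.2 q ((hf.lowQ q hq.1).le.trans hab)
    show -a < -φ' q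
    rw [h1.self_of_nhds]
    linarith [hf.lowQ q hq.1]
  · intro x hx hxa hxQ
    obtain ⟨h1, -, h3⟩ := hp.2 x (hle x hxa)
    have h4 := h3 hx
    have h5 : f x = 0 := by rw [← h4.self_of_nhds, hx]
    have h6 : x ∉ Q := fun h => hxQ (Finset.mem_filter.2 ⟨h, hx⟩)
    exact (hf.freeQ x h5 (hle x hxa) h6).congr h4.symm (neg_germ h1.symm)
  · intro x hx hxa
    obtain ⟨h1, h2, -⟩ := hp.2 x (hle x hxa)
    apply neg_fderiv_ne
    rw [h1.fderiv_eq]
    exact hf.reg x (h2 hx)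

/-- The bodies at the end of the two reductions. -/
theorem PTwo.base {f φ g φ' k φ'' : V → ℝ} {a b : ℝ} {P Q : Finset V}
    (hf : PTwo f φ a b P Q) (hg : PClass g φ' b ∅) (hp : PLow g φ' f φ b)
    (hk : PClass k φ'' (-a) ∅) (hq : PLow k φ'' g (fun x => -φ' x) (-a)) :
    PTwo k (fun x => -φ'' x) a b ∅ ∅ ∧ PMid k (fun x => -φ'' x) f φ a b := by
  have hnn : (fun x => -(-φ'' x)) = φ'' := funext fun x => neg_neg _
  -- a zero (or a point) of the body of `k` at or above `a`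
  have hup : ∀ x, a ≤ -φ'' x → (fun y => -φ'' y) =ᶠ[𝓝 x] φ' ∧ a ≤ φ' x ∧ (k x ≤ 0 → g x ≤ 0) ∧
      (k x = 0 → k =ᶠ[𝓝 x] g) := by
    intro x hx
    have h0 : -φ' x ≤ -a := (hq.1 x).1 (by linarith)
    obtain ⟨h1, h2, h3⟩ := hq.2 x h0
    have h4 := neg_germ h1
    simp only [neg_neg] at h4
    exact ⟨h4, by linarith, h2, h3⟩
  have hlow : ∀ x, φ' x ≤ b → φ' =ᶠ[𝓝 x] φ ∧ φ x ≤ b ∧ (g x ≤ 0 → f x ≤ 0) ∧
      (g x = 0 → g =ᶠ[𝓝 x] f) := by
    intro x hx
    have h0 := (hp.1 x).1 hx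
    exact ⟨(hp.2 x h0).1, h0, (hp.2 x h0).2.1, (hp.2 x h0).2.2⟩
  refine ⟨⟨hk.sm.neg, hk.bdd, hk.good, by simp, by simp, by simp, by simp, ?_, ?_, ?_⟩, ?_, ?_⟩
  · intro x hx hxa _
    obtain ⟨h1, h2, -, h4⟩ := hup x hxa
    have h5 := h4 hx
    have h6 : g x = 0 := by rw [← h5.self_of_nhds, hx]
    have h7 : FreeP g φ' x := by
      rcases le_or_gt b (φ' x) with h8 | h8
      · exact hg.free x h6 h8 (by simp)
      · obtain ⟨c1, c2, -, c4⟩ := hlow x h8.le
        have c5 := c4 h6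
        have c6 : f x = 0 := by rw [← c5.self_of_nhds, h6]
        have c7 : a ≤ φ x := by rw [← c1.self_of_nhds]; exact h2
        have c8 : x ∉ P := fun h => absurd (hf.highP x h) (not_lt.2 c2)
        exact (hf.freeP x c6 c7 c8).congr c5.symm c1.symm
    exact h7.congr h5.symm h1.symm
  · intro x hx hxb _
    rw [hnn]
    rcases le_or_gt (-a) (φ'' x) with h8 | h8
    · exact hk.free x hx h8 (by simp)
    · obtain ⟨h1, h2, -, h4⟩ := hup x (by linarith)
      have h5 := h4 hx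
      have h6 : g x = 0 := by rw [← h5.self_of_nhds, hx]
      have h9 : φ' x ≤ b := by
        rw [← h1.self_of_nhds]
        exact hxb
      obtain ⟨c1, c2, -, c4⟩ := hlow x h9
      have c5 := c4 h6
      have c6 : f x = 0 := by rw [← c5.self_of_nhds, h6]
      have c8 : x ∉ Q := by
        intro h
        have h10 := hf.lowQ x h
        rw [← c1.self_of_nhds, ← h1.self_of_nhds] at h10
        linarith
      have h11 := (hf.freeQ x c6 c2 c8).congr (c5.symm.trans h5.symm)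
        (neg_germ (c1.symm.trans h1.symm))
      simpa only [neg_neg] using h11
  · intro x hx
    rcases le_or_gt (-a) (φ'' x) with h8 | h8
    · exact neg_fderiv_ne (hk.reg x hx h8)
    · obtain ⟨h1, h2, h3, -⟩ := hup x (by linarith)
      rw [h1.fderiv_eq]
      rcases le_or_gt b (φ' x) with h9 | h9
      · exact hg.reg x (h3 hx) h9
      · obtain ⟨c1, -, c3, -⟩ := hlow x h9.le
        rw [c1.fderiv_eq]
        exact hf.reg x (c3 (h3 hx))
  · intro x
    constructor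
    · rintro ⟨h1, h2⟩
      obtain ⟨c1, c2, -, -⟩ := hup x h1
      have h3 : φ' x ≤ b := by
        rw [← c1.self_of_nhds]
        exact h2
      obtain ⟨d1, d2, -, -⟩ := hlow x h3
      refine ⟨?_, d2⟩
      rw [← d1.self_of_nhds]
      exact c2
    · rintro ⟨h1, h2⟩
      have h3 := (hp.2 x h2).1
      have h4 : -φ' x ≤ -a := by
        rw [h3.self_of_nhds]
        linarith
      have h5 := (hq.2 x h4).1.self_of_nhds
      show a ≤ -φ'' x ∧ -φ'' x ≤ b
      rw [h5, neg_neg, h3.self_of_nhds]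
      exact ⟨h1, h2⟩
  · intro x h1 h2
    obtain ⟨h3, h3', h3''⟩ := hp.2 x h2
    have h4 : -φ' x ≤ -a := by
      rw [h3.self_of_nhds]
      linarith
    obtain ⟨h5, h5', h5''⟩ := hq.2 x h4
    have h6 := neg_germ h5
    simp only [neg_neg] at h6
    refine ⟨h6.trans h3, fun h => h3' (h5' h), fun h => ?_⟩
    have h7 := h5'' h
    have h8 : g x = 0 := by rw [← h7.self_of_nhds, h]
    exact h7.trans (h3'' h8)

variable [FiniteDimensional ℝ V]

/-- The two-sided reduction. -/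
theorem ptwo_ind (hdim : 3 ≤ Module.finrank ℝ V) {f φ : V → ℝ} {a b : ℝ} (hab : a ≤ b)
    {P Q : Finset V} (hf : PTwo f φ a b P Q) (hs : PSides f)
    (hbase : ∀ g φ' : V → ℝ, PTwo g φ' a b ∅ ∅ → PMid g φ' f φ a b → PSides g → IsBall g) :
    IsBall f := by
  have h0 : PClass f φ b P := ⟨hf.sm, hf.bdd, hf.good, hf.inwP, hf.highP,
    fun x hx hxb hxP => hf.freeP x hx (hab.trans hxb) hxP, fun x hx _ => hf.reg x hx⟩
  refine pind hdim (F := f) (φ := φ) (c := b) ?_ h0 (PLow.rfl' _ _ _) hs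
  intro g φ' hg hp hgs
  obtain ⟨Q', hQ'⟩ := hf.lower hab hg hp
  refine pind hdim (F := g) (φ := fun x => -φ' x) (c := -a) ?_ hQ' (PLow.rfl' _ _ _) hgs
  intro k φ'' hk hq hks
  obtain ⟨h1, h2⟩ := hf.base hg hp hk hq
  exact hbase k _ h1 h2 hks

end Pool.Schoen
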